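import Pool.Agent.H974.VE.AT

/-!
# Project VE: almost every orbit tends to a class (adapted from `Pool/Agent/H974/VE/AT.lean`)
-/

set_option autoImplicit false

open scoped Topology
open Filter Set Metric MeasureTheory

universe u

namespace Pool.Agent.H247.VE

open Pool.Agent.H247.SD
open Pool.Agent.R774.OS (CR)
open Pool.Agent.Q182.MC (ChainTo cls)
open Pool.Agent.H728R2.FA (omegaLim FiniteAttractors)
open Pool.Agent.H974.VE.AT (mem_CR_of_chain)

/-- `S` is a finite set of pairwise disjoint closed invariant sets, each with a dense forward orbit,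
and the points whose `ω`-limit set is contained in none of them form a set of measure zero. -/
structure ClassesAE {X : Type u} [TopologicalSpace X] [MeasurableSpace X] (μ : Measure X)
    (g : X → X) (S : Set (Set X)) : Prop where
  finite : S.Finite
  disjoint : ∀ C ∈ S, ∀ C' ∈ S, C ≠ C' → Disjoint C C'
  closed : ∀ C ∈ S, IsClosed C
  invariant : ∀ C ∈ S, g '' C = C
  transitive : ∀ C ∈ S, ∃ x ∈ C, C ⊆ closure (range fun k : ℕ => g^[k] x)
  ae : μ {p | ∀ C ∈ S, ¬ omegaLim g p ⊆ C} = 0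

/-- finitely many classes give finitely many attractors -/
theorem attractors_of_classes {X : Type u} [TopologicalSpace X] [MeasurableSpace X]
    {μ : Measure X} {g : X → X} {S : Set (Set X)} (h : ClassesAE μ g S) :
    FiniteAttractors μ g := by
  classical
  have := h.finite.fintype
  let I := {C : S // 0 < μ {p | omegaLim g p ⊆ C.1}}
  let e := Fintype.equivFin I
  refine ⟨Fintype.card I, fun i => (e.symm i).1.1, fun i => ⟨?_, ?_, (e.symm i).2⟩, ?_⟩
  · exact h.invariant _ (e.symm i).1.2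
  · exact h.transitive _ (e.symm i).1.2
  · have hsub : {p | ∀ i : Fin (Fintype.card I), ¬ omegaLim g p ⊆ (e.symm i).1.1} ⊆
        {p | ∀ C ∈ S, ¬ omegaLim g p ⊆ C} ∪
        ⋃ C ∈ {C : S | μ {p | omegaLim g p ⊆ C.1} = 0}, {p | omegaLim g p ⊆ C.1} := by
      intro p hp
      by_cases hc : ∃ C ∈ S, omegaLim g p ⊆ C
      · obtain ⟨C, hC, hpC⟩ := hc
        right
        refine mem_iUnion₂.2 ⟨⟨C, hC⟩, ?_, hpC⟩
        by_contra hne
        have h1 : 0 < μ {p | omegaLim g p ⊆ C} := pos_iff_ne_zero.2 hne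
        refine hp (e ⟨⟨C, hC⟩, h1⟩) ?_
        rw [e.symm_apply_apply]
        exact hpC
      · exact Or.inl fun C hC hpC => hc ⟨C, hC, hpC⟩
    refine measure_mono_null hsub ?_
    rw [measure_union_null_iff]
    refine ⟨h.ae, ?_⟩
    rw [measure_biUnion_null_iff (Set.to_countable _)]
    exact fun C hC => hC

theorem classes_of {X : Type u} [MetricSpace X] [CompactSpace X] [MeasurableSpace X]
    [BorelSpace X] (μ : Measure X) [IsFiniteMeasure μ] (G : X ≃ₜ X) {K : Set X}
    {V : Set X} (hV : IsOpen V) (hKV : CR (G : X → X) \ K ⊆ V) {m : ℕ} {lam : ℝ} (hlam : 1 < lam)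
    (hexp : ∀ B ⊆ V, MeasurableSet B → ENNReal.ofReal lam * μ B ≤ μ (G^[m] '' B))
    (hnull : ∀ B, MeasurableSet B → μ B = 0 → μ (G ⁻¹' B) = 0)
    (hfin : {C | ∃ a ∈ K, C = cls (G : X → X) univ a}.Finite)
    (hcl : ∀ a ∈ K, cls (G : X → X) univ a ⊆ K)
    (hclo : ∀ a ∈ K, IsClosed (cls (G : X → X) univ a))
    (htr : ∀ a ∈ K, ∃ x ∈ cls (G : X → X) univ a,
      cls (G : X → X) univ a ⊆ closure (range fun k : ℕ => G^[k] x)) :
    ClassesAE μ (G : X → X) {C | ∃ a ∈ K, C = cls (G : X → X) univ a} ∧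
      (V = ∅ → ∀ p, ∃ C ∈ {C | ∃ a ∈ K, C = cls (G : X → X) univ a},
        omegaLim (G : X → X) p ⊆ C) := by
  -- the set of the points whose forward orbit stays in `V`
  obtain ⟨A, hA⟩ : ∃ A : Set X, A = {x | ∀ n : ℕ, (G : X → X)^[n] x ∈ V} := ⟨_, rfl⟩
  have hGc : ∀ n : ℕ, Continuous ((G : X → X)^[n]) := fun n => G.continuous.iterate n
  have hAm : MeasurableSet A := by
    have e : A = ⋂ n : ℕ, (G : X → X)^[n] ⁻¹' V := by
      rw [hA]
      ext x
      simp
    rw [e]
    exact MeasurableSet.iInter fun n => (hV.preimage (hGc n)).measurableSet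
  have hAV : A ⊆ V := fun x hx => by
    rw [hA] at hx
    exact hx 0
  have hAi : (G : X → X)^[m] '' A ⊆ A := by
    rintro _ ⟨x, hx, rfl⟩
    rw [hA] at hx ⊢
    intro n
    rw [← Function.iterate_add_apply]
    exact hx (n + m)
  have hA0 : μ A = 0 := by
    have h1 : ENNReal.ofReal lam * μ A ≤ μ A := (hexp A hAV hAm).trans (measure_mono hAi)
    have h2 : μ A ≠ ⊤ := measure_ne_top μ A
    have h3 := ENNReal.toReal_mono h2 h1
    rw [ENNReal.toReal_mul, ENNReal.toReal_ofReal (by linarith)] at h3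
    have h4 : 0 ≤ (μ A).toReal := ENNReal.toReal_nonneg
    have h5 : (μ A).toReal = 0 := by nlinarith
    exact ((ENNReal.toReal_eq_zero_iff _).1 h5).resolve_right h2
  have hn : ∀ (n : ℕ) (B : Set X), MeasurableSet B → μ B = 0 →
      μ ((G : X → X)^[n] ⁻¹' B) = 0 := by
    intro n
    induction n with
    | zero => exact fun B _ h => h
    | succ n ih =>
      intro B hB h
      have e : (G : X → X)^[n + 1] ⁻¹' B = G ⁻¹' ((G : X → X)^[n] ⁻¹' B) := by
        rw [Function.iterate_succ, Set.preimage_comp]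
      rw [e]
      exact hnull _ ((hGc n).measurable hB) (ih B hB h)
  have hZ : μ (⋃ n : ℕ, (G : X → X)^[n] ⁻¹' A) = 0 :=
    measure_iUnion_null fun n => hn n A hAm hA0
  -- the limit sets
  have key : ∀ p : X, (∃ a ∈ K, omegaLim G p ⊆ cls (G : X → X) univ a) ∨
      p ∈ ⋃ n : ℕ, (G : X → X)^[n] ⁻¹' A := by
    intro p
    obtain ⟨a, -, ha⟩ := Pool.Agent.Y318.MH.exists_omegaLim G p univ isClosed_univ
      (fun N => ⟨N, le_rfl, trivial⟩)
    have hch : ∀ b ∈ omegaLim G p, ∀ c ∈ omegaLim G p, ChainTo (G : X → X) univ b c :=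
      fun b hb c hc => Pool.Agent.Q182.MC.omega_chain G p (subset_univ _) hb hc
    by_cases haK : a ∈ K
    · exact Or.inl ⟨a, haK, fun b hb => ⟨hch a ha b hb, hch b hb a ha⟩⟩
    · right
      have hsub : omegaLim G p ⊆ V := by
        intro b hb
        refine hKV ⟨mem_CR_of_chain (hch b hb b hb), fun hbK => haK ?_⟩
        exact hcl b hbK ⟨hch b hb a ha, hch a ha b hb⟩
      have hev : ∃ N : ℕ, ∀ n, N ≤ n → (G : X → X)^[n] p ∈ V := by
        by_contra hcon
        push Not at hcon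
        obtain ⟨y, hyV, hyω⟩ := Pool.Agent.Y318.MH.exists_omegaLim G p Vᶜ hV.isClosed_compl
          (fun N => by
            obtain ⟨n, hn, h⟩ := hcon N
            exact ⟨n, hn, h⟩)
        exact hyV (hsub hyω)
      obtain ⟨N, hN⟩ := hev
      refine mem_iUnion.2 ⟨N, ?_⟩
      change (G : X → X)^[N] p ∈ A
      rw [hA]
      intro n
      rw [← Function.iterate_add_apply]
      exact hN _ (by omega)
  refine ⟨⟨hfin, ?_, ?_, ?_, ?_, ?_⟩, ?_⟩
  · rintro C ⟨a, ha, rfl⟩ C' ⟨a', ha', rfl⟩ hne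
    rw [Set.disjoint_left]
    intro x hx hx'
    apply hne
    ext y
    exact ⟨fun hy => ⟨hx'.1.trans (hx.2.trans hy.1), hy.2.trans (hx.1.trans hx'.2)⟩,
      fun hy => ⟨hx.1.trans (hx'.2.trans hy.1), hy.2.trans (hx'.1.trans hx.2)⟩⟩
  · rintro C ⟨a, ha, rfl⟩
    exact hclo a ha
  · rintro C ⟨a, ha, rfl⟩
    exact Pool.Agent.Q182.MC.cls_inv (K := univ) G (fun _ _ => mem_univ _)
      (fun _ _ => mem_univ _) a
  · rintro C ⟨a, ha, rfl⟩
    exact htr a ha
  · refine measure_mono_null (fun p hp => ?_) hZ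
    rcases key p with ⟨a, ha, h⟩ | h
    · exact absurd h (hp _ ⟨a, ha, rfl⟩)
    · exact h
  · intro hV0 p
    rcases key p with ⟨a, ha, h⟩ | h
    · exact ⟨_, ⟨a, ha, rfl⟩, h⟩
    · obtain ⟨n, h1⟩ := mem_iUnion.1 h
      have h2 := hAV h1
      rw [hV0] at h2
      exact absurd h2 (notMem_empty _)

end Pool.Agent.H247.VE
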