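import Pool.Agent.H247.VE.Fin
import Pool.Agent.H260.VE.VL
import Pool.Agent.H638.VE.NP
import Pool.Agent.H20.VE.CC2
import Pool.Agent.H887.VE.PD2
import Pool.Agent.H363.VE.PO2
import Pool.Agent.H130.VE.FC2
import Pool.Agent.H825.VE.TR2
import Pool.Agent.H974.VE.AT

/-!
# Project VE: the parts put together
-/

set_option autoImplicit false

open scoped Manifold ContDiff Topology
open Filter Set MeasureTheory Metric

universe u

namespace Pool.Agent.H247.VE

open Pool.Agent.H718R2.G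
open Pool.Agent.H728R2.FA (FiniteAttractors omegaLim)

theorem cc2 : S_CC2.{u} := Pool.Agent.H20.VE.CC2.main Pool.Agent.H895.SD.main

theorem final2 {n : ℕ} {N : Type u} [TopologicalSpace N] [ChartedSpace (V n) N]
    [T2Space N] [CompactSpace N] [IsManifold (𝓡 n) ∞ N] [MeasurableSpace N] [BorelSpace N]
    (μ : Measure N) [IsFiniteMeasure μ] (hμ : SmoothMeasure n μ) {r : ℕ∞} (hr : 1 ≤ r)
    (F : DiffM n N r) (L E D : Set N) (H : SplitCR μ F L E D) :
    ∃ U W : Set (DiffM n N r), IsOpen[strongTop n N r] U ∧ F ∈ U ∧ IsOpen[strongTop n N r] W ∧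
      W ⊆ U ∧ (∀ U' ⊆ U, IsOpen[strongTop n N r] U' → U'.Nonempty → (U' ∩ W).Nonempty) ∧
      (E = ∅ → W = U) ∧ ∀ G ∈ W, FiniteAttractors μ (G : N → N) ∧
        ∃ S : Set (Set N), ClassesAE μ (G : N → N) S ∧
          (D = ∅ → ∀ p, ∃ C ∈ S, omegaLim (G : N → N) p ⊆ C) :=
  final Pool.Agent.H260.VE.main cc2 (Pool.Agent.H887.VEPD2.main cc2) Pool.Agent.H363.VE.main
    Pool.Agent.H130.VE.main (Pool.Agent.H825.VETR2.main cc2) Pool.Agent.H638.VE.NP.main μ hμ hr F L E D H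

end Pool.Agent.H247.VE
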