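import Pool.Agent.H247.VE.Loc
import Pool.Agent.H247.VE.Fin2

/-!
# Project VE: the class-wise version, in a metric space
-/

set_option autoImplicit false
set_option linter.unusedSectionVars false

open scoped Manifold ContDiff Topology
open Filter Set Metric MeasureTheory

universe u

namespace Pool.Agent.H247.VE.Cls

open Pool.Agent.H718R2.G Pool.Agent.TH80.OMS Pool.Agent.Y504.CO Pool.Agent.H247.CB
open Pool.Agent.R774.OS Pool.Agent.K7.H85.KH Pool.Agent.H247.VE Pool.Agent.H247.SD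
open Pool.Agent.Q182.MC (ChainTo cls cls_inv)
open Pool.Agent.H728R2.FA (omegaLim FiniteAttractors)

section

variable {n : ℕ} {N : Type u} [MetricSpace N] [CompactSpace N]
  [ChartedSpace (V n) N] [IsManifold (𝓡 n) ∞ N]

/-- the form increases on the set `K` -/
def Incr {r : ℕ∞} (G : DiffM n N r) {d : ℕ} (e : N → V d) (K : Set N) : Prop :=
  ∃ B : N → V d →L[ℝ] V d →L[ℝ] ℝ, Continuous B ∧ ∀ x ∈ K, ∀ v : V n, v ≠ 0 →
    qform e B x v < qform e B (G x) (DN n G x v)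

def TyL {r : ℕ∞} (F : DiffM n N r) {d : ℕ} (e : N → V d) (x : N) : Prop :=
  Incr F e (cls (F : N → N) univ x)

def TyE {r : ℕ∞} (F : DiffM n N r) (x : N) : Prop :=
  ∃ m : ℕ, 1 ≤ m ∧ F^[m] x = x ∧ (∀ y ∈ cls (F : N → N) univ x, ∃ i : ℕ, y = F^[i] x) ∧
    ∀ i : ℕ, ∃ ψ ∈ IsManifold.maximalAtlas (𝓡 n) ∞ N, F^[i] x ∈ ψ.source ∧
      AtMostOne (fderiv ℝ (fun v => ψ (F^[m] (ψ.symm v))) (ψ (F^[i] x)))

/-- `G^m` expands `μ` on the set `O` -/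
def Expn [MeasurableSpace N] (μ : Measure N) {r : ℕ∞} (G : DiffM n N r) (O : Set N) : Prop :=
  ∃ (m : ℕ) (lam : ℝ), 1 < lam ∧ ∀ B ⊆ O, MeasurableSet B →
    ENNReal.ofReal lam * μ B ≤ μ (G^[m] '' B)

/-- the local statement -/
theorem local_piece (hLOC : S_LOC.{u}) (hSEP : S_SEP.{u}) (hIT : S_IT.{u}) (hPI : S_PI.{u})
    (hCI : S_CI.{u}) (hEPS : S_EPS.{u}) (hORB : S_ORB.{u}) (hCC2 : S_CC2.{u}) (hVL : S_VL.{u})
    [MeasurableSpace N] [BorelSpace N] (μ : Measure N) [IsFiniteMeasure μ]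
    {r : ℕ∞} (hr : 1 ≤ r) (F : DiffM n N r) {d : ℕ} {e : N → V d}
    (he : ContMDiff (𝓡 n) (𝓡 d) ∞ e) {TyD : N → Prop}
    (hD : ∀ x, TyD x → ∃ m : ℕ, ∀ y ∈ cls (F : N → N) univ x, ExpandsAt n μ (F^[m]) y)
    {x : N} (hx : x ∈ CR (F : N → N)) (hty : TyL F e x ∨ TyE F x ∨ TyD x) :
    ∃ (O' : Set N) (U : Set (DiffM n N r)) (q : ℕ), IsOpen O' ∧ x ∈ O' ∧
      IsOpen[strongTop n N r] U ∧ F ∈ U ∧ 1 ≤ q ∧
      ∀ G ∈ U, Iso G.toHomeomorph (CR (G : N → N) ∩ O') ∧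
        (Incr G e (CR (G : N → N) ∩ O') ∨
          ((¬ TyL F e x ∧ ¬ TyD x) ∧ ∀ z ∈ CR (G : N → N) ∩ O', G^[q] z = z) ∨
          ((¬ TyL F e x ∧ TyD x) ∧ Expn μ G O')) := by
  have hcl : IsClosed (cls (F : N → N) univ x) := Loc.closed_cls hEPS hCC2 F.toHomeomorph hx
  by_cases h1 : TyL F e x
  · obtain ⟨B, hB, hinc⟩ := h1
    obtain ⟨O, U₁, hO, hKO, hU₁, hFU₁, h2⟩ := hPI n N r hr F d e he B hB _ hcl hinc
    obtain ⟨P, hxP, hPO, hPC, hP, hP', hPF, hPF'⟩ := hEPS N F.toHomeomorph x hx O hO hKO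
    obtain ⟨O', U₂, hO', hPO', hO'O, hU₂, hFU₂, hiso⟩ := Loc.sep_iso hSEP hCI hr F hPC hP hP'
      hPF hPF' hO hPO
    refine ⟨O', U₁ ∩ U₂, 1, hO', hPO' hxP, @IsOpen.inter _ (strongTop n N r) _ _ hU₁ hU₂,
      ⟨hFU₁, hFU₂⟩, le_rfl, fun G hG => ⟨hiso G hG.2, Or.inl ⟨B, hB, fun y hy v hv =>
        h2 G hG.1 y (hO'O hy.2) v hv⟩⟩⟩
  by_cases h2 : TyD x
  · obtain ⟨m, hm⟩ := hD x h2
    obtain ⟨O, hO, hKO, lam, hlam, U₁, hU₁, hFU₁, h3⟩ := expand hVL μ hr F m hcl hm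
    obtain ⟨P, hxP, hPO, hPC, hP, hP', hPF, hPF'⟩ := hEPS N F.toHomeomorph x hx O hO hKO
    obtain ⟨O', U₂, hO', hPO', hO'O, hU₂, hFU₂, hiso⟩ := Loc.sep_iso hSEP hCI hr F hPC hP hP'
      hPF hPF' hO hPO
    exact ⟨O', U₁ ∩ U₂, 1, hO', hPO' hxP, @IsOpen.inter _ (strongTop n N r) _ _ hU₁ hU₂,
      ⟨hFU₁, hFU₂⟩, le_rfl, fun G hG => ⟨hiso G hG.2, Or.inr (Or.inr ⟨⟨h1, h2⟩, m, lam, hlam,
        fun B hB hBm => h3 G hG.1 B (hB.trans hO'O) hBm⟩)⟩⟩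
  · obtain ⟨m, hm, hxm, hc, hA⟩ := (hty.resolve_left h1).resolve_right h2
    obtain ⟨O', U, hO', hxO', hU, hFU, h3⟩ := Loc.pieceE hLOC hSEP hIT hCI hEPS hORB hr F hx hm
      hxm hc hA
    exact ⟨O', U, 2 * m, hO', hxO', hU, hFU, by omega, fun G hG => ⟨(h3 G hG).1,
      Or.inr (Or.inl ⟨⟨h1, h2⟩, (h3 G hG).2⟩)⟩⟩

/-- the covering statement -/
theorem cover (hLOC : S_LOC.{u}) (hSEP : S_SEP.{u}) (hIT : S_IT.{u}) (hPI : S_PI.{u})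
    (hUSC : S_USC.{u}) (hFM : S_FM.{u}) (hNB : S_NB.{u}) (hHD : S_HD.{u})
    (hCI : S_CI.{u}) (hEPS : S_EPS.{u}) (hORB : S_ORB.{u}) (hCC2 : S_CC2.{u}) (hVL : S_VL.{u})
    [MeasurableSpace N] [BorelSpace N] (μ : Measure N) [IsFiniteMeasure μ]
    {r : ℕ∞} (hr : 1 ≤ r) (F : DiffM n N r) {d : ℕ} {e : N → V d}
    (he : ContMDiff (𝓡 n) (𝓡 d) ∞ e) (hinj : ∀ x, Function.Injective (DE n e x))
    {TyD : N → Prop}
    (hD : ∀ x, TyD x → ∃ m : ℕ, ∀ y ∈ cls (F : N → N) univ x, ExpandsAt n μ (F^[m]) y)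
    (hty : ∀ x ∈ CR (F : N → N), TyL F e x ∨ TyE F x ∨ TyD x) :
    ∃ (t : Finset N) (O' : N → Set N) (U W : Set (DiffM n N r)), IsOpen[strongTop n N r] U ∧
      F ∈ U ∧ IsOpen[strongTop n N r] W ∧ W ⊆ U ∧
      (∀ U' ⊆ U, IsOpen[strongTop n N r] U' → U'.Nonempty → (U' ∩ W).Nonempty) ∧
      ((∀ x ∈ CR (F : N → N), TyL F e x ∨ TyD x) → W = U) ∧ (∀ x ∈ t, x ∈ CR (F : N → N)) ∧
      (∀ x, IsOpen (O' x)) ∧ ∀ G ∈ W, CR (G : N → N) ⊆ ⋃ x ∈ t, O' x ∧ ∀ x ∈ t,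
        Iso G.toHomeomorph (CR (G : N → N) ∩ O' x) ∧
        (Incr G e (CR (G : N → N) ∩ O' x) ∨ ((¬ TyL F e x ∧ TyD x) ∧ Expn μ G (O' x))) := by
  classical
  have hloc : ∀ x : N, ∃ (O' : Set N) (U : Set (DiffM n N r)) (q : ℕ), IsOpen O' ∧ x ∈ O' ∧
      IsOpen[strongTop n N r] U ∧ F ∈ U ∧ 1 ≤ q ∧ (x ∈ CR (F : N → N) →
      ∀ G ∈ U, Iso G.toHomeomorph (CR (G : N → N) ∩ O') ∧
        (Incr G e (CR (G : N → N) ∩ O') ∨
          ((¬ TyL F e x ∧ ¬ TyD x) ∧ ∀ z ∈ CR (G : N → N) ∩ O', G^[q] z = z) ∨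
          ((¬ TyL F e x ∧ TyD x) ∧ Expn μ G O'))) := by
    intro x
    by_cases hx : x ∈ CR (F : N → N)
    · obtain ⟨O', U, q, h1, h2, h3, h4, h5, h6⟩ := local_piece hLOC hSEP hIT hPI hCI hEPS hORB
        hCC2 hVL μ hr F he hD hx (hty x hx)
      exact ⟨O', U, q, h1, h2, h3, h4, h5, fun _ => h6⟩
    · exact ⟨univ, univ, 1, isOpen_univ, mem_univ _, @isOpen_univ _ (strongTop n N r),
        mem_univ _, le_rfl, fun h => absurd h hx⟩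
  choose O' U' q' hO' hxO' hU' hFU' hq' hG using hloc
  obtain ⟨t, htC, ht⟩ := (isClosed_CR F.continuous).isCompact.elim_nhds_subcover O' fun x _ =>
    (hO' x).mem_nhds (hxO' x)
  obtain ⟨ε, hε, h3⟩ := hUSC N F.toHomeomorph (⋃ x ∈ t, O' x)
    (isOpen_biUnion fun x _ => hO' x) ht
  obtain ⟨U₂, hU₂, hFU₂, h4⟩ := Dif.close hCI hr F hε
  set q : ℕ := t.prod q' with hq
  have hq1 : 1 ≤ q := by
    rw [hq]
    exact Nat.one_le_iff_ne_zero.2 (Finset.prod_ne_zero_iff.2 fun x _ => by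
      have := hq' x
      omega)
  set U : Set (DiffM n N r) := U₂ ∩ ⋂ x ∈ t, U' x with hUdef
  have hUo : IsOpen[strongTop n N r] U := @IsOpen.inter _ (strongTop n N r) _ _ hU₂
    (@isOpen_biInter_finset _ _ (strongTop n N r) t U' fun x _ => hU' x)
  obtain ⟨Fl, hFl⟩ : ∃ Fl : Prop, Fl = ∃ x ∈ CR (F : N → N), ¬ TyL F e x ∧ ¬ TyD x := ⟨_, rfl⟩
  set W : Set (DiffM n N r) := U ∩ {G | Fl → HypK n q G} with hWdef
  have hWo : IsOpen[strongTop n N r] W := by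
    by_cases hne : Fl
    · have : W = U ∩ {G | HypK n q G} := by
        rw [hWdef]
        ext G
        exact ⟨fun h => ⟨h.1, h.2 hne⟩, fun h => ⟨h.1, fun _ => h.2⟩⟩
      rw [this]
      exact @IsOpen.inter _ (strongTop n N r) _ _ hUo (KSG.isOpen_hypK hCI hNB hr q)
    · have : W = U := by
        rw [hWdef]
        ext G
        exact ⟨fun h => h.1, fun h => ⟨h, fun h' => absurd h' hne⟩⟩
      rw [this]
      exact hUo
  refine ⟨t, O', U, W, hUo, ⟨hFU₂, mem_iInter₂.2 fun x _ => hFU' x⟩, hWo, inter_subset_left,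
    ?_, ?_, htC, hO', ?_⟩
  · rintro V₀ hVU hV₀ ⟨G₀, hG₀⟩
    obtain ⟨G, hG, hGK⟩ := hHD n N r hr q hq1 G₀ V₀ hV₀ hG₀
    exact ⟨G, hG, hVU hG, fun _ => hGK⟩
  · intro hall
    rw [hWdef]
    ext G
    refine ⟨fun h => h.1, fun h => ⟨h, fun h' => ?_⟩⟩
    rw [hFl] at h'
    obtain ⟨x, hx, h1, h2⟩ := h'
    exact absurd (hall x hx) (fun h => h.elim h1 h2)
  rintro G ⟨⟨hG2, hG3⟩, hGK⟩
  refine ⟨h3 G.toHomeomorph (h4 G hG2), fun x hx => ?_⟩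
  obtain ⟨k1, k2⟩ := hG x (htC x hx) G (mem_iInter₂.1 hG3 x hx)
  refine ⟨k1, ?_⟩
  rcases k2 with k2 | ⟨k2, k3⟩ | k2
  · exact Or.inl k2
  · left
    have hK : HypK n q G := hGK (by rw [hFl]; exact ⟨x, htC x hx, k2⟩)
    have hfix : ∀ z ∈ CR (G : N → N) ∩ O' x, G^[q] z = z := by
      intro z hz
      obtain ⟨l, hl⟩ : q' x ∣ q := Finset.dvd_prod_of_mem q' hx
      rw [hl, Function.iterate_mul]
      exact Function.iterate_fixed (k3 z hz) l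
    obtain ⟨B', hB', hinc⟩ := hFM n N r hr G d e he hinj (fun _ => 0) continuous_const ∅
      isClosed_empty (fun x hx => absurd hx (notMem_empty x))
      (fun x hx => absurd hx (notMem_empty x)) (CR (G : N → N) ∩ O' x)
      ((Dif.finite_fix hr G hK).subset fun z hz => hfix z hz) (disjoint_bot_left)
      (fun z hz => k1.fwd z hz) (fun z hz => ⟨⟨q, hq1, hfix z hz⟩,
        Dif.hypAt_of_hypK hr G hq1 hK (hfix z hz)⟩)
    exact ⟨B', hB', fun z hz v hv => hinc z (Or.inr hz) v hv⟩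
  · exact Or.inr k2

end

end Pool.Agent.H247.VE.Cls
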