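import Pool.Agent.H247.VE.Cls

/-!
# Project VE: the class-wise version, conclusions for the nearby maps
-/

set_option autoImplicit false
set_option linter.unusedSectionVars false

open scoped Manifold ContDiff Topology
open Filter Set Metric MeasureTheory

universe u

namespace Pool.Agent.H247.VE.Cls

open Pool.Agent.H718R2.G Pool.Agent.TH80.OMS Pool.Agent.Y504.CO Pool.Agent.H247.CB
open Pool.Agent.R774.OS Pool.Agent.K7.H85.KH Pool.Agent.H247.VE Pool.Agent.H247.SD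
open Pool.Agent.Q182.MC (ChainTo cls cls_inv)
open Pool.Agent.H728R2.FA (omegaLim FiniteAttractors)
open Pool.Agent.H974.VE.AT (mem_CR_of_chain)

/-- orbits which end up in a set where the measure is expanded form a null set (from
`Pool/Agent/H974/VE/AT.lean`) -/
theorem null_of_expand {X : Type u} [MetricSpace X] [CompactSpace X] [MeasurableSpace X]
    [BorelSpace X] (μ : Measure X) [IsFiniteMeasure μ] (G : X ≃ₜ X)
    {V : Set X} (hV : IsOpen V) {m : ℕ} {lam : ℝ} (hlam : 1 < lam)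
    (hexp : ∀ B ⊆ V, MeasurableSet B → ENNReal.ofReal lam * μ B ≤ μ (G^[m] '' B))
    (hnull : ∀ B, MeasurableSet B → μ B = 0 → μ (G ⁻¹' B) = 0) :
    ∃ Z : Set X, μ Z = 0 ∧ ∀ p, omegaLim G p ⊆ V → p ∈ Z := by
  obtain ⟨A, hA⟩ : ∃ A : Set X, A = {x | ∀ n : ℕ, (G : X → X)^[n] x ∈ V} := ⟨_, rfl⟩
  have hGc : ∀ n : ℕ, Continuous ((G : X → X)^[n]) := fun n => G.continuous.iterate n
  have hAm : MeasurableSet A := by
    have e : A = ⋂ n : ℕ, (G : X → X)^[n] ⁻¹' V := by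
      rw [hA]
      ext x
      simp
    rw [e]
    exact MeasurableSet.iInter fun n => (hV.preimage (hGc n)).measurableSet
  have hAV : A ⊆ V := fun x hx => by
    rw [hA] at hx
    exact hx 0
  have hAi : (G : X → X)^[m] '' A ⊆ A := by
    rintro _ ⟨x, hx, rfl⟩
    rw [hA] at hx ⊢
    intro n
    rw [← Function.iterate_add_apply]
    exact hx (n + m)
  have hA0 : μ A = 0 := by
    have h1 : ENNReal.ofReal lam * μ A ≤ μ A := (hexp A hAV hAm).trans (measure_mono hAi)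
    have h2 : μ A ≠ ⊤ := measure_ne_top μ A
    have h3 := ENNReal.toReal_mono h2 h1
    rw [ENNReal.toReal_mul, ENNReal.toReal_ofReal (by linarith)] at h3
    have h4 : 0 ≤ (μ A).toReal := ENNReal.toReal_nonneg
    have h5 : (μ A).toReal = 0 := by nlinarith
    exact ((ENNReal.toReal_eq_zero_iff _).1 h5).resolve_right h2
  have hn : ∀ (n : ℕ) (B : Set X), MeasurableSet B → μ B = 0 →
      μ ((G : X → X)^[n] ⁻¹' B) = 0 := by
    intro n
    induction n with
    | zero => exact fun B _ h => h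
    | succ n ih =>
      intro B hB h
      have e : (G : X → X)^[n + 1] ⁻¹' B = G ⁻¹' ((G : X → X)^[n] ⁻¹' B) := by
        rw [Function.iterate_succ, Set.preimage_comp]
      rw [e]
      exact hnull _ ((hGc n).measurable hB) (ih B hB h)
  refine ⟨⋃ n : ℕ, (G : X → X)^[n] ⁻¹' A, measure_iUnion_null fun n => hn n A hAm hA0,
    fun p hsub => ?_⟩
  have hev : ∃ N : ℕ, ∀ n, N ≤ n → (G : X → X)^[n] p ∈ V := by
    by_contra hcon
    push Not at hcon
    obtain ⟨y, hyV, hyω⟩ := Pool.Agent.Y318.MH.exists_omegaLim G p Vᶜ hV.isClosed_compl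
      (fun N => by
        obtain ⟨n, hn, h⟩ := hcon N
        exact ⟨n, hn, h⟩)
    exact hyV (hsub hyω)
  obtain ⟨N, hN⟩ := hev
  refine mem_iUnion.2 ⟨N, ?_⟩
  change (G : X → X)^[N] p ∈ A
  rw [hA]
  intro n
  rw [← Function.iterate_add_apply]
  exact hN _ (by omega)

section

variable {n : ℕ} {N : Type u} [MetricSpace N] [CompactSpace N]
  [ChartedSpace (V n) N] [IsManifold (𝓡 n) ∞ N]

theorem spectral_piece (hCC2 : S_CC2.{u}) (hPD2 : S_PD2.{u}) (hPO2 : S_PO2.{u})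
    (hFC2 : S_FC2.{u}) (hTR2 : S_TR2.{u}) {r : ℕ∞} (hr : 1 ≤ r)
    (G : DiffM n N r) {d : ℕ} {e : N → V d}
    (he : ContMDiff (𝓡 n) (𝓡 d) ∞ e) (hei : Function.Injective e) {K : Set N}
    (hK : Iso G.toHomeomorph K) (hinc : Incr G e K) :
    {C | ∃ a ∈ K, C = cls (G : N → N) univ a}.Finite ∧
      (∀ a ∈ K, cls (G : N → N) univ a ⊆ K) ∧
      (∀ a ∈ K, IsClosed (cls (G : N → N) univ a)) ∧
      ∀ a ∈ K, ∃ x ∈ cls (G : N → N) univ a,
        cls (G : N → N) univ a ⊆ closure (range fun k : ℕ => G^[k] x) := by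
  obtain ⟨B, hB, hT⟩ := hinc
  have he1 : ContMDiff (𝓡 n) (𝓡 d) 1 e := he.of_le (by exact_mod_cast le_top)
  have hSh : Sh (G : N → N) K :=
    Pool.Agent.H342.SD.main n N r hr G d e B _ (hypSet he1 hB hK.cl hK.fwd hT)
  have hEx : Ex G.toHomeomorph K :=
    Pool.Agent.H370.SD.main N G.toHomeomorph d e he.continuous hei B hB K hK.cl
      hK.fwd hK.bwd fun x₀ hx₀ =>
        Pool.Agent.H585.SD.main n N r hr G d e he B hB x₀ (hT x₀ hx₀)
  exact Top.spectral hCC2 hPD2 hPO2 hFC2 hTR2 Pool.Agent.H289.SD.main G.toHomeomorph hK hSh hEx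

/-- the conclusion on the classes -/
theorem classesAE (hCC2 : S_CC2.{u}) (hPD2 : S_PD2.{u}) (hPO2 : S_PO2.{u})
    (hFC2 : S_FC2.{u}) (hTR2 : S_TR2.{u}) (hNP : S_NP.{u}) [MeasurableSpace N] [BorelSpace N]
    (μ : Measure N) [IsFiniteMeasure μ] (hμ : SmoothMeasure n μ) {r : ℕ∞} (hr : 1 ≤ r)
    (G : DiffM n N r) {d : ℕ} {e : N → V d}
    (he : ContMDiff (𝓡 n) (𝓡 d) ∞ e) (hei : Function.Injective e)
    {t : Finset N} {O' : N → Set N} (hO' : ∀ x, IsOpen (O' x))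
    (hcov : CR (G : N → N) ⊆ ⋃ x ∈ t, O' x)
    (hiso : ∀ x ∈ t, Iso G.toHomeomorph (CR (G : N → N) ∩ O' x))
    (hkind : ∀ x ∈ t, Incr G e (CR (G : N → N) ∩ O' x) ∨ Expn μ G (O' x)) :
    ∃ S : Set (Set N), ClassesAE μ (G : N → N) S ∧
      ((∀ x ∈ t, Incr G e (CR (G : N → N) ∩ O' x)) →
        ∀ p, ∃ C ∈ S, omegaLim (G : N → N) p ⊆ C) := by
  classical
  have hsp := fun x (hx : x ∈ t) (h : Incr G e (CR (G : N → N) ∩ O' x)) =>
    spectral_piece hCC2 hPD2 hPO2 hFC2 hTR2 hr G he hei (hiso x hx) h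
  have hsub : ∀ x ∈ t, ∀ a ∈ CR (G : N → N) ∩ O' x,
      cls (G : N → N) univ a ⊆ CR (G : N → N) ∩ O' x := by
    intro x hx a ha c hc
    obtain ⟨p, s, k, -, -, h3, -, -, h4⟩ :=
      hCC2 N G.toHomeomorph _ (hiso x hx) a ha c hc 1 one_pos
    rw [← h4]
    exact h3 k
  have hZ : ∀ x : N, ∃ Z : Set N, μ Z = 0 ∧ (x ∈ t → Expn μ G (O' x) →
      ∀ p, omegaLim (G : N → N) p ⊆ O' x → p ∈ Z) := by
    intro x
    by_cases hx : x ∈ t ∧ Expn μ G (O' x)
    · obtain ⟨m, lam, hlam, hex⟩ := hx.2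
      obtain ⟨Z, h1, h2⟩ := null_of_expand μ G.toHomeomorph (hO' x) hlam hex
        (fun B hB h0 => hNP n N μ r hr hμ G B hB h0)
      exact ⟨Z, h1, fun _ _ => h2⟩
    · exact ⟨∅, measure_empty, fun h1 h2 => absurd ⟨h1, h2⟩ hx⟩
  choose Z hZ0 hZp using hZ
  have key : ∀ p : N, (∃ x ∈ t, Incr G e (CR (G : N → N) ∩ O' x) ∧ ∃ a ∈ CR (G : N → N) ∩ O' x,
      omegaLim (G : N → N) p ⊆ cls (G : N → N) univ a) ∨
      (∃ x ∈ t, ¬ Incr G e (CR (G : N → N) ∩ O' x) ∧ p ∈ Z x) := by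
    intro p
    obtain ⟨a, -, ha⟩ := Pool.Agent.Y318.MH.exists_omegaLim G.toHomeomorph p univ isClosed_univ
      (fun N => ⟨N, le_rfl, trivial⟩)
    have hch : ∀ b ∈ omegaLim (G : N → N) p, ∀ c ∈ omegaLim (G : N → N) p,
        ChainTo (G : N → N) univ b c := fun b hb c hc =>
      Pool.Agent.Q182.MC.omega_chain G.toHomeomorph p (subset_univ _) hb hc
    have haC : a ∈ CR (G : N → N) := mem_CR_of_chain (hch a ha a ha)
    have hacls : omegaLim (G : N → N) p ⊆ cls (G : N → N) univ a := fun b hb =>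
      ⟨hch a ha b hb, hch b hb a ha⟩
    obtain ⟨x, hx, hax⟩ := mem_iUnion₂.1 (hcov haC)
    by_cases hI : Incr G e (CR (G : N → N) ∩ O' x)
    · exact Or.inl ⟨x, hx, hI, a, ⟨haC, hax⟩, hacls⟩
    · refine Or.inr ⟨x, hx, hI, hZp x hx ((hkind x hx).resolve_left hI) p ?_⟩
      exact hacls.trans ((hsub x hx a ⟨haC, hax⟩).trans inter_subset_right)
  refine ⟨{C | ∃ x ∈ t, Incr G e (CR (G : N → N) ∩ O' x) ∧ ∃ a ∈ CR (G : N → N) ∩ O' x,
    C = cls (G : N → N) univ a}, ⟨?_, ?_, ?_, ?_, ?_, ?_⟩, ?_⟩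
  · have e1 : {C | ∃ x ∈ t, Incr G e (CR (G : N → N) ∩ O' x) ∧ ∃ a ∈ CR (G : N → N) ∩ O' x,
        C = cls (G : N → N) univ a} ⊆ ⋃ x ∈ t.filter (fun x => Incr G e (CR (G : N → N) ∩ O' x)),
        {C | ∃ a ∈ CR (G : N → N) ∩ O' x, C = cls (G : N → N) univ a} := by
      rintro C ⟨x, hx, hI, hC⟩
      exact mem_iUnion₂.2 ⟨x, Finset.mem_filter.2 ⟨hx, hI⟩, hC⟩
    refine Set.Finite.subset ?_ e1
    refine Set.Finite.biUnion (Finset.finite_toSet _) fun x hx => ?_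
    obtain ⟨h1, h2⟩ := Finset.mem_filter.1 hx
    exact (hsp x h1 h2).1
  · rintro C ⟨-, -, -, a, -, rfl⟩ C' ⟨-, -, -, a', -, rfl⟩ hne
    rw [Set.disjoint_left]
    intro x hx hx'
    apply hne
    ext y
    exact ⟨fun hy => ⟨hx'.1.trans (hx.2.trans hy.1), hy.2.trans (hx.1.trans hx'.2)⟩,
      fun hy => ⟨hx.1.trans (hx'.2.trans hy.1), hy.2.trans (hx'.1.trans hx.2)⟩⟩
  · rintro C ⟨x, hx, hI, a, ha, rfl⟩
    exact (hsp x hx hI).2.2.1 a ha
  · rintro C ⟨x, hx, hI, a, ha, rfl⟩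
    exact Pool.Agent.Q182.MC.cls_inv (K := univ) G.toHomeomorph (fun _ _ => mem_univ _)
      (fun _ _ => mem_univ _) a
  · rintro C ⟨x, hx, hI, a, ha, rfl⟩
    exact (hsp x hx hI).2.2.2 a ha
  · refine measure_mono_null (t := ⋃ x ∈ t, Z x) (fun p hp => ?_) ?_
    · rcases key p with ⟨x, hx, hI, a, ha, h⟩ | ⟨x, hx, -, h⟩
      · exact absurd h (hp _ ⟨x, hx, hI, a, ha, rfl⟩)
      · exact mem_iUnion₂.2 ⟨x, hx, h⟩
    · exact (measure_biUnion_null_iff (I := (t : Set N)) t.countable_toSet).2 fun x _ => hZ0 x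
  · intro hall p
    rcases key p with ⟨x, hx, hI, a, ha, h⟩ | ⟨x, hx, h, -⟩
    · exact ⟨_, ⟨x, hx, hI, a, ha, rfl⟩, h⟩
    · exact absurd (hall x hx) h

/-- gluing two forms -/
theorem glue2 {r : ℕ∞} (G : DiffM n N r) {d : ℕ} {e : N → V d} {K₁ K₂ : Set N}
    (h1 : IsClosed K₁) (h2 : IsClosed K₂) (h12 : Disjoint K₁ K₂) (hf1 : ∀ x ∈ K₁, G x ∈ K₁)
    (hf2 : ∀ x ∈ K₂, G x ∈ K₂) (hI1 : Incr G e K₁) (hI2 : Incr G e K₂) :
    Incr G e (K₁ ∪ K₂) := by
  obtain ⟨B₁, hB₁, hi1⟩ := hI1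
  obtain ⟨B₂, hB₂, hi2⟩ := hI2
  obtain ⟨φ, hφ1, hφ2, -⟩ := exists_continuous_zero_one_of_isClosed h1 h2 h12
  refine ⟨fun x => (1 - φ x) • B₁ x + φ x • B₂ x, ?_, ?_⟩
  · refine continuous_clm_apply.2 fun u => continuous_clm_apply.2 fun w => ?_
    have b1 : Continuous fun x => B₁ x u w :=
      (hB₁.clm_apply continuous_const).clm_apply continuous_const
    have b2 : Continuous fun x => B₂ x u w :=
      (hB₂.clm_apply continuous_const).clm_apply continuous_const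
    have b3 : Continuous fun x => φ x := φ.continuous
    simp only [_root_.add_apply, _root_.smul_apply, smul_eq_mul]
    exact ((continuous_const.sub b3).mul b1).add (b3.mul b2)
  have e1 : ∀ x ∈ K₁, ∀ v : V n, qform e (fun x => (1 - φ x) • B₁ x + φ x • B₂ x) x v =
      qform e B₁ x v := by
    intro x hx v
    have h3 : φ x = 0 := hφ1 hx
    unfold qform
    simp [h3]
  have e2 : ∀ x ∈ K₂, ∀ v : V n, qform e (fun x => (1 - φ x) • B₁ x + φ x • B₂ x) x v =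
      qform e B₂ x v := by
    intro x hx v
    have h3 : φ x = 1 := hφ2 hx
    unfold qform
    simp [h3]
  rintro x (hx | hx) v hv
  · rw [e1 x hx, e1 _ (hf1 x hx)]
    exact hi1 x hx v hv
  · rw [e2 x hx, e2 _ (hf2 x hx)]
    exact hi2 x hx v hv

theorem incr_all {r : ℕ∞} (G : DiffM n N r) {d : ℕ} {e : N → V d}
    {t : Finset N} {O' : N → Set N} (hcov : CR (G : N → N) ⊆ ⋃ x ∈ t, O' x)
    (hiso : ∀ x ∈ t, Iso G.toHomeomorph (CR (G : N → N) ∩ O' x))
    (hI : ∀ x ∈ t, Incr G e (CR (G : N → N) ∩ O' x)) : Incr G e (CR (G : N → N)) := by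
  classical
  have key : ∀ s : Finset N, s ⊆ t → IsClosed (⋃ x ∈ s, CR (G : N → N) ∩ O' x) ∧
      IsClosed (CR (G : N → N) \ ⋃ x ∈ s, CR (G : N → N) ∩ O' x) ∧
      (∀ y ∈ ⋃ x ∈ s, CR (G : N → N) ∩ O' x, G y ∈ ⋃ x ∈ s, CR (G : N → N) ∩ O' x) ∧
      (∀ y ∈ ⋃ x ∈ s, CR (G : N → N) ∩ O' x, G.symm y ∈ ⋃ x ∈ s, CR (G : N → N) ∩ O' x) ∧
      Incr G e (⋃ x ∈ s, CR (G : N → N) ∩ O' x) := by
    intro s
    induction s using Finset.induction_on with
    | empty =>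
      intro _
      simp only [Finset.notMem_empty, iUnion_of_empty, iUnion_empty, sdiff_empty]
      exact ⟨isClosed_empty, isClosed_CR G.continuous, fun y hy => absurd hy (notMem_empty y),
        fun y hy => absurd hy (notMem_empty y), fun _ => 0, continuous_const,
        fun y hy => absurd hy (notMem_empty y)⟩
    | insert x s hxs ih =>
      intro hst
      obtain ⟨i1, i2, i3, i4, i5⟩ := ih ((Finset.subset_insert x s).trans hst)
      have hxt : x ∈ t := hst (Finset.mem_insert_self x s)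
      have k := hiso x hxt
      rw [Finset.set_biUnion_insert]
      set A : Set N := ⋃ x ∈ s, CR (G : N → N) ∩ O' x with hA
      have kf : ∀ y ∈ CR (G : N → N) ∩ O' x, G y ∈ CR (G : N → N) ∩ O' x := k.fwd
      have kb : ∀ y ∈ CR (G : N → N) ∩ O' x, G.symm y ∈ CR (G : N → N) ∩ O' x := k.bwd
      have kc : IsClosed (CR (G : N → N) \ (CR (G : N → N) ∩ O' x)) := k.cl'
      have c1 : IsClosed ((CR (G : N → N) ∩ O' x) ∩ (CR (G : N → N) \ A)) := k.cl.inter i2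
      have c2 : Disjoint A ((CR (G : N → N) ∩ O' x) ∩ (CR (G : N → N) \ A)) := by
        rw [Set.disjoint_left]
        exact fun y hy hy' => hy'.2.2 hy
      have c3 : ∀ y ∈ (CR (G : N → N) ∩ O' x) ∩ (CR (G : N → N) \ A),
          G y ∈ (CR (G : N → N) ∩ O' x) ∩ (CR (G : N → N) \ A) := by
        rintro y ⟨hy1, hy2⟩
        refine ⟨kf y hy1, (kf y hy1).1, fun hcon => hy2.2 ?_⟩
        have := i4 _ hcon
        rwa [G.symm_apply_apply] at this
      have c4 : Incr G e ((CR (G : N → N) ∩ O' x) ∩ (CR (G : N → N) \ A)) := by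
        obtain ⟨B, hB, hinc⟩ := hI x hxt
        exact ⟨B, hB, fun y hy v hv => hinc y hy.1 v hv⟩
      have c5 := glue2 G i1 c1 c2 i3 c3 i5 c4
      have e1 : A ∪ ((CR (G : N → N) ∩ O' x) ∩ (CR (G : N → N) \ A)) =
          (CR (G : N → N) ∩ O' x) ∪ A := by
        ext y
        constructor
        · rintro (h | h)
          · exact Or.inr h
          · exact Or.inl h.1
        · rintro (h | h)
          · by_cases hyA : y ∈ A
            · exact Or.inl hyA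
            · exact Or.inr ⟨h, h.1, hyA⟩
          · exact Or.inl h
      rw [e1] at c5
      refine ⟨k.cl.union i1, ?_, ?_, ?_, c5⟩
      · have e2 : CR (G : N → N) \ ((CR (G : N → N) ∩ O' x) ∪ A) =
            (CR (G : N → N) \ (CR (G : N → N) ∩ O' x)) ∩ (CR (G : N → N) \ A) := by
          ext y
          simp only [Set.mem_sdiff, mem_union, mem_inter_iff]
          tauto
        rw [e2]
        exact kc.inter i2
      · rintro y (h | h)
        · exact Or.inl (kf y h)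
        · exact Or.inr (i3 y h)
      · rintro y (h | h)
        · exact Or.inl (kb y h)
        · exact Or.inr (i4 y h)
  obtain ⟨-, -, -, -, B, hB, hinc⟩ := key t le_rfl
  refine ⟨B, hB, fun y hy v hv => hinc y ?_ v hv⟩
  obtain ⟨x, hx, hyx⟩ := mem_iUnion₂.1 (hcov hy)
  exact mem_iUnion₂.2 ⟨x, hx, hy, hyx⟩

/-- Axiom A from the form -/
theorem axiomA_of_incr {r : ℕ∞} (hr : 1 ≤ r) (G : DiffM n N r) {d : ℕ} {e : N → V d}
    (he : ContMDiff (𝓡 n) (𝓡 d) ∞ e) (hinj : ∀ x, Function.Injective (DE n e x))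
    (hI : Incr G e (CR (G : N → N))) : Pool.Agent.K7.H85.KH.AxiomANoCycles G := by
  obtain ⟨B', hB', hT⟩ := hI
  have he1 : ContMDiff (𝓡 n) (𝓡 d) 1 e := he.of_le (by exact_mod_cast le_top)
  obtain ⟨m1, m2⟩ := cr_eq hr he1 hB' hT
  have D : Dat n G (NW (G : N → N)) e B' :=
    { he := he
      inj := hinj
      hB := hB'
      cl := by rw [← m1]; exact isClosed_CR G.continuous
      fwd := by rw [← m1]; exact fun x hx => cr_fwd G.continuous hx
      bwd := by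
        rw [← m1]
        exact fun x hx => cr_bwd G.continuous G.symm.continuous
          (fun y => G.symm_apply_apply y) hx
      incr := by rw [← m1]; exact hT
      per := by
        rintro x ⟨k, hk, hx⟩ W hW
        exact ⟨k, hk, x, ⟨x, mem_of_mem_nhds hW, hx⟩, mem_of_mem_nhds hW⟩
      dense := m2 }
  refine ⟨hyperbolic hr D, m2, fun x hx => ?_⟩
  rw [← m1]
  exact hx

end

end Pool.Agent.H247.VE.Cls
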