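import Pool.Agent.H247.VE.RelDefs
import Pool.Agent.H247.VE.Cls2
import Pool.Agent.H399.VE.EPS
import Pool.Agent.H14.VE.ORB

/-!
# Project VE: the class-wise version, final form
-/

set_option autoImplicit false
set_option linter.unusedSectionVars false

open scoped Manifold ContDiff Topology
open Filter Set Metric MeasureTheory

universe u

namespace Pool.Agent.H247.VE

open Pool.Agent.H718R2.G Pool.Agent.K7.H85.KHS Pool.Agent.H247.CB
open Pool.Agent.R774.OS (CR)
open Pool.Agent.K7.H85.KH (DE DN qform rep_form diff_md)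
open Pool.Agent.Q182.MC (ChainTo cls cls_inv chainTo_iff)
open Pool.Agent.H728R2.FA (omegaLim FiniteAttractors)

section metric

variable {n : ℕ} {N : Type u} [MetricSpace N] [CompactSpace N]
  [ChartedSpace (V n) N] [IsManifold (𝓡 n) ∞ N]

theorem self_mem_cls {r : ℕ∞} {F : DiffM n N r} {x : N} (hx : x ∈ CR (F : N → N)) :
    x ∈ cls (F : N → N) univ x := by
  have h : ChainTo (F : N → N) univ x x :=
    chainTo_iff.2 fun ε hε => Pool.Agent.H399.VE.cr_trans hx hε
  exact ⟨h, h⟩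

theorem iter_mem_cls {r : ℕ∞} {F : DiffM n N r} {x : N} (hx : x ∈ CR (F : N → N)) (i : ℕ) :
    F^[i] x ∈ cls (F : N → N) univ x := by
  have h1 : (F.toHomeomorph : N → N) '' cls (F.toHomeomorph : N → N) univ x =
      cls (F.toHomeomorph : N → N) univ x :=
    cls_inv (K := univ) F.toHomeomorph (fun _ _ => mem_univ _) (fun _ _ => mem_univ _) x
  induction i with
  | zero => exact self_mem_cls hx
  | succ i ih =>
    rw [Function.iterate_succ_apply']
    have h2 : F (F^[i] x) ∈ (F.toHomeomorph : N → N) '' cls (F.toHomeomorph : N → N) univ x :=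
      ⟨_, ih, rfl⟩
    rw [h1] at h2
    exact h2

theorem tyL {r : ℕ∞} (hr : 1 ≤ r) {F : DiffM n N r} {d : ℕ} {e : N → V d}
    (he : ContMDiff (𝓡 n) (𝓡 d) ∞ e) (hinj : ∀ x, Function.Injective (DE n e x)) {x : N}
    (h : FormIncreases F (chainClass F x)) : Cls.TyL F e x := by
  have he1 : ContMDiff (𝓡 n) (𝓡 d) 1 e := he.of_le (by exact_mod_cast le_top)
  obtain ⟨Q, hQ, hI⟩ := h
  obtain ⟨m', e₀, B₀, he₀, hB₀, hq⟩ := (form_iff Q).1 hQ
  obtain ⟨B, hB, hBe⟩ := rep_form he1 hinj he₀ hB₀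
  have hq2 : ∀ x v, qform e B x v = Q x v := fun x v => (hBe x v v).trans (hq x v).symm
  refine ⟨B, hB, fun y hy v hv => ?_⟩
  rw [hq2, hq2]
  have h1 := hI y hy v hv
  rw [dN_eq (diff_md hr F y)] at h1
  exact h1

theorem tyE {r : ℕ∞} {F : DiffM n N r} {x : N} (hx : x ∈ CR (F : N → N))
    (h : OneNeutralOrbit F (chainClass F x)) : Cls.TyE F x := by
  obtain ⟨m, hm, h1, h2⟩ := h
  exact ⟨m, hm, (h1 x (self_mem_cls hx)).1, fun y hy => h2 x (self_mem_cls hx) y hy,
    fun i => ⟨chartAt (V n) (F^[i] x),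
      IsManifold.chart_mem_maximalAtlas (I := 𝓡 n) (n := ∞) (F^[i] x),
      mem_chart_source (V n) (F^[i] x), (h1 _ (iter_mem_cls hx i)).2⟩⟩

end metric

section final

variable {n : ℕ} {N : Type u} [TopologicalSpace N] [ChartedSpace (V n) N]

theorem final_classwise
    [T2Space N] [CompactSpace N] [IsManifold (𝓡 n) ∞ N] [MeasurableSpace N] [BorelSpace N]
    (μ : Measure N) [IsFiniteMeasure μ] (hμ : SmoothMeasure n μ) {r : ℕ∞} (hr : 1 ≤ r)
    (F : DiffM n N r) (L E D : Set N) (H : ClasswiseCR μ F L E D) :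
    ∃ U W : Set (DiffM n N r), IsOpen[strongTop n N r] U ∧ F ∈ U ∧ IsOpen[strongTop n N r] W ∧
      W ⊆ U ∧ (∀ U' ⊆ U, IsOpen[strongTop n N r] U' → U'.Nonempty → (U' ∩ W).Nonempty) ∧
      (E = ∅ → W = U) ∧ ∀ G ∈ W, FiniteAttractors μ (G : N → N) ∧
        ∃ S : Set (Set N), ClassesAE μ (G : N → N) S ∧
          (D = ∅ → ∀ p, ∃ C ∈ S, omegaLim (G : N → N) p ⊆ C) := by
  have : SecondCountableTopology N := ChartedSpace.secondCountable_of_sigmaCompact (V n) N
  let _ : MetricSpace N := TopologicalSpace.metrizableSpaceMetric N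
  obtain ⟨d, e, he, he', hinj'⟩ := exists_embedding_euclidean_of_compact (I := 𝓡 n) (M := N)
  have hinj : ∀ x, Function.Injective (DE n e x) := fun x => hinj' x
  have htyL : ∀ x ∈ L, Cls.TyL F e x := fun x hx => tyL hr he hinj (H.form x hx)
  have hun : ∀ x ∈ CR (F : N → N), (x ∈ L ∨ x ∈ E) ∨ x ∈ D := fun x hx => H.union x hx
  obtain ⟨t, O', U, W, h1, h2, h3, h4, h5, h6, -, h8, h9⟩ := Cls.cover
    (Pool.Agent.H484.CB.LOC.main Pool.Agent.H407.CB.LA.main Pool.Agent.H457.CB.CN.main)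
    (Pool.Agent.H984.CB.SEP.main CB.Top.usc) Pool.Agent.H105.CBIT.main
    Pool.Agent.H747.CBPI.main CB.Top.usc
    (Pool.Agent.H353.CB.main Pool.Agent.H179.CB.QF.main)
    Pool.Agent.Y504.CO.DicF.hNB Pool.Agent.Y504.CO.DicF.hHD Pool.Agent.Y504.CO.DicF.hCI
    Pool.Agent.H399.VE.main Pool.Agent.H14.VE.ORB.main cc2 Pool.Agent.H260.VE.main μ hr F he hinj
    (TyD := fun x => x ∈ D) (fun x hx => H.expanding x hx) (fun x hx => by
      rcases hun x hx with (h | h) | h
      · exact Or.inl (htyL x h)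
      · exact Or.inr (Or.inl (tyE hx (H.neutral x h)))
      · exact Or.inr (Or.inr h))
  refine ⟨U, W, h1, h2, h3, h4, h5, fun hE => h6 fun x hx => ?_, fun G hG => ?_⟩
  · rcases hun x hx with (h | h) | h
    · exact Or.inl (htyL x h)
    · rw [hE] at h
      exact absurd h (notMem_empty x)
    · exact Or.inr h
  · obtain ⟨k1, k2⟩ := h9 G hG
    obtain ⟨S, hS, hS'⟩ := Cls.classesAE cc2 (Pool.Agent.H887.VEPD2.main cc2)
      Pool.Agent.H363.VE.main Pool.Agent.H130.VE.main (Pool.Agent.H825.VETR2.main cc2)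
      Pool.Agent.H638.VE.NP.main μ hμ hr G he he'.injective h8 k1 (fun x hx => (k2 x hx).1)
      (fun x hx => (k2 x hx).2.imp_right fun h => h.2)
    refine ⟨attractors_of_classes hS, S, hS, fun hD => hS' fun x hx => ?_⟩
    rcases (k2 x hx).2 with h | ⟨⟨-, h⟩, -⟩
    · exact h
    · rw [hD] at h
      exact absurd h (notMem_empty x)

theorem final_axiomA
    [T2Space N] [CompactSpace N] [IsManifold (𝓡 n) ∞ N] {r : ℕ∞} (hr : 1 ≤ r)
    (F : DiffM n N r) (H : ∀ x, ChainRecurrent F Set.univ x →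
      FormIncreases F (chainClass F x) ∨ OneNeutralOrbit F (chainClass F x)) :
    ∃ U W : Set (DiffM n N r), IsOpen[strongTop n N r] U ∧ F ∈ U ∧ IsOpen[strongTop n N r] W ∧
      W ⊆ U ∧ (∀ U' ⊆ U, IsOpen[strongTop n N r] U' → U'.Nonempty → (U' ∩ W).Nonempty) ∧
      ((∀ x, ChainRecurrent F Set.univ x → FormIncreases F (chainClass F x)) → W = U) ∧
      ∀ G ∈ W, AxiomA G := by
  have : SecondCountableTopology N := ChartedSpace.secondCountable_of_sigmaCompact (V n) N
  let _ : MetricSpace N := TopologicalSpace.metrizableSpaceMetric N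
  let _ : MeasurableSpace N := borel N
  have _ : BorelSpace N := ⟨rfl⟩
  obtain ⟨d, e, he, he', hinj'⟩ := exists_embedding_euclidean_of_compact (I := 𝓡 n) (M := N)
  have hinj : ∀ x, Function.Injective (DE n e x) := fun x => hinj' x
  obtain ⟨t, O', U, W, h1, h2, h3, h4, h5, h6, -, h8, h9⟩ := Cls.cover
    (Pool.Agent.H484.CB.LOC.main Pool.Agent.H407.CB.LA.main Pool.Agent.H457.CB.CN.main)
    (Pool.Agent.H984.CB.SEP.main CB.Top.usc) Pool.Agent.H105.CBIT.main
    Pool.Agent.H747.CBPI.main CB.Top.usc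
    (Pool.Agent.H353.CB.main Pool.Agent.H179.CB.QF.main)
    Pool.Agent.Y504.CO.DicF.hNB Pool.Agent.Y504.CO.DicF.hHD Pool.Agent.Y504.CO.DicF.hCI
    Pool.Agent.H399.VE.main Pool.Agent.H14.VE.ORB.main cc2 Pool.Agent.H260.VE.main
    (0 : Measure N) hr F he hinj
    (TyD := fun _ => False) (fun x hx => hx.elim) (fun x hx => by
      rcases H x hx with h | h
      · exact Or.inl (tyL hr he hinj h)
      · exact Or.inr (Or.inl (tyE hx h)))
  refine ⟨U, W, h1, h2, h3, h4, h5, fun h => h6 fun x hx => Or.inl (tyL hr he hinj (h x hx)),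
    fun G hG => ?_⟩
  obtain ⟨k1, k2⟩ := h9 G hG
  refine axiomA_of hr (Cls.axiomA_of_incr hr G he hinj
    (Cls.incr_all G k1 (fun x hx => (k2 x hx).1) fun x hx => ?_))
  rcases (k2 x hx).2 with h | ⟨⟨-, h⟩, -⟩
  · exact h
  · exact h.elim

end final

end Pool.Agent.H247.VE
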