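import Pool.Agent.H247.VE.Stm
import Pool.Agent.H247.CB.Main

/-!
# Project VE: the perturbation, relative to a part of the chain recurrent set
-/

set_option autoImplicit false
set_option linter.unusedSectionVars false

open scoped Manifold ContDiff Topology
open Filter Set Metric

universe u

namespace Pool.Agent.H247.VE.Main

open Pool.Agent.H718R2.G Pool.Agent.TH80.OMS Pool.Agent.Y504.CO Pool.Agent.H247.CB
open Pool.Agent.R774.OS Pool.Agent.K7.H85.KH Pool.Agent.H247.VE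

section

variable {n : ℕ} {N : Type u} [MetricSpace N] [CompactSpace N]
  [ChartedSpace (V n) N] [IsManifold (𝓡 n) ∞ N]

/-- an invariant part is backward invariant, if the rest is forward invariant -/
theorem back {F : N ≃ₜ N} {A : Set N} (hAC : A ⊆ CR (F : N → N))
    (hrest : ∀ x ∈ CR (F : N → N) \ A, F x ∈ CR (F : N → N) \ A) :
    ∀ x ∈ A, F.symm x ∈ A := by
  intro x hx
  by_contra hcon
  have h1 : F.symm x ∈ CR (F : N → N) :=
    cr_bwd F.continuous F.symm.continuous (fun y => F.symm_apply_apply y) (hAC hx)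
  have h2 := hrest _ ⟨h1, hcon⟩
  rw [F.apply_symm_apply] at h2
  exact h2.2 hx

theorem main_rel (hLOC : S_LOC.{u}) (hZD : S_ZD.{u}) (hSEP : S_SEP.{u}) (hIT : S_IT.{u})
    (hUSC : S_USC.{u}) (hPI : S_PI.{u}) (hFM : S_FM.{u})
    (hCI : S_CI.{u}) (hNB : S_NB.{u}) (hHD : S_HD.{u}) {r : ℕ∞} (hr : 1 ≤ r) (F : DiffM n N r)
    {d : ℕ} {e : N → V d} (he : ContMDiff (𝓡 n) (𝓡 d) ∞ e)
    (hinj : ∀ x, Function.Injective (DE n e x)) {B : N → V d →L[ℝ] V d →L[ℝ] ℝ}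
    (hB : Continuous B) {L E D : Set N} (hL : IsClosed L) (hE : IsClosed E) (hD : IsClosed D)
    (hun : CR (F : N → N) = L ∪ E ∪ D) (hLE : Disjoint L E) (hLD : Disjoint L D)
    (hED : Disjoint E D)
    (hEt : IsTotallyDisconnected E) (hLF : ∀ x ∈ L, F x ∈ L) (hEF : ∀ x ∈ E, F x ∈ E)
    (hDF : ∀ x ∈ D, F x ∈ D)
    (hincr : ∀ x ∈ L, ∀ v : V n, v ≠ 0 → qform e B x v < qform e B (F x) (DN n F x v))
    (hper : ∀ x ∈ E, ∃ m : ℕ, 1 ≤ m ∧ F^[m] x = x ∧ ∃ ψ ∈ IsManifold.maximalAtlas (𝓡 n) ∞ N,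
      x ∈ ψ.source ∧ AtMostOne (fderiv ℝ (fun v => ψ (F^[m] (ψ.symm v))) (ψ x)))
    {V' : Set N} (hV' : IsOpen V') (hDV' : D ⊆ V') :
    ∃ U W : Set (DiffM n N r), IsOpen[strongTop n N r] U ∧ F ∈ U ∧ IsOpen[strongTop n N r] W ∧
      W ⊆ U ∧ (∀ U' ⊆ U, IsOpen[strongTop n N r] U' → U'.Nonempty → (U' ∩ W).Nonempty) ∧
      (E = ∅ → W = U) ∧
      ∀ G ∈ W, ∃ K : Set N, Iso G.toHomeomorph K ∧ CR (G : N → N) \ K ⊆ V' ∧
        ∃ B' : N → V d →L[ℝ] V d →L[ℝ] ℝ, Continuous B' ∧ ∀ x ∈ K, ∀ v : V n, v ≠ 0 →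
          qform e B' x v < qform e B' (G x) (DN n G x v) := by
  classical
  have hLC : L ⊆ CR (F : N → N) := by rw [hun]; exact fun x hx => Or.inl (Or.inl hx)
  have hEC : E ⊆ CR (F : N → N) := by rw [hun]; exact fun x hx => Or.inl (Or.inr hx)
  have hDC : D ⊆ CR (F : N → N) := by rw [hun]; exact fun x hx => Or.inr hx
  have dLE : ∀ x, x ∈ L → x ∈ E → False := fun x h1 h2 => Set.disjoint_left.1 hLE h1 h2
  have dLD : ∀ x, x ∈ L → x ∈ D → False := fun x h1 h2 => Set.disjoint_left.1 hLD h1 h2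
  have dED : ∀ x, x ∈ E → x ∈ D → False := fun x h1 h2 => Set.disjoint_left.1 hED h1 h2
  have cL : CR (F : N → N) \ L = E ∪ D := by
    rw [hun]
    ext x
    simp only [Set.mem_sdiff, mem_union]
    constructor
    · rintro ⟨(h | h) | h, h'⟩
      · exact absurd h h'
      · exact Or.inl h
      · exact Or.inr h
    · rintro (h | h)
      · exact ⟨Or.inl (Or.inr h), fun h' => dLE x h' h⟩
      · exact ⟨Or.inr h, fun h' => dLD x h' h⟩
  have cE : CR (F : N → N) \ E = L ∪ D := by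
    rw [hun]
    ext x
    simp only [Set.mem_sdiff, mem_union]
    constructor
    · rintro ⟨(h | h) | h, h'⟩
      · exact Or.inl h
      · exact absurd h h'
      · exact Or.inr h
    · rintro (h | h)
      · exact ⟨Or.inl (Or.inl h), fun h' => dLE x h h'⟩
      · exact ⟨Or.inr h, fun h' => dED x h' h⟩
  have cD : CR (F : N → N) \ D = L ∪ E := by
    rw [hun]
    ext x
    simp only [Set.mem_sdiff, mem_union]
    constructor
    · rintro ⟨(h | h) | h, h'⟩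
      · exact Or.inl h
      · exact Or.inr h
      · exact absurd h h'
    · rintro (h | h)
      · exact ⟨Or.inl (Or.inl h), fun h' => dLD x h h'⟩
      · exact ⟨Or.inl (Or.inr h), fun h' => dED x h h'⟩
  have hper' : ∀ x ∈ E, ∃ m : ℕ, 1 ≤ m ∧ F^[m] x = x := fun x hx => by
    obtain ⟨m, hm, hxm, -⟩ := hper x hx
    exact ⟨m, hm, hxm⟩
  obtain ⟨A₁, A₂, hA₁, hA₂, hLA, hDA, hAA⟩ := normal_separation hL hD hLD
  -- the hyperbolic part
  obtain ⟨O, U₁, hO, hLO, hU₁, hFU₁, h1⟩ := hPI n N r hr F d e he B hB _ hL hincr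
  obtain ⟨O₁, hO₁, hLO₁, hO₁O, ε₁, hε₁, h2⟩ := hSEP N F.toHomeomorph 1 le_rfl L hLC hL
    (by
      have : IsClosed (CR (F : N → N) \ L) := by rw [cL]; exact hE.union hD
      exact this)
    (fun x hx => hLF x hx)
    (fun x hx => by
      have hx' : x ∈ CR (F : N → N) \ L := hx
      show F x ∈ CR (F : N → N) \ L
      rw [cL] at hx' ⊢
      exact hx'.imp (hEF x) (hDF x)) (O ∩ A₁) (hO.inter hA₁) (subset_inter hLO hLA)
  -- the expanding part
  obtain ⟨O₂, hO₂, hDO₂, hO₂V, ε₂, hε₂, h2'⟩ := hSEP N F.toHomeomorph 1 le_rfl D hDC hD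
    (by
      have : IsClosed (CR (F : N → N) \ D) := by rw [cD]; exact hL.union hE
      exact this)
    (fun x hx => hDF x hx)
    (fun x hx => by
      have hx' : x ∈ CR (F : N → N) \ D := hx
      show F x ∈ CR (F : N → N) \ D
      rw [cD] at hx' ⊢
      exact hx'.imp (hLF x) (hEF x)) (V' ∩ A₂) (hV'.inter hA₂) (subset_inter hDV' hDA)
  -- the exceptional part
  have hp : ∀ x : N, ∃ (m : ℕ) (O' : Set N) (U : Set (DiffM n N r)), 1 ≤ m ∧ IsOpen O' ∧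
      (x ∈ E → x ∈ O') ∧ IsOpen[strongTop n N r] U ∧ F ∈ U ∧
      (x ∈ E → ∀ G ∈ U, ∀ z ∈ CR (G : N → N) ∩ O', G^[2 * m] z = z) := by
    intro x
    by_cases hx : x ∈ E
    · obtain ⟨m, hm, hxm, hψ⟩ := hper x hx
      obtain ⟨O', U, a1, a2, a3, a4, a5⟩ := CB.Main.piece hLOC hZD hSEP hIT hCI hr F hE hEt hEF
        hEC (by rw [cE]; exact hL.union hD) hper' hx hm hxm hψ
      exact ⟨m, O', U, hm, a1, fun _ => a2, a3, a4, fun _ => a5⟩
    · exact ⟨1, univ, univ, le_rfl, isOpen_univ, fun h => absurd h hx,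
        @isOpen_univ _ (strongTop n N r), mem_univ _, fun h => absurd h hx⟩
  choose m O' U' hm1 hO' hxO' hU' hFU' hfix using hp
  obtain ⟨t, htE, ht⟩ := hE.isCompact.elim_nhds_subcover O' fun x hx =>
    (hO' x).mem_nhds (hxO' x hx)
  obtain ⟨ε₃, hε₃, h3⟩ := hUSC N F.toHomeomorph ((O₁ ∪ O₂) ∪ ⋃ x ∈ t, O' x)
    ((hO₁.union hO₂).union (isOpen_biUnion fun x _ => hO' x)) (by
      intro x hx
      have hx' : x ∈ CR (F : N → N) := hx
      rw [hun] at hx'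
      rcases hx' with (h | h) | h
      · exact Or.inl (Or.inl (hLO₁ h))
      · exact Or.inr (ht h)
      · exact Or.inl (Or.inr (hDO₂ h)))
  obtain ⟨U₂, hU₂, hFU₂, h4⟩ := Dif.close hCI hr F (lt_min hε₁ (lt_min hε₂ hε₃))
  set q : ℕ := t.prod fun x => 2 * m x with hq
  have hq1 : 1 ≤ q := by
    rw [hq]
    exact Nat.one_le_iff_ne_zero.2 (Finset.prod_ne_zero_iff.2 fun x _ => by
      have := hm1 x
      omega)
  set U : Set (DiffM n N r) := (U₁ ∩ U₂) ∩ ⋂ x ∈ t, U' x with hUdef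
  have hUo : IsOpen[strongTop n N r] U := @IsOpen.inter _ (strongTop n N r) _ _
    (@IsOpen.inter _ (strongTop n N r) _ _ hU₁ hU₂)
    (@isOpen_biInter_finset _ _ (strongTop n N r) t U' fun x _ => hU' x)
  set W : Set (DiffM n N r) := U ∩ {G | E.Nonempty → HypK n q G} with hWdef
  have hWo : IsOpen[strongTop n N r] W := by
    by_cases hne : E.Nonempty
    · have : W = U ∩ {G | HypK n q G} := by
        rw [hWdef]
        ext G
        exact ⟨fun h => ⟨h.1, h.2 hne⟩, fun h => ⟨h.1, fun _ => h.2⟩⟩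
      rw [this]
      exact @IsOpen.inter _ (strongTop n N r) _ _ hUo (KSG.isOpen_hypK hCI hNB hr q)
    · have : W = U := by
        rw [hWdef]
        ext G
        exact ⟨fun h => h.1, fun h => ⟨h, fun h' => absurd h' hne⟩⟩
      rw [this]
      exact hUo
  refine ⟨U, W, hUo, ⟨⟨hFU₁, hFU₂⟩, mem_iInter₂.2 fun x _ => hFU' x⟩, hWo, inter_subset_left,
    ?_, ?_, ?_⟩
  · rintro V₀ hVU hV₀ ⟨G₀, hG₀⟩
    obtain ⟨G, hG, hGK⟩ := hHD n N r hr q hq1 G₀ V₀ hV₀ hG₀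
    exact ⟨G, hG, hVU hG, fun _ => hGK⟩
  · intro hE0
    rw [hWdef]
    ext G
    refine ⟨fun h => h.1, fun h => ⟨h, fun h' => ?_⟩⟩
    rw [hE0] at h'
    exact absurd h' not_nonempty_empty
  rintro G ⟨⟨⟨hG1, hG2⟩, hG3⟩, hGK⟩
  have hclose := h4 G hG2
  obtain ⟨k1, -, k3⟩ := h2 G.toHomeomorph fun x => (hclose x).trans_le (min_le_left _ _)
  obtain ⟨l1, l2, l3⟩ := h2' G.toHomeomorph fun x =>
    (hclose x).trans_le ((min_le_right _ _).trans (min_le_left _ _))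
  have k4 := h3 G.toHomeomorph fun x =>
    (hclose x).trans_le ((min_le_right _ _).trans (min_le_right _ _))
  have k1' : IsClosed (CR (G : N → N) ∩ O₁) := k1
  have k3' : ∀ x ∈ CR (G : N → N) ∩ O₁, G x ∈ CR (G : N → N) ∩ O₁ ∧
      G.symm x ∈ CR (G : N → N) ∩ O₁ := k3
  have l1' : IsClosed (CR (G : N → N) ∩ O₂) := l1
  have l2' : IsClosed (CR (G : N → N) \ O₂) := l2
  have l3' : ∀ x ∈ CR (G : N → N) ∩ O₂, G x ∈ CR (G : N → N) ∩ O₂ ∧
      G.symm x ∈ CR (G : N → N) ∩ O₂ := l3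
  have k4' : CR (G : N → N) ⊆ (O₁ ∪ O₂) ∪ ⋃ x ∈ t, O' x := k4
  have hPfix : ∀ z ∈ CR (G : N → N) \ (O₁ ∪ O₂), E.Nonempty ∧ G^[q] z = z := by
    rintro z ⟨hz1, hz2⟩
    rcases k4' hz1 with h | h
    · exact absurd h hz2
    · obtain ⟨x, hxt, hzx⟩ := mem_iUnion₂.1 h
      have h5 := hfix x (htE x hxt) G (mem_iInter₂.1 hG3 x hxt) z ⟨hz1, hzx⟩
      obtain ⟨l, hl⟩ : 2 * m x ∣ q := Finset.dvd_prod_of_mem (fun x => 2 * m x) hxt
      refine ⟨⟨x, htE x hxt⟩, ?_⟩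
      rw [hl, Function.iterate_mul]
      exact Function.iterate_fixed h5 l
  have hcF : ∀ x ∈ CR (G : N → N), G x ∈ CR (G : N → N) := fun x hx => cr_fwd G.continuous hx
  have hnO₁ : ∀ x, x ∉ O₁ → G x ∈ CR (G : N → N) → G x ∉ O₁ := by
    intro x hx hxC hcon
    have h5 := (k3' (G x) ⟨hxC, hcon⟩).2
    rw [G.symm_apply_apply] at h5
    exact hx h5.2
  have hnO₂ : ∀ x, x ∉ O₂ → G x ∈ CR (G : N → N) → G x ∉ O₂ := by
    intro x hx hxC hcon
    have h5 := (l3' (G x) ⟨hxC, hcon⟩).2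
    rw [G.symm_apply_apply] at h5
    exact hx h5.2
  obtain ⟨B', hB', hinc⟩ := hFM n N r hr G d e he hinj B hB (CR (G : N → N) ∩ O₁) k1'
    (fun x hx => (k3' x hx).1) (fun x hx v hv => h1 G hG1 x (hO₁O hx.2).1 v hv)
    (CR (G : N → N) \ (O₁ ∪ O₂)) (by
      by_cases hne : E.Nonempty
      · exact (Dif.finite_fix hr G (hGK hne)).subset fun z hz => (hPfix z hz).2
      · have : CR (G : N → N) \ (O₁ ∪ O₂) = ∅ := by
          rw [eq_empty_iff_forall_notMem]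
          exact fun z hz => hne (hPfix z hz).1
        rw [this]
        exact finite_empty)
    (by
      rw [Set.disjoint_left]
      rintro x ⟨-, hx⟩ ⟨-, hx'⟩
      exact hx' (Or.inl hx))
    (by
      rintro x ⟨hx1, hx2⟩
      have h5 := hcF x hx1
      refine ⟨h5, ?_⟩
      rintro (h6 | h6)
      · exact hnO₁ x (fun h => hx2 (Or.inl h)) h5 h6
      · exact hnO₂ x (fun h => hx2 (Or.inr h)) h5 h6)
    (by
      intro x hx
      obtain ⟨hne, h5⟩ := hPfix x hx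
      exact ⟨⟨q, hq1, h5⟩, Dif.hypAt_of_hypK hr G hq1 (hGK hne) h5⟩)
  have hdis : ∀ x, x ∈ O₁ → x ∈ O₂ → False := fun x h5 h6 =>
    Set.disjoint_left.1 hAA (hO₁O h5).2 (hO₂V h6).2
  refine ⟨CR (G : N → N) \ O₂, ⟨sdiff_subset, l2', ?_, ?_, ?_⟩, ?_, B', hB', ?_⟩
  · have e : CR (G : N → N) \ (CR (G : N → N) \ O₂) = CR (G : N → N) ∩ O₂ := by
      ext x
      simp only [Set.mem_sdiff, mem_inter_iff]
      tauto
    exact e ▸ l1'
  · rintro x ⟨hx1, hx2⟩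
    exact ⟨hcF x hx1, hnO₂ x hx2 (hcF x hx1)⟩
  · rintro x ⟨hx1, hx2⟩
    have h5 : G.symm x ∈ CR (G : N → N) :=
      cr_bwd G.continuous G.symm.continuous (fun y => G.symm_apply_apply y) hx1
    refine ⟨h5, fun hcon => hx2 ?_⟩
    have h6 := (l3' (G.symm x) ⟨h5, hcon⟩).1
    rw [G.apply_symm_apply] at h6
    exact h6.2
  · rintro x ⟨hx1, hx2⟩
    by_contra hcon
    exact hx2 ⟨hx1, fun h => hcon (hO₂V h).1⟩
  · intro x hx v hv
    refine hinc x ?_ v hv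
    by_cases hx' : x ∈ O₁
    · exact Or.inl ⟨hx.1, hx'⟩
    · exact Or.inr ⟨hx.1, fun h => h.elim hx' hx.2⟩

end

end Pool.Agent.H247.VE.Main
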