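import Pool.Agent.H247.VE.Top
import Pool.Agent.H247.VE.Main
import Pool.Agent.H247.VE.At
import Pool.Agent.H247.SD.Fin

/-!
# Project VE: the final form
-/

set_option autoImplicit false
set_option linter.unusedSectionVars false

open scoped Manifold ContDiff Topology
open Filter Set MeasureTheory Metric

universe u

namespace Pool.Agent.H247.VE

open Pool.Agent.H718R2.G Pool.Agent.K7.H85.KHS Pool.Agent.H247.CB Pool.Agent.H247.SD
open Pool.Agent.R774.OS (CR isClosed_CR)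
open Pool.Agent.R774.ClStmt (HypSet)
open Pool.Agent.K7.H85.KH (DE DN qform rep_form diff_md cr_fwd cr_bwd triv_action)
open Pool.Agent.Q182.MC (ChainTo cls cls_inv)
open Pool.Agent.H728R2.FA (omegaLim FiniteAttractors)
open Pool.Agent.R774.ClStmt (orb)

section metric

variable {n : ℕ} {N : Type u} [MetricSpace N] [CompactSpace N]
  [ChartedSpace (V n) N] [IsManifold (𝓡 n) ∞ N]

theorem hypSet {r : ℕ∞} {G : DiffM n N r} {d : ℕ} {e : N → V d} {K : Set N}
    {B : N → V d →L[ℝ] V d →L[ℝ] ℝ} (he : ContMDiff (𝓡 n) (𝓡 d) 1 e) (hB : Continuous B)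
    (hcl : IsClosed K) (hinv : ∀ x ∈ K, G x ∈ K)
    (hT : ∀ x ∈ K, ∀ v : V n, v ≠ 0 → qform e B x v < qform e B (G x) (DN n G x v)) :
    HypSet (n := n) G (fun (_ : V 0) y => y) K e B where
  action := triv_action
  closed := hcl
  inv := hinv
  comm := ⟨univ, isOpen_univ, subset_univ _, fun _ _ _ => mem_univ _, fun _ _ _ => rfl⟩
  free := fun _ _ _ _ => Subsingleton.elim _ _
  smooth := he
  cont := hB
  basic := fun x _ v s => by
    have hs : s = 0 := Subsingleton.elim _ _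
    rw [hs]
    unfold orb
    rw [map_zero, add_zero]
  incr := fun x hx v hv => by
    have hv0 : v ≠ 0 := by
      intro h0
      apply hv 0
      unfold orb
      rw [map_zero, h0]
    exact hT x hx v hv0

/-- expansion near a compact set -/
theorem expand (hVL : S_VL.{u}) [MeasurableSpace N] [BorelSpace N] (μ : Measure N)
    [IsFiniteMeasure μ] {r : ℕ∞} (hr : 1 ≤ r) (F : DiffM n N r) (m : ℕ) {D : Set N}
    (hD : IsClosed D) (hx : ∀ x ∈ D, ExpandsAt n μ (F^[m]) x) :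
    ∃ V' : Set N, IsOpen V' ∧ D ⊆ V' ∧ ∃ lam : ℝ, 1 < lam ∧ ∃ U : Set (DiffM n N r),
      IsOpen[strongTop n N r] U ∧ F ∈ U ∧ ∀ G ∈ U, ∀ B ⊆ V', MeasurableSet B →
        ENNReal.ofReal lam * μ B ≤ μ (G^[m] '' B) := by
  refine hD.isCompact.induction_on (p := fun D => ∃ V' : Set N, IsOpen V' ∧ D ⊆ V' ∧ ∃ lam : ℝ,
    1 < lam ∧ ∃ U : Set (DiffM n N r), IsOpen[strongTop n N r] U ∧ F ∈ U ∧ ∀ G ∈ U, ∀ B ⊆ V',
      MeasurableSet B → ENNReal.ofReal lam * μ B ≤ μ (G^[m] '' B)) ?_ ?_ ?_ ?_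
  · refine ⟨∅, isOpen_empty, subset_rfl, 2, one_lt_two, univ, @isOpen_univ _ (strongTop n N r),
      mem_univ F, fun G _ B hB _ => ?_⟩
    rw [subset_empty_iff.1 hB]
    simp
  · rintro S T hST ⟨V', h1, h2, h3⟩
    exact ⟨V', h1, hST.trans h2, h3⟩
  · rintro S T ⟨V₁, h1, h2, lam, h3, U, h4, h5, h6⟩ ⟨V₂, h1', h2', lam', h3', U', h4', h5', h6'⟩
    refine ⟨V₁ ∪ V₂, h1.union h1', union_subset_union h2 h2', min lam lam', lt_min h3 h3',
      U ∩ U', (strongTop n N r).isOpen_inter _ _ h4 h4', ⟨h5, h5'⟩, fun G hG B hB hBm => ?_⟩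
    have e1 : B = (B ∩ V₁) ∪ (B \ V₁) := (inter_union_sdiff B V₁).symm
    have hm1 : MeasurableSet (B ∩ V₁) := hBm.inter h1.measurableSet
    have hm2 : MeasurableSet (B \ V₁) := hBm.diff h1.measurableSet
    have hd : Disjoint (B ∩ V₁) (B \ V₁) := disjoint_sdiff_inter.symm
    have a1 := h6 G hG.1 (B ∩ V₁) inter_subset_right hm1
    have a2 := h6' G hG.2 (B \ V₁) (fun x hx => (hB hx.1).resolve_left hx.2) hm2
    have hinj : Function.Injective (G^[m]) := G.injective.iterate m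
    have hm3 : MeasurableSet (G^[m] '' (B \ V₁)) := by
      have h7 : G^[m] '' (B \ V₁) = G.symm^[m] ⁻¹' (B \ V₁) := by
        have hl : Function.LeftInverse (G.symm^[m]) (G^[m]) :=
          Function.LeftInverse.iterate G.left_inv m
        have hr' : Function.RightInverse (G.symm^[m]) (G^[m]) :=
          Function.RightInverse.iterate G.right_inv m
        exact congrFun (Set.image_eq_preimage_of_inverse hl hr') _
      rw [h7]
      exact (G.symm.continuous.iterate m).measurable hm2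
    have e2 : μ (G^[m] '' B) = μ (G^[m] '' (B ∩ V₁)) + μ (G^[m] '' (B \ V₁)) := by
      conv_lhs => rw [e1, image_union]
      exact measure_union ((disjoint_image_iff hinj).2 hd) hm3
    have e3 : μ B = μ (B ∩ V₁) + μ (B \ V₁) := by
      conv_lhs => rw [e1]
      exact measure_union hd hm2
    rw [e2, e3, mul_add]
    refine add_le_add (le_trans ?_ a1) (le_trans ?_ a2)
    · exact mul_le_mul_left (ENNReal.ofReal_le_ofReal (min_le_left _ _)) _
    · exact mul_le_mul_left (ENNReal.ofReal_le_ofReal (min_le_right _ _)) _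
  · intro x hxD
    obtain ⟨W, hW, lam, h1, U, h2, h3, h4⟩ := hVL n N μ r hr F m x (hx x hxD)
    refine ⟨interior W, mem_nhdsWithin_of_mem_nhds (interior_mem_nhds.2 hW), interior W,
      isOpen_interior, subset_rfl, lam, h1, U, h2, h3, fun G hG B hB hBm =>
        h4 G hG B (hB.trans interior_subset) hBm⟩

/-- the same, with the empty set for the empty set -/
theorem expand' (hVL : S_VL.{u}) [MeasurableSpace N] [BorelSpace N] (μ : Measure N)
    [IsFiniteMeasure μ] {r : ℕ∞} (hr : 1 ≤ r) (F : DiffM n N r) (m : ℕ) {D : Set N}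
    (hD : IsClosed D) (hx : ∀ x ∈ D, ExpandsAt n μ (F^[m]) x) :
    ∃ V' : Set N, IsOpen V' ∧ D ⊆ V' ∧ (D = ∅ → V' = ∅) ∧ ∃ lam : ℝ, 1 < lam ∧
      ∃ U : Set (DiffM n N r), IsOpen[strongTop n N r] U ∧ F ∈ U ∧ ∀ G ∈ U, ∀ B ⊆ V',
        MeasurableSet B → ENNReal.ofReal lam * μ B ≤ μ (G^[m] '' B) := by
  by_cases h0 : D = ∅
  · refine ⟨∅, isOpen_empty, h0.subset, fun _ => rfl, 2, one_lt_two, univ,
      @isOpen_univ _ (strongTop n N r), mem_univ F, fun G _ B hB _ => ?_⟩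
    rw [subset_empty_iff.1 hB]
    simp
  · obtain ⟨V', h1, h2, h3⟩ := expand hVL μ hr F m hD hx
    exact ⟨V', h1, h2, fun h => absurd h h0, h3⟩

theorem classes (hCC2 : S_CC2.{u}) (hPD2 : S_PD2.{u}) (hPO2 : S_PO2.{u}) (hFC2 : S_FC2.{u})
    (hTR2 : S_TR2.{u}) (hNP : S_NP.{u}) [MeasurableSpace N] [BorelSpace N]
    (μ : Measure N) [IsFiniteMeasure μ] (hμ : SmoothMeasure n μ) {r : ℕ∞} (hr : 1 ≤ r)
    (G : DiffM n N r) {d : ℕ} {e : N → V d}
    (he : ContMDiff (𝓡 n) (𝓡 d) ∞ e) (hei : Function.Injective e)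
    {B : N → V d →L[ℝ] V d →L[ℝ] ℝ} (hB : Continuous B) {K : Set N} (hK : Iso G.toHomeomorph K)
    (hT : ∀ x ∈ K, ∀ v : V n, v ≠ 0 → qform e B x v < qform e B (G x) (DN n G x v))
    {V' : Set N} (hV : IsOpen V') (hKV : CR (G : N → N) \ K ⊆ V') {m : ℕ} {lam : ℝ}
    (hlam : 1 < lam) (hex : ∀ B ⊆ V', MeasurableSet B → ENNReal.ofReal lam * μ B ≤ μ (G^[m] '' B)) :
    ∃ S : Set (Set N), ClassesAE μ (G : N → N) S ∧
      (V' = ∅ → ∀ p, ∃ C ∈ S, omegaLim (G : N → N) p ⊆ C) := by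
  have he1 : ContMDiff (𝓡 n) (𝓡 d) 1 e := he.of_le (by exact_mod_cast le_top)
  have hSh : Sh (G : N → N) K :=
    Pool.Agent.H342.SD.main n N r hr G d e B _ (hypSet he1 hB hK.cl hK.fwd hT)
  have hEx : Ex G.toHomeomorph K :=
    Pool.Agent.H370.SD.main N G.toHomeomorph d e he.continuous hei B hB K hK.cl
      hK.fwd hK.bwd fun x₀ hx₀ =>
        Pool.Agent.H585.SD.main n N r hr G d e he B hB x₀ (hT x₀ hx₀)
  obtain ⟨h1, h2, h3, h4⟩ := Top.spectral hCC2 hPD2 hPO2 hFC2 hTR2 Pool.Agent.H289.SD.main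
    G.toHomeomorph hK hSh hEx
  exact ⟨_, classes_of μ G.toHomeomorph hV hKV hlam hex
    (fun B hB h0 => hNP n N μ r hr hμ G B hB h0) h1 h2 h3 h4⟩

end metric

section final

variable {n : ℕ} {N : Type u} [TopologicalSpace N] [ChartedSpace (V n) N]

/-- The chain recurrent set of `F` is the union of pairwise disjoint closed invariant sets `L`, `E`,
`D` such that: some continuous quadratic form (of any signature) on the tangent spaces increases
strictly under `DF` at the points of `L`; `E` is totally disconnected, its points are periodic, and the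
return derivative at each of them has at most one eigenvalue of modulus one (counted with
multiplicity); some iterate of `F` expands the volume `μ` at the points of `D`. -/
structure SplitCR [MeasurableSpace N] (μ : Measure N) {r : ℕ∞} (F : DiffM n N r)
    (L E D : Set N) : Prop where
  closedL : IsClosed L
  closedE : IsClosed E
  closedD : IsClosed D
  union : {x | ChainRecurrent F Set.univ x} = L ∪ E ∪ D
  disjointLE : Disjoint L E
  disjointLD : Disjoint L D
  disjointED : Disjoint E D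
  invariantL : ∀ x ∈ L, F x ∈ L
  invariantE : ∀ x ∈ E, F x ∈ E
  invariantD : ∀ x ∈ D, F x ∈ D
  form : ∃ Q : N → V n → ℝ, IsForm Q ∧ ∀ x ∈ L, ∀ v : V n, v ≠ 0 → Q x v < Q (F x) (dN F x v)
  disconnected : IsTotallyDisconnected E
  periodic : ∀ x ∈ E, ∃ m : ℕ, 1 ≤ m ∧ F^[m] x = x ∧ AtMostOne (lin (n := n) F^[m] x)
  expanding : ∃ m : ℕ, ∀ x ∈ D, ExpandsAt n μ F^[m] x

theorem final (hVL : S_VL.{u}) (hCC2 : S_CC2.{u}) (hPD2 : S_PD2.{u}) (hPO2 : S_PO2.{u})
    (hFC2 : S_FC2.{u}) (hTR2 : S_TR2.{u}) (hNP : S_NP.{u})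
    [T2Space N] [CompactSpace N] [IsManifold (𝓡 n) ∞ N] [MeasurableSpace N] [BorelSpace N]
    (μ : Measure N) [IsFiniteMeasure μ] (hμ : SmoothMeasure n μ) {r : ℕ∞} (hr : 1 ≤ r)
    (F : DiffM n N r) (L E D : Set N) (H : SplitCR μ F L E D) :
    ∃ U W : Set (DiffM n N r), IsOpen[strongTop n N r] U ∧ F ∈ U ∧ IsOpen[strongTop n N r] W ∧
      W ⊆ U ∧ (∀ U' ⊆ U, IsOpen[strongTop n N r] U' → U'.Nonempty → (U' ∩ W).Nonempty) ∧
      (E = ∅ → W = U) ∧ ∀ G ∈ W, FiniteAttractors μ (G : N → N) ∧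
        ∃ S : Set (Set N), ClassesAE μ (G : N → N) S ∧
          (D = ∅ → ∀ p, ∃ C ∈ S, omegaLim (G : N → N) p ⊆ C) := by
  have : SecondCountableTopology N := ChartedSpace.secondCountable_of_sigmaCompact (V n) N
  let _ : MetricSpace N := TopologicalSpace.metrizableSpaceMetric N
  obtain ⟨d, e, he, he', hinj'⟩ := exists_embedding_euclidean_of_compact (I := 𝓡 n) (M := N)
  have hinj : ∀ x, Function.Injective (DE n e x) := fun x => hinj' x
  have he1 : ContMDiff (𝓡 n) (𝓡 d) 1 e := he.of_le (by exact_mod_cast le_top)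
  obtain ⟨Q, hQ, hI⟩ := H.form
  obtain ⟨m', e₀, B₀, he₀, hB₀, hq⟩ := (form_iff Q).1 hQ
  obtain ⟨B, hB, hBe⟩ := rep_form he1 hinj he₀ hB₀
  have hq2 : ∀ x v, qform e B x v = Q x v := fun x v => (hBe x v v).trans (hq x v).symm
  obtain ⟨m, hm⟩ := H.expanding
  obtain ⟨V', hV, hDV, hD0, lam, hlam, U₀, hU₀, hFU₀, hex⟩ := expand' hVL μ hr F m H.closedD hm
  obtain ⟨U, W, h1, h2, h3, h4, h5, h6, h7⟩ := Main.main_rel
    (Pool.Agent.H484.CB.LOC.main Pool.Agent.H407.CB.LA.main Pool.Agent.H457.CB.CN.main)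
    Pool.Agent.H189.CB.main (Pool.Agent.H984.CB.SEP.main CB.Top.usc) Pool.Agent.H105.CBIT.main
    CB.Top.usc Pool.Agent.H747.CBPI.main (Pool.Agent.H353.CB.main Pool.Agent.H179.CB.QF.main)
    Pool.Agent.Y504.CO.DicF.hCI Pool.Agent.Y504.CO.DicF.hNB Pool.Agent.Y504.CO.DicF.hHD
    hr F he hinj hB H.closedL H.closedE H.closedD H.union H.disjointLE H.disjointLD
    H.disjointED H.disconnected H.invariantL H.invariantE H.invariantD
    (fun x hx v hv => by
      rw [hq2, hq2]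
      have h1 := hI x hx v hv
      rw [dN_eq (diff_md hr F x)] at h1
      exact h1)
    (fun x hx => by
      obtain ⟨m, hm, hxm, hA⟩ := H.periodic x hx
      exact ⟨m, hm, hxm, chartAt (V n) x, IsManifold.chart_mem_maximalAtlas (I := 𝓡 n) (n := ∞) x,
        mem_chart_source (V n) x, hA⟩) hV hDV
  refine ⟨U ∩ U₀, W ∩ U₀, @IsOpen.inter _ (strongTop n N r) _ _ h1 hU₀, ⟨h2, hFU₀⟩,
    @IsOpen.inter _ (strongTop n N r) _ _ h3 hU₀, inter_subset_inter_left _ h4,
    fun U' hU' hU'o hU'n => ?_, fun h => by rw [h6 h], fun G hG => ?_⟩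
  · obtain ⟨G, hG, hGW⟩ := h5 U' (hU'.trans inter_subset_left) hU'o hU'n
    exact ⟨G, hG, hGW, (hU' hG).2⟩
  · obtain ⟨K, hK, hKV, B', hB', hT⟩ := h7 G hG.1
    obtain ⟨S, hS, hS'⟩ := classes hCC2 hPD2 hPO2 hFC2 hTR2 hNP μ hμ hr G he he'.injective hB' hK
      hT hV hKV hlam (hex G hG.2)
    exact ⟨attractors_of_classes hS, S, hS, fun h0 => hS' (hD0 h0)⟩

end final

end Pool.Agent.H247.VE
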