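import Pool.Agent.H247.VE.Rel2

/-!
# Project VE: hyperbolic sets have an increasing quadratic form
-/

set_option autoImplicit false
set_option linter.unusedSectionVars false

open scoped Manifold ContDiff Topology
open Filter Set Metric

universe u

namespace Pool.Agent.H247.VE.HF

open Pool.Agent.H718R2.G Pool.Agent.K7.H85.KHS Pool.Agent.H247.VE
open Pool.Agent.K7.H85.KH (DE DN qform rep_form diff_md it_md dn_zero dn_succ dn_add dn_symm_it
  dn_symm dn_symm' de_comp)
open Pool.Agent.Y318.MN (iter_smooth)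

variable {n : ℕ} {N : Type u} [TopologicalSpace N] [T2Space N] [CompactSpace N]
  [ChartedSpace (V n) N] [IsManifold (𝓡 n) ∞ N] {r : ℕ∞}

theorem par {m : ℕ} {e : N → V m} {B : N → V m →L[ℝ] V m →L[ℝ] ℝ} {R : N → V n → ℝ}
    (hq : ∀ x v, R x v = qform e B x v) (x : N) (p q : V n) :
    R x (p + q) + R x (p - q) = 2 * R x p + 2 * R x q := by
  simp only [hq]
  unfold qform
  simp only [map_add, map_sub, _root_.add_apply, _root_.sub_apply]
  ring

theorem nonneg {m : ℕ} {e : N → V m} {B : N → V m →L[ℝ] V m →L[ℝ] ℝ} {R : N → V n → ℝ}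
    (hq : ∀ x v, R x v = qform e B x v) (hpos : ∀ x v, v ≠ 0 → 0 < R x v) (x : N) (v : V n) :
    0 ≤ R x v := by
  by_cases hv : v = 0
  · rw [hv, hq]
    unfold qform
    simp
  · exact (hpos x v hv).le

/-- the pullbacks of a form under the iterates -/
theorem pull (hr : 1 ≤ r) (F : DiffM n N r) {d : ℕ} {e : N → V d}
    (he : ContMDiff (𝓡 n) (𝓡 d) 1 e) (hinj : ∀ x, Function.Injective (DE n e x))
    {m : ℕ} {e' : N → V m} {B' : N → V m →L[ℝ] V m →L[ℝ] ℝ} {R : N → V n → ℝ}
    (he' : ContMDiff (𝓡 n) (𝓡 m) 1 e') (hB' : Continuous B')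
    (hq : ∀ x v, R x v = qform e' B' x v) (j : ℕ) :
    ∃ B : N → V d →L[ℝ] V d →L[ℝ] ℝ, Continuous B ∧
      ∀ x v, qform e B x v = R (F^[j] x) (DN n (F^[j]) x v) := by
  have h1 : ContMDiff (𝓡 n) (𝓡 n) 1 (F^[j]) := (iter_smooth F j).of_le (by exact_mod_cast hr)
  obtain ⟨B, hB, h2⟩ := rep_form he hinj (he'.comp h1) (hB'.comp (h1.continuous))
  refine ⟨B, hB, fun x v => ?_⟩
  rw [hq]
  unfold qform
  rw [h2, de_comp he' (it_md hr F j x)]
  rfl

/-- the key inequality -/
theorem key (hr : 1 ≤ r) (F : DiffM n N r) {K : Set N} (hf : ∀ x ∈ K, F x ∈ K)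
    (hb : ∀ x ∈ K, F.symm x ∈ K) {m : ℕ} {e' : N → V m} {B' : N → V m →L[ℝ] V m →L[ℝ] ℝ}
    {R : N → V n → ℝ} (hq : ∀ x v, R x v = qform e' B' x v) (hpos : ∀ x v, v ≠ 0 → 0 < R x v)
    {C lam : ℝ} {Es Eu : N → Submodule ℝ (V n)} (hC : 0 < C) (hl0 : 0 < lam) (hl1 : lam < 1)
    (hs : ∀ x ∈ K, HypSplit R C lam F F.symm Es Eu x) :
    ∃ k : ℕ, ∀ x ∈ K, ∀ v : V n, v ≠ 0 → 2 * R x v < R (F^[k] x) (DN n (F^[k]) x v) +
      R (F.symm^[k] x) (DN n (F.symm^[k]) x v) := by
  have hnn := nonneg hq hpos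
  obtain ⟨k, hk⟩ : ∃ k : ℕ, C * lam ^ k < 1 / 32 := by
    have h1 : Tendsto (fun k : ℕ => C * lam ^ k) atTop (𝓝 (C * 0)) :=
      (tendsto_pow_atTop_nhds_zero_of_lt_one hl0.le hl1).const_mul C
    rw [mul_zero] at h1
    exact (h1.eventually (gt_mem_nhds (by norm_num : (0 : ℝ) < 1 / 32))).exists
  have ht0 : 0 < C * lam ^ k := by positivity
  have hfk : ∀ (j : ℕ), ∀ x ∈ K, F^[j] x ∈ K := by
    intro j
    induction j with
    | zero => exact fun x hx => hx
    | succ j ih => exact fun x hx => by rw [Function.iterate_succ_apply']; exact hf _ (ih x hx)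
  have hbk : ∀ (j : ℕ), ∀ x ∈ K, F.symm^[j] x ∈ K := by
    intro j
    induction j with
    | zero => exact fun x hx => hx
    | succ j ih => exact fun x hx => by rw [Function.iterate_succ_apply']; exact hb _ (ih x hx)
  have hEu : ∀ (j : ℕ), ∀ x ∈ K, ∀ u ∈ Eu x, DN n (F^[j]) x u ∈ Eu (F^[j] x) := by
    intro j
    induction j with
    | zero => intro x hx u hu; rw [dn_zero]; exact hu
    | succ j ih =>
      intro x hx u hu
      rw [dn_succ hr, Function.iterate_succ_apply']
      have h1 := ((hs _ (hfk j x hx)).2.1 (DN n (F^[j]) x u)).2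
      rw [dN_eq (diff_md hr F _)] at h1
      exact h1.2 (ih x hx u hu)
  have hEs : ∀ (j : ℕ), ∀ x ∈ K, ∀ s ∈ Es x, DN n (F.symm^[j]) x s ∈ Es (F.symm^[j] x) := by
    intro j
    induction j with
    | zero => intro x hx u hu; rw [dn_zero]; exact hu
    | succ j ih =>
      intro x hx u hu
      rw [dn_succ hr, Function.iterate_succ_apply']
      set y := F.symm^[j] x with hy
      set w := DN n (F.symm^[j]) x u with hw
      have h1 := ((hs _ (hb _ (hbk j x hx))).2.1 (DN n F.symm y w)).1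
      rw [dN_eq (diff_md hr F _), dn_symm' hr F y w] at h1
      refine h1.1 ?_
      have h2 : F (F.symm y) = y := F.apply_symm_apply y
      rw [h2]
      exact ih x hx u hu
  refine ⟨k, fun x hx v hv => ?_⟩
  obtain ⟨hc, -, hcs, hcu⟩ := hs x hx
  have hvm : v ∈ Es x ⊔ Eu x := by rw [hc.sup_eq_top]; trivial
  obtain ⟨s, hs1, u, hu1, hsu⟩ := Submodule.mem_sup.1 hvm
  -- the four estimates
  have a1 : R (F^[k] x) (DN n (F^[k]) x s) ≤ C * lam ^ k * R x s := by
    have := hcs s hs1 k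
    rwa [dN_eq (it_md hr F k x)] at this
  have a2 : R (F.symm^[k] x) (DN n (F.symm^[k]) x u) ≤ C * lam ^ k * R x u := by
    have := hcu u hu1 k
    rwa [dN_eq (it_md hr F.symm k x)] at this
  have a3 : R x u ≤ C * lam ^ k * R (F^[k] x) (DN n (F^[k]) x u) := by
    have h1 := (hs _ (hfk k x hx)).2.2.2 _ (hEu k x hx u hu1) k
    rw [dN_eq (it_md hr F.symm k _), dn_symm_it hr F k x u] at h1
    have h2 : F.symm^[k] (F^[k] x) = x :=
      Function.LeftInverse.iterate (g := F.symm) (f := F) (fun z => F.symm_apply_apply z) k x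
    rwa [h2] at h1
  have a4 : R x s ≤ C * lam ^ k * R (F.symm^[k] x) (DN n (F.symm^[k]) x s) := by
    have h1 := (hs _ (hbk k x hx)).2.2.1 _ (hEs k x hx s hs1) k
    have h3 : DN n (F^[k]) (F.symm^[k] x) (DN n (F.symm^[k]) x s) = s :=
      dn_symm_it hr F.symm k x s
    rw [dN_eq (it_md hr F k _), h3] at h1
    have h2 : F^[k] (F.symm^[k] x) = x :=
      Function.LeftInverse.iterate (g := F) (f := F.symm) (fun z => F.apply_symm_apply z) k x
    rwa [h2] at h1
  have b1 := par hq x s u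
  rw [hsu] at b1
  have b2 := par hq (F^[k] x) (DN n (F^[k]) x v) (DN n (F^[k]) x s)
  have b3 := par hq (F.symm^[k] x) (DN n (F.symm^[k]) x v) (DN n (F.symm^[k]) x u)
  have c2 : DN n (F^[k]) x v - DN n (F^[k]) x s = DN n (F^[k]) x u := by
    rw [← hsu, map_add]; abel
  have c3 : DN n (F.symm^[k]) x v - DN n (F.symm^[k]) x u = DN n (F.symm^[k]) x s := by
    rw [← hsu, map_add]; abel
  rw [c2] at b2
  rw [c3] at b3
  have d1 := hnn x (s - u)
  have d2 := hnn (F^[k] x) (DN n (F^[k]) x v + DN n (F^[k]) x s)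
  have d3 := hnn (F.symm^[k] x) (DN n (F.symm^[k]) x v + DN n (F.symm^[k]) x u)
  have d4 := hnn x s
  have d5 := hnn x u
  have d6 := hnn (F^[k] x) (DN n (F^[k]) x u)
  have d7 := hnn (F.symm^[k] x) (DN n (F.symm^[k]) x s)
  have d8 := hpos x v hv
  have g1 : R (F^[k] x) (DN n (F^[k]) x s) ≤ 1 / 32 * R x s :=
    a1.trans (mul_le_mul_of_nonneg_right hk.le d4)
  have g2 : R (F.symm^[k] x) (DN n (F.symm^[k]) x u) ≤ 1 / 32 * R x u :=
    a2.trans (mul_le_mul_of_nonneg_right hk.le d5)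
  have g3 : R x u ≤ 1 / 32 * R (F^[k] x) (DN n (F^[k]) x u) :=
    a3.trans (mul_le_mul_of_nonneg_right hk.le d6)
  have g4 : R x s ≤ 1 / 32 * R (F.symm^[k] x) (DN n (F.symm^[k]) x s) :=
    a4.trans (mul_le_mul_of_nonneg_right hk.le d7)
  linarith

/-- **Hyperbolic sets have an increasing form.** -/
theorem formIncreases (hr : 1 ≤ r) (F : DiffM n N r) {K : Set N} (hf : ∀ x ∈ K, F x ∈ K)
    (hb : ∀ x ∈ K, F.symm x ∈ K) (H : Hyperbolic n F F.symm K) : FormIncreases F K := by
  obtain ⟨R, C, lam, Es, Eu, hR, hpos, hC, hl0, hl1, hs⟩ := H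
  obtain ⟨m, e', B', he', hB', hq⟩ := (form_iff R).1 hR
  obtain ⟨k, hk⟩ := key hr F hf hb hq hpos hC hl0 hl1 hs
  obtain ⟨d, e, he, -, hinj'⟩ := exists_embedding_euclidean_of_compact (I := 𝓡 n) (M := N)
  have hinj : ∀ x, Function.Injective (DE n e x) := fun x => hinj' x
  have he1 : ContMDiff (𝓡 n) (𝓡 d) 1 e := he.of_le (by exact_mod_cast le_top)
  choose Bf hBf hf' using fun j => pull hr F he1 hinj he' hB' hq j
  choose Bg hBg hg' using fun j => pull hr F.symm he1 hinj he' hB' hq j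
  refine ⟨fun x v => ∑ j ∈ Finset.range k, R (F^[j] x) (DN n (F^[j]) x v) -
    ∑ j ∈ Finset.range k, R (F.symm^[j + 1] x) (DN n (F.symm^[j + 1]) x v), ?_,
    fun y hy v hv => ?_⟩
  · refine (form_iff _).2 ⟨d, e, fun x => ∑ j ∈ Finset.range k, Bf j x -
      ∑ j ∈ Finset.range k, Bg (j + 1) x, he1, ?_, fun x v => ?_⟩
    · refine continuous_clm_apply.2 fun u => continuous_clm_apply.2 fun w => ?_
      simp only [_root_.sub_apply, _root_.sum_apply]
      exact (continuous_finsetSum _ fun j _ =>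
        ((hBf j).clm_apply continuous_const).clm_apply continuous_const).sub
        (continuous_finsetSum _ fun j _ =>
        ((hBg (j + 1)).clm_apply continuous_const).clm_apply continuous_const)
    · simp only [← hf', ← hg']
      unfold qform
      simp only [_root_.sub_apply, _root_.sum_apply]
  · have e1 : ∀ j : ℕ, R (F^[j] (F y)) (DN n (F^[j]) (F y) (dN F y v)) =
        R (F^[j + 1] y) (DN n (F^[j + 1]) y v) := by
      intro j
      rw [dN_eq (diff_md hr F y), dn_add hr F j 1, Function.iterate_succ_apply]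
      rfl
    have e2 : ∀ j : ℕ, R (F.symm^[j + 1] (F y)) (DN n (F.symm^[j + 1]) (F y) (dN F y v)) =
        R (F.symm^[j] y) (DN n (F.symm^[j]) y v) := by
      intro j
      have h1 : F.symm^[1] (F y) = y := F.symm_apply_apply y
      have h2 : DN n (F.symm^[1]) (F y) (DN n F y v) = v := dn_symm hr F y v
      rw [dN_eq (diff_md hr F y), dn_add hr F.symm j 1, h1, h2, Function.iterate_succ_apply]
      have h3 : F.symm (F y) = y := F.symm_apply_apply y
      rw [h3]
    simp only [e1, e2]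
    have h1 := Finset.sum_range_succ (fun j => R (F^[j] y) (DN n (F^[j]) y v)) k
    have h2 := Finset.sum_range_succ' (fun j => R (F^[j] y) (DN n (F^[j]) y v)) k
    have h3 := Finset.sum_range_succ (fun j => R (F.symm^[j] y) (DN n (F.symm^[j]) y v)) k
    have h4 := Finset.sum_range_succ' (fun j => R (F.symm^[j] y) (DN n (F.symm^[j]) y v)) k
    have h5 := hk y hy v hv
    rw [dn_zero] at h2 h4
    simp only [Function.iterate_zero, id_eq] at h2 h4
    linarith

end Pool.Agent.H247.VE.HF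

namespace Pool.Agent.H247.VE

open Pool.Agent.H718R2.G Pool.Agent.K7.H85.KHS
open Pool.Agent.Q182.MC (cls cls_inv)

/-- Hyperbolic chain classes have an increasing form. -/
theorem class_form {n : ℕ} {N : Type u} [TopologicalSpace N] [T2Space N] [CompactSpace N]
    [ChartedSpace (V n) N] [IsManifold (𝓡 n) ∞ N] {r : ℕ∞} (hr : 1 ≤ r) (F : DiffM n N r) (x : N)
    (H : Hyperbolic n F F.symm (chainClass F x)) : FormIncreases F (chainClass F x) := by
  have : SecondCountableTopology N := ChartedSpace.secondCountable_of_sigmaCompact (V n) N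
  let _ : MetricSpace N := TopologicalSpace.metrizableSpaceMetric N
  have h1 : (F.toHomeomorph : N → N) '' cls (F.toHomeomorph : N → N) univ x =
      cls (F.toHomeomorph : N → N) univ x :=
    cls_inv (K := univ) F.toHomeomorph (fun _ _ => mem_univ _) (fun _ _ => mem_univ _) x
  have hf : ∀ y ∈ cls (F : N → N) univ x, F y ∈ cls (F : N → N) univ x := by
    intro y hy
    have h2 : F y ∈ (F.toHomeomorph : N → N) '' cls (F.toHomeomorph : N → N) univ x :=
      ⟨_, hy, rfl⟩
    rw [h1] at h2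
    exact h2
  have hb : ∀ y ∈ cls (F : N → N) univ x, F.symm y ∈ cls (F : N → N) univ x := by
    intro y hy
    have h2 : y ∈ (F.toHomeomorph : N → N) '' cls (F.toHomeomorph : N → N) univ x := by
      rw [h1]
      exact hy
    obtain ⟨z, hz, hzy⟩ := h2
    have h3 : F z = y := hzy
    rw [← h3, F.symm_apply_apply]
    exact hz
  exact HF.formIncreases hr F hf hb H

end Pool.Agent.H247.VE
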