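import Pool.Graph.R_pool_sql_team_seeded_35f281b4.K7.H85.KH.Split3
import Pool.Graph.R_pool_sql_team_seeded_35f281b4.K7.H85.KH.Trans

/-!
# The hyperbolic splitting over a part of the chain recurrent set

Adapted from the library files `K7/H85/KH/Split.lean`, `Split2.lean`, `Split3.lean` of helper85: the
compact set need not contain all periodic points, only its own periodic points must be dense in it.
-/

set_option autoImplicit false
set_option linter.unusedSectionVars false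

open scoped Manifold ContDiff Topology NNReal
open Filter Set Metric

universe u

namespace Pool.Agent.H247.VE.KS

open Pool.Agent.K7.H85.KH
open Pool.Agent.H718R2.G
open Pool.Agent.Y318.MN (iter_smooth)
open Pool.Agent.R774.Cl (th th_surj th_inj exists_lim)

variable {n : ℕ} {N : Type u} [TopologicalSpace N] [T2Space N] [CompactSpace N]
  [ChartedSpace (V n) N] [IsManifold (𝓡 n) ∞ N] {r : ℕ∞} {d : ℕ}

/-- the data -/
structure Dat (n : ℕ) {N : Type u} [TopologicalSpace N] [ChartedSpace (V n) N]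
    {r : ℕ∞} {d : ℕ} (G : DiffM n N r) (K : Set N) (e : N → V d)
    (B : N → V d →L[ℝ] V d →L[ℝ] ℝ) : Prop where
  he : ContMDiff (𝓡 n) (𝓡 d) ∞ e
  inj : ∀ x, Function.Injective (DE n e x)
  hB : Continuous B
  cl : IsClosed K
  fwd : ∀ x ∈ K, G x ∈ K
  bwd : ∀ x ∈ K, G.symm x ∈ K
  incr : ∀ x ∈ K, ∀ v : V n, v ≠ 0 → qform e B x v < qform e B (G x) (DN n G x v)
  dense : K ⊆ closure (Prd G ∩ K)

theorem Dat.he1 {G : DiffM n N r} {K : Set N} {e : N → V d} {B : N → V d →L[ℝ] V d →L[ℝ] ℝ}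
    (D : Dat n G K e B) : ContMDiff (𝓡 n) (𝓡 d) 1 e := D.he.of_le (by exact_mod_cast le_top)

theorem Dat.it {G : DiffM n N r} {K : Set N} {e : N → V d} {B : N → V d →L[ℝ] V d →L[ℝ] ℝ}
    (D : Dat n G K e B) {x : N} (hx : x ∈ K) (k : ℕ) : G^[k] x ∈ K := by
  induction k with
  | zero => exact hx
  | succ k ih => rw [Function.iterate_succ_apply']; exact D.fwd _ ih

theorem Dat.it' {G : DiffM n N r} {K : Set N} {e : N → V d} {B : N → V d →L[ℝ] V d →L[ℝ] ℝ}
    (D : Dat n G K e B) {x : N} (hx : x ∈ K) (k : ℕ) : G.symm^[k] x ∈ K := by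
  induction k with
  | zero => exact hx
  | succ k ih => rw [Function.iterate_succ_apply']; exact D.bwd _ ih

/-- the constants -/
theorem Dat.consts (hr : 1 ≤ r) {G : DiffM n N r} {K : Set N} {e : N → V d}
    {B : N → V d →L[ℝ] V d →L[ℝ] ℝ} (D : Dat n G K e B) :
    ∃ c C : ℝ, 0 < c ∧ c ≤ 1 ∧ 1 < C ∧
      (∀ x ∈ K, ∀ v : V n,
        qform e B x v + c * ‖DE n e x v‖ ^ 2 ≤ qform e B (G x) (DN n G x v)) ∧
      (∀ x, ∀ u w : V d, |B x u w| ≤ C * (‖u‖ * ‖w‖)) ∧
      ∀ x ∈ K, ∀ v : V n, c * ‖DE n e (G x) (DN n G x v)‖ ^ 2 ≤ ‖DE n e x v‖ ^ 2 := by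
  have hG1 : ContMDiff (𝓡 n) (𝓡 n) 1 G := G.contMDiff.of_le (by exact_mod_cast hr)
  obtain ⟨δ₁, hδ₁, h1⟩ := finsler D.cl (hc_incr D.he1 D.hB hr G) (hc_neg (hc_norm D.he1))
    (by
      intro x hx v
      by_cases hv : v = 0
      · rw [hv]
        unfold qform
        simp
      · exact (sub_pos.2 (D.incr x hx v hv)).le)
    (by
      intro x hx v hv h0
      exact absurd h0 (sub_pos.2 (D.incr x hx v hv)).ne')
  obtain ⟨δ₂, hδ₂, h2⟩ := finsler D.cl (hc_norm D.he1) (hc_neg (hc_norm (D.he1.comp hG1)))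
    (fun x _ v => sq_nonneg _)
    (by
      intro x hx v hv h0
      have h3 : ‖DE n e x v‖ ^ 2 = 0 := h0
      have h4 : DE n e x v = 0 := norm_eq_zero.1 (pow_eq_zero_iff (two_ne_zero) |>.1 h3)
      exact absurd (D.inj x (by rw [h4, map_zero])) hv)
  obtain ⟨C, hC⟩ := isCompact_univ.exists_bound_of_continuousOn
    (f := B) D.hB.continuousOn
  refine ⟨min (min δ₁ δ₂) 1, max C 2, lt_min (lt_min hδ₁ hδ₂) one_pos, min_le_right _ _,
    lt_of_lt_of_le (by norm_num) (le_max_right _ _), fun x hx v => ?_, fun x u w => ?_,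
    fun x hx v => ?_⟩
  · by_cases hv : v = 0
    · rw [hv]
      unfold qform
      simp
    · have h3 := h1 x hx v hv
      have h4 : min (min δ₁ δ₂) 1 * ‖DE n e x v‖ ^ 2 ≤ δ₁ * ‖DE n e x v‖ ^ 2 :=
        mul_le_mul_of_nonneg_right ((min_le_left _ _).trans (min_le_left _ _)) (sq_nonneg _)
      linarith
  · rw [← Real.norm_eq_abs]
    have h3 : ‖B x‖ ≤ max C 2 := (hC x (mem_univ x)).trans (le_max_left _ _)
    calc ‖B x u w‖ ≤ ‖B x u‖ * ‖w‖ := (B x u).le_opNorm w
      _ ≤ (‖B x‖ * ‖u‖) * ‖w‖ := mul_le_mul_of_nonneg_right ((B x).le_opNorm u) (norm_nonneg _)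
      _ ≤ (max C 2 * ‖u‖) * ‖w‖ := by gcongr
      _ = max C 2 * (‖u‖ * ‖w‖) := by ring
  · by_cases hv : v = 0
    · rw [hv]
      simp
    · have h3 := h2 x hx v hv
      rw [de_comp D.he1 (diff_md hr G x)] at h3
      have h4 : min (min δ₁ δ₂) 1 * ‖DE n e (G x) (DN n G x v)‖ ^ 2 ≤
          δ₂ * ‖DE n e (G x) (DN n G x v)‖ ^ 2 :=
        mul_le_mul_of_nonneg_right ((min_le_left _ _).trans (min_le_right _ _)) (sq_nonneg _)
      linarith

/-- vectors with bounded forward orbit -/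
theorem stable (hr : 1 ≤ r) {G : DiffM n N r} {K : Set N} {e : N → V d}
    {B : N → V d →L[ℝ] V d →L[ℝ] ℝ} (D : Dat n G K e B) {c C : ℝ} (hc : 0 < c) (hcC : c < C)
    (h1 : ∀ x ∈ K, ∀ v : V n,
      qform e B x v + c * ‖DE n e x v‖ ^ 2 ≤ qform e B (G x) (DN n G x v))
    (h2 : ∀ x, ∀ u w : V d, |B x u w| ≤ C * (‖u‖ * ‖w‖)) {x : N} (hx : x ∈ K) {v : V n}
    (hv : v ∈ Bd n e G x) :
    (∀ k, qform e B (G^[k] x) (DN n (G^[k]) x v) ≤ 0) ∧
      ∀ k, ‖DE n e (G^[k] x) (DN n (G^[k]) x v)‖ ^ 2 ≤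
        C / c * (1 - c / C) ^ k * ‖DE n e x v‖ ^ 2 := by
  obtain ⟨M, hM⟩ := hv
  have h3 := decay (a := fun k => ‖DE n e (G^[k] x) (DN n (G^[k]) x v)‖ ^ 2)
    (t := fun k => qform e B (G^[k] x) (DN n (G^[k]) x v)) hc hcC
    (fun k => by
      have := h1 _ (D.it hx k) (DN n (G^[k]) x v)
      rw [← dn_succ hr G, ← Function.iterate_succ_apply' G] at this
      exact this)
    (fun k => qf_bound h2 _ _)
    ⟨M ^ 2, fun k => pow_le_pow_left₀ (norm_nonneg _) (hM k) 2⟩
  refine ⟨h3.1, fun k => ?_⟩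
  have h4 := h3.2 k
  simp only [dn_zero] at h4
  exact h4

/-- vectors with bounded backward orbit -/
theorem unstable (hr : 1 ≤ r) {G : DiffM n N r} {K : Set N} {e : N → V d}
    {B : N → V d →L[ℝ] V d →L[ℝ] ℝ} (D : Dat n G K e B) {c C : ℝ} (hc : 0 < c) (hc1 : c ≤ 1)
    (hC1 : 1 < C) (h1 : ∀ x ∈ K, ∀ v : V n,
      qform e B x v + c * ‖DE n e x v‖ ^ 2 ≤ qform e B (G x) (DN n G x v))
    (h2 : ∀ x, ∀ u w : V d, |B x u w| ≤ C * (‖u‖ * ‖w‖))
    (h0 : ∀ x ∈ K, ∀ v : V n, c * ‖DE n e (G x) (DN n G x v)‖ ^ 2 ≤ ‖DE n e x v‖ ^ 2)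
    {x : N} (hx : x ∈ K) {v : V n} (hv : v ∈ Bd n e G.symm x) :
    0 ≤ qform e B x v ∧
      ∀ k, ‖DE n e (G.symm^[k] x) (DN n (G.symm^[k]) x v)‖ ^ 2 ≤
        C / (c * c) * (1 - c * c / C) ^ k * ‖DE n e x v‖ ^ 2 := by
  obtain ⟨M, hM⟩ := hv
  have hcc : c * c < C := by nlinarith
  have h3 := decay (a := fun k => ‖DE n e (G.symm^[k] x) (DN n (G.symm^[k]) x v)‖ ^ 2)
    (t := fun k => -qform e B (G.symm^[k] x) (DN n (G.symm^[k]) x v)) (mul_pos hc hc) hcc
    (fun k => by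
      have hy := D.it' hx (k + 1)
      have e1 : G (G.symm^[k + 1] x) = G.symm^[k] x := by
        rw [Function.iterate_succ_apply']
        exact G.apply_symm_apply _
      have e2 : DN n G (G.symm^[k + 1] x) (DN n (G.symm^[k + 1]) x v) =
          DN n (G.symm^[k]) x v := by
        rw [dn_succ hr G.symm, Function.iterate_succ_apply']
        exact dn_symm' hr G _ _
      have a1 := h1 _ hy (DN n (G.symm^[k + 1]) x v)
      have a2 := h0 _ hy (DN n (G.symm^[k + 1]) x v)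
      rw [e1, e2] at a1 a2
      show -qform e B (G.symm^[k] x) (DN n (G.symm^[k]) x v) +
        c * c * ‖DE n e (G.symm^[k] x) (DN n (G.symm^[k]) x v)‖ ^ 2 ≤
        -qform e B (G.symm^[k + 1] x) (DN n (G.symm^[k + 1]) x v)
      have a3 := mul_le_mul_of_nonneg_left a2 hc.le
      linarith)
    (fun k => by
      rw [abs_neg]
      exact qf_bound h2 _ _)
    ⟨M ^ 2, fun k => pow_le_pow_left₀ (norm_nonneg _) (hM k) 2⟩
  refine ⟨?_, fun k => ?_⟩
  · have h4 := h3.1 0
    simp only [dn_zero] at h4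
    have h5 : -qform e B x v ≤ 0 := h4
    linarith
  · have h4 := h3.2 k
    simp only [dn_zero] at h4
    exact h4

theorem bd_fwd (hr : 1 ≤ r) (G : DiffM n N r) (e : N → V d) (x : N) (v : V n) :
    DN n G x v ∈ Bd n e G (G x) ↔ v ∈ Bd n e G x := by
  have key : ∀ k : ℕ, DE n e (G^[k] (G x)) (DN n (G^[k]) (G x) (DN n G x v)) =
      DE n e (G^[k + 1] x) (DN n (G^[k + 1]) x v) := fun k => by
    have h1 := dn_add hr G k 1 x v
    rw [h1]
    rfl
  constructor
  · rintro ⟨M, hM⟩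
    refine ⟨max M ‖DE n e x v‖, fun k => ?_⟩
    rcases k with _ | k
    · rw [dn_zero]
      exact le_max_right _ _
    · rw [← key]
      exact (hM k).trans (le_max_left _ _)
  · rintro ⟨M, hM⟩
    exact ⟨M, fun k => by rw [key]; exact hM _⟩

theorem bd_bwd (hr : 1 ≤ r) (G : DiffM n N r) (e : N → V d) (x : N) (v : V n) :
    DN n G x v ∈ Bd n e G.symm (G x) ↔ v ∈ Bd n e G.symm x := by
  have h := bd_fwd hr G.symm e (G x) (DN n G x v)
  rw [dn_symm hr G, show G.symm (G x) = x from G.symm_apply_apply x] at h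
  exact h.symm

theorem dn_surj (hr : 1 ≤ r) (G : DiffM n N r) (x : N) (w : V n) : ∃ v, DN n G x v = w := by
  have h := dn_symm' hr G (G x) w
  rw [show G.symm (G x) = x from G.symm_apply_apply x] at h
  exact ⟨_, h⟩

theorem map_fwd (hr : 1 ≤ r) (G : DiffM n N r) (e : N → V d) (x : N) :
    (Bd n e G x).map (DN n G x).toLinearMap = Bd n e G (G x) := by
  ext w
  constructor
  · rintro ⟨v, hv, rfl⟩
    exact (bd_fwd hr G e x v).2 hv
  · intro hw
    obtain ⟨v, rfl⟩ := dn_surj hr G x w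
    exact ⟨v, (bd_fwd hr G e x v).1 hw, rfl⟩

theorem map_bwd (hr : 1 ≤ r) (G : DiffM n N r) (e : N → V d) (x : N) :
    (Bd n e G.symm x).map (DN n G x).toLinearMap = Bd n e G.symm (G x) := by
  ext w
  constructor
  · rintro ⟨v, hv, rfl⟩
    exact (bd_bwd hr G e x v).2 hv
  · intro hw
    obtain ⟨v, rfl⟩ := dn_surj hr G x w
    exact ⟨v, (bd_bwd hr G e x v).1 hw, rfl⟩

/-- the increments along an orbit -/
theorem incr_sum (hr : 1 ≤ r) {G : DiffM n N r} {K : Set N} {e : N → V d}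
    {B : N → V d →L[ℝ] V d →L[ℝ] ℝ} (D : Dat n G K e B) {c : ℝ} (hc : 0 < c)
    (h1 : ∀ x ∈ K, ∀ v : V n,
      qform e B x v + c * ‖DE n e x v‖ ^ 2 ≤ qform e B (G x) (DN n G x v))
    {x : N} (hx : x ∈ K) (v : V n) (k : ℕ) : ∀ i < k,
      qform e B x v + c * ‖DE n e (G^[i] x) (DN n (G^[i]) x v)‖ ^ 2 ≤
        qform e B (G^[k] x) (DN n (G^[k]) x v) := by
  have mono : ∀ k, qform e B (G^[k] x) (DN n (G^[k]) x v) +
      c * ‖DE n e (G^[k] x) (DN n (G^[k]) x v)‖ ^ 2 ≤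
      qform e B (G^[k + 1] x) (DN n (G^[k + 1]) x v) := by
    intro k
    have := h1 _ (D.it hx k) (DN n (G^[k]) x v)
    rw [← dn_succ hr G, ← Function.iterate_succ_apply' G] at this
    exact this
  have mono' : Monotone fun k => qform e B (G^[k] x) (DN n (G^[k]) x v) := by
    refine monotone_nat_of_le_succ fun k => ?_
    have h2 := mono k
    have h3 : 0 ≤ c * ‖DE n e (G^[k] x) (DN n (G^[k]) x v)‖ ^ 2 := by positivity
    linarith
  intro i hi
  have h2 := mono i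
  have h3 : qform e B (G^[i + 1] x) (DN n (G^[i + 1]) x v) ≤
      qform e B (G^[k] x) (DN n (G^[k]) x v) := mono' (show i + 1 ≤ k by omega)
  have h4 : qform e B x v ≤ qform e B (G^[i] x) (DN n (G^[i]) x v) := by
    have := mono' (Nat.zero_le i)
    simp only [dn_zero] at this
    exact this
  linarith

/-- the solution of the cyclic equation along a periodic orbit -/
theorem per_solve (hr : 1 ≤ r) {G : DiffM n N r} {K : Set N} {e : N → V d}
    {B : N → V d →L[ℝ] V d →L[ℝ] ℝ} (D : Dat n G K e B) {c C : ℝ} (hc : 0 < c)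
    (hC0 : 0 < C) (h1 : ∀ x ∈ K, ∀ v : V n,
      qform e B x v + c * ‖DE n e x v‖ ^ 2 ≤ qform e B (G x) (DN n G x v))
    (h2 : ∀ x, ∀ u w : V d, |B x u w| ≤ C * (‖u‖ * ‖w‖)) {p : N} {m : ℕ} (hm : 1 ≤ m)
    (hp : G^[m] p = p) (hpK : p ∈ K) (u : V n) :
    ∃ s : V n, DN n (G^[m]) p s = s - u ∧ ∀ i < m,
      ‖DE n e (G^[i] p) (DN n (G^[i]) p s)‖ ^ 2 ≤
        C * (3 + 6 * C / c) / c * ‖DE n e p u‖ ^ 2 := by
  set A : V n →L[ℝ] V n := DN n (G^[m]) p with hA
  have hinj : Function.Injective (LinearMap.id - A.toLinearMap : V n →ₗ[ℝ] V n) := by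
    rw [← LinearMap.ker_eq_bot, LinearMap.ker_eq_bot']
    intro v hv
    have h3 : v = A v := by
      have : v - A v = 0 := hv
      exact sub_eq_zero.1 this
    have h4 := incr_sum hr D hc h1 hpK v m 0 (by omega)
    rw [hp, ← hA, ← h3, dn_zero] at h4
    have h5 : c * ‖DE n e p v‖ ^ 2 ≤ 0 := by
      have : c * ‖DE n e (G^[0] p) v‖ ^ 2 ≤ 0 := by linarith
      exact this
    have h6 : ‖DE n e p v‖ ^ 2 ≤ 0 := by
      by_contra hcon
      push Not at hcon
      have := mul_pos hc hcon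
      linarith
    have h7 : ‖DE n e p v‖ = 0 := by
      have := sq_nonneg ‖DE n e p v‖
      exact pow_eq_zero_iff (two_ne_zero) |>.1 (le_antisymm h6 this)
    exact D.inj p (by rw [norm_eq_zero.1 h7, map_zero])
  obtain ⟨s, hs⟩ := (LinearMap.injective_iff_surjective.1 hinj) u
  have hs' : A s = s - u := by
    have h3 : s - A s = u := hs
    rw [← h3]
    abel
  refine ⟨s, hs', fun i hi => ?_⟩
  -- the basic estimate
  have key : ∀ i < m, c * ‖DE n e (G^[i] p) (DN n (G^[i]) p s)‖ ^ 2 ≤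
      C * (2 * ‖DE n e p s‖ * ‖DE n e p u‖ + ‖DE n e p u‖ ^ 2) := by
    intro i hi
    have h3 := incr_sum hr D hc h1 hpK s m i hi
    rw [hp, ← hA, hs'] at h3
    have h4 : qform e B p (s - u) = qform e B p s -
        (B p (DE n e p s) (DE n e p u) + B p (DE n e p u) (DE n e p s)) +
        B p (DE n e p u) (DE n e p u) := by
      unfold qform
      simp only [map_sub, _root_.sub_apply]
      ring
    rw [h4] at h3
    have b1 := (abs_le.1 (h2 p (DE n e p s) (DE n e p u))).1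
    have b2 := (abs_le.1 (h2 p (DE n e p u) (DE n e p s))).1
    have b3 := (abs_le.1 (h2 p (DE n e p u) (DE n e p u))).2
    nlinarith
  set a := ‖DE n e p s‖ with ha
  set b := ‖DE n e p u‖ with hb
  have ha0 : 0 ≤ a := norm_nonneg _
  have hb0 : 0 ≤ b := norm_nonneg _
  have h3 : c * a ^ 2 ≤ C * (2 * a * b + b ^ 2) := by
    have := key 0 (by omega)
    rw [dn_zero] at this
    exact this
  have h4 : a ≤ (1 + 3 * C / c) * b := by
    rcases le_total a b with h5 | h5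
    · have : 0 ≤ 3 * C / c * b := by positivity
      nlinarith
    · have h6 : c * a ^ 2 ≤ 3 * C * b * a := by
        have : b ^ 2 ≤ a * b := by nlinarith
        nlinarith
      rcases eq_or_lt_of_le ha0 with h7 | h7
      · rw [← h7]; positivity
      · have h8 : c * a ≤ 3 * C * b := by
          have : (c * a) * a ≤ (3 * C * b) * a := by nlinarith
          exact le_of_mul_le_mul_right this h7
        have h9 : a ≤ 3 * C / c * b := by
          rw [div_mul_eq_mul_div, le_div_iff₀ hc]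
          linarith
        nlinarith
  have h5 := key i hi
  have h6 : C * (2 * a * b + b ^ 2) ≤ C * (3 + 6 * C / c) * b ^ 2 := by
    have : 2 * a * b ≤ 2 * ((1 + 3 * C / c) * b) * b := by
      have := mul_le_mul_of_nonneg_right h4 hb0
      linarith
    have h7 : 2 * a * b + b ^ 2 ≤ (3 + 6 * C / c) * b ^ 2 := by
      have e1 : 2 * ((1 + 3 * C / c) * b) * b + b ^ 2 = (3 + 6 * C / c) * b ^ 2 := by ring
      linarith
    have := mul_le_mul_of_nonneg_left h7 hC0.le
    linarith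
  calc ‖DE n e (G^[i] p) (DN n (G^[i]) p s)‖ ^ 2
      = (c * ‖DE n e (G^[i] p) (DN n (G^[i]) p s)‖ ^ 2) / c := by field_simp
    _ ≤ (C * (3 + 6 * C / c) * b ^ 2) / c := div_le_div_of_nonneg_right (h5.trans h6) hc.le
    _ = C * (3 + 6 * C / c) / c * b ^ 2 := by ring

theorem sup_top (hr : 1 ≤ r) {G : DiffM n N r} {K : Set N} {e : N → V d}
    {B : N → V d →L[ℝ] V d →L[ℝ] ℝ} (D : Dat n G K e B) {c C : ℝ} (hc : 0 < c)
    (hC0 : 0 < C) (h1 : ∀ x ∈ K, ∀ v : V n,
      qform e B x v + c * ‖DE n e x v‖ ^ 2 ≤ qform e B (G x) (DN n G x v))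
    (h2 : ∀ x, ∀ u w : V d, |B x u w| ≤ C * (‖u‖ * ‖w‖)) {x : N} (hx : x ∈ K) :
    Bd n e G x ⊔ Bd n e G.symm x = ⊤ := by
  have : SecondCountableTopology N := ChartedSpace.secondCountable_of_sigmaCompact (V n) N
  rw [eq_top_iff]
  rintro u -
  obtain ⟨p, hp, hlim⟩ := mem_closure_iff_seq_limit.1 (D.dense hx)
  have hpK : ∀ k, p k ∈ K := fun k => (hp k).2
  choose m hm1 hm2 using fun k => (hp k).1
  -- large periods
  have hM : ∀ k, G^[m k * (k + 1)] (p k) = p k := by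
    intro k
    rw [Function.iterate_mul]
    exact Function.iterate_fixed (hm2 k) _
  have hM1 : ∀ k, k + 1 ≤ m k * (k + 1) := fun k => Nat.le_mul_of_pos_left _ (hm1 k)
  have hM0 : ∀ k, 1 ≤ m k * (k + 1) := fun k => (Nat.le_add_left 1 k).trans (hM1 k)
  have hlat : ((hyperfilter ℕ : Ultrafilter ℕ) : Filter ℕ) ≤ atTop := by
    rw [← Nat.cofinite_eq_atTop]; exact hyperfilter_le_cofinite
  set l : Filter ℕ := ((hyperfilter ℕ : Ultrafilter ℕ) : Filter ℕ) with hl
  have hpl : Tendsto p l (𝓝 x) := hlim.mono_left hlat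
  -- the vectors `u k`
  have hu : ∀ k, ∃ w : V n, p k ∈ (extChartAt (𝓡 n) x).source → th x (p k) w = th x x u := by
    intro k
    by_cases hk : p k ∈ (extChartAt (𝓡 n) x).source
    · obtain ⟨w, hw⟩ := th_surj hk (th x x u)
      exact ⟨w, fun _ => hw⟩
    · exact ⟨0, fun h => absurd h hk⟩
  choose w hw using hu
  have hsrc : ∀ᶠ k in l, p k ∈ (extChartAt (𝓡 n) x).source :=
    hpl.eventually ((isOpen_extChartAt_source x).mem_nhds (mem_extChartAt_source (I := 𝓡 n) x))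
  have hwl : Tendsto (fun k => th x (p k) (w k)) l (𝓝 (th x x u)) := by
    refine tendsto_const_nhds.congr' ?_
    filter_upwards [hsrc] with k hk
    exact (hw k hk).symm
  choose s hs1 hs2 using fun k => per_solve hr D hc hC0 h1 h2 (hM0 k) (hM k) (hpK k) (w k)
  set R := C * (3 + 6 * C / c) / c with hR
  have hR0 : 0 ≤ R := by positivity
  -- the norms of the vectors `w k` are bounded
  have hwn := (hc_norm D.he1).lim hpl hwl
  set β := ‖DE n e x u‖ ^ 2 with hβ
  have hwb : ∀ᶠ k in l, ‖DE n e (p k) (w k)‖ ^ 2 ≤ β + 1 := by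
    filter_upwards [hwn.eventually (gt_mem_nhds (show β < β + 1 by linarith))] with k hk
    exact hk.le
  -- the coordinates of `s k` are bounded
  obtain ⟨W, hW, -, Λ, hΛ, hΛe⟩ := linv D.he1 D.inj x
  have hΛc : ContinuousAt Λ x := hΛ.continuousAt hW
  have hΛb : ∀ᶠ k in l, ‖Λ (p k)‖ ≤ ‖Λ x‖ + 1 ∧ p k ∈ W := by
    have a1 : ∀ᶠ y in 𝓝 x, ‖Λ y‖ < ‖Λ x‖ + 1 := hΛc.norm.eventually (gt_mem_nhds (by linarith))
    filter_upwards [hpl.eventually a1, hpl.eventually hW] with k k1 k2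
    exact ⟨k1.le, k2⟩
  set z : ℕ → V n := fun k => th x (p k) (s k) with hz
  have hzb : ∀ᶠ k in l, z k ∈ closedBall (0 : V n) ((‖Λ x‖ + 1) * (R * (β + 1) + 1)) := by
    filter_upwards [hΛb, hwb] with k k1 k2
    rw [mem_closedBall, dist_zero_right]
    have a1 : z k = Λ (p k) (DE n e (p k) (s k)) := (hΛe _ k1.2 _).symm
    have a2 := hs2 k 0 (hM0 k)
    rw [dn_zero] at a2
    have a3 : ‖DE n e (p k) (s k)‖ ^ 2 ≤ R * (β + 1) :=
      le_trans a2 (mul_le_mul_of_nonneg_left k2 hR0)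
    have a4 : ‖DE n e (p k) (s k)‖ ≤ R * (β + 1) + 1 := by
      nlinarith [sq_nonneg (‖DE n e (p k) (s k)‖ - 1), norm_nonneg (DE n e (p k) (s k))]
    rw [a1]
    refine ((Λ (p k)).le_opNorm _).trans ?_
    exact mul_le_mul k1.1 a4 (norm_nonneg _) (by positivity)
  obtain ⟨z₀, -, hz₀⟩ := (isCompact_closedBall (0 : V n)
    ((‖Λ x‖ + 1) * (R * (β + 1) + 1))).ultrafilter_le_nhds ((hyperfilter ℕ).map z) (by
      rw [Ultrafilter.coe_map, le_principal_iff]
      exact Filter.mem_map.2 hzb)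
  have hz₀' : Tendsto z l (𝓝 z₀) := hz₀
  obtain ⟨v, hv⟩ := th_surj (mem_extChartAt_source (I := 𝓡 n) x) z₀
  have hzl : Tendsto (fun k => th x (p k) (s k)) l (𝓝 (th x x v)) := by
    have hv' : th x x v = z₀ := hv
    rw [hv']
    exact hz₀'
  have hMl : ∀ j : ℕ, ∀ᶠ k in l, j < m k * (k + 1) := by
    intro j
    filter_upwards [hlat (eventually_ge_atTop j)] with k hk
    exact lt_of_lt_of_le (by omega) (hM1 k)
  -- the forward orbit
  have hfw : v ∈ Bd n e G x := by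
    refine ⟨R * (β + 1) + 1, fun j => ?_⟩
    have a1 := (hc_it hr G D.he1 j).lim hpl hzl
    have a2 : ‖DE n e (G^[j] x) (DN n (G^[j]) x v)‖ ^ 2 ≤ R * (β + 1) := by
      refine le_of_tendsto a1 ?_
      filter_upwards [hMl j, hwb] with k k1 k2
      exact (hs2 k j k1).trans (mul_le_mul_of_nonneg_left k2 hR0)
    nlinarith [sq_nonneg (‖DE n e (G^[j] x) (DN n (G^[j]) x v)‖ - 1),
      norm_nonneg (DE n e (G^[j] x) (DN n (G^[j]) x v))]
  -- the backward orbit
  have hzl2 : Tendsto (fun k => th x (p k) (s k - w k)) l (𝓝 (th x x (v - u))) := by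
    have := hzl.sub hwl
    simp only [← map_sub] at this
    exact this
  have hbw : v - u ∈ Bd n e G.symm x := by
    refine ⟨R * (β + 1) + 1 + ‖DE n e x (v - u)‖, fun j => ?_⟩
    rcases j with _ | j
    · rw [dn_zero]
      have : 0 ≤ R * (β + 1) + 1 := by positivity
      have h3 : ‖DE n e (G.symm^[0] x) (v - u)‖ = ‖DE n e x (v - u)‖ := rfl
      linarith
    · have a1 := (hc_it hr G.symm D.he1 (j + 1)).lim hpl hzl2
      have a2 : ‖DE n e (G.symm^[j + 1] x) (DN n (G.symm^[j + 1]) x (v - u))‖ ^ 2 ≤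
          R * (β + 1) := by
        refine le_of_tendsto a1 ?_
        filter_upwards [hMl (j + 1), hwb] with k k1 k2
        obtain ⟨i, hi⟩ : ∃ i, m k * (k + 1) = (j + 1) + i := ⟨m k * (k + 1) - (j + 1), by omega⟩
        have b1 : s k - w k = DN n (G^[j + 1]) (G^[i] (p k)) (DN n (G^[i]) (p k) (s k)) := by
          rw [← hs1 k, hi, dn_add hr G]
        have b2 : p k = G^[j + 1] (G^[i] (p k)) := by
          rw [← Function.iterate_add_apply, ← hi, hM k]
        have b3 : DN n (G.symm^[j + 1]) (p k) (s k - w k) = DN n (G^[i]) (p k) (s k) := by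
          have b4 := dn_symm_it hr G (j + 1) (G^[i] (p k)) (DN n (G^[i]) (p k) (s k))
          rw [← b1, ← b2] at b4
          exact b4
        have b5 : G.symm^[j + 1] (p k) = G^[i] (p k) := by
          conv_lhs => rw [b2]
          exact Function.LeftInverse.iterate (g := G.symm) (f := G)
            (fun z => G.symm_apply_apply z) (j + 1) _
        rw [b3, b5]
        exact (hs2 k i (by omega)).trans (mul_le_mul_of_nonneg_left k2 hR0)
      nlinarith [sq_nonneg (‖DE n e (G.symm^[j + 1] x) (DN n (G.symm^[j + 1]) x (v - u))‖ - 1),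
        norm_nonneg (DE n e (G.symm^[j + 1] x) (DN n (G.symm^[j + 1]) x (v - u))),
        norm_nonneg (DE n e x (v - u))]
  have hfin : u = v - (v - u) := by abel
  rw [hfin]
  exact Submodule.sub_mem _ (Submodule.mem_sup_left hfw) (Submodule.mem_sup_right hbw)

/-- **The hyperbolic splitting.** -/
theorem hyperbolic (hr : 1 ≤ r) {G : DiffM n N r} {K : Set N} {e : N → V d}
    {B : N → V d →L[ℝ] V d →L[ℝ] ℝ} (D : Dat n G K e B) : HyperbolicOn G K := by
  obtain ⟨c, C, hc, hc1, hC1, h1, h2, h0⟩ := D.consts hr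
  have hC0 : 0 < C := by linarith
  have hcC : c < C := by linarith
  have hcc : c * c < C := by nlinarith
  have hcc0 : 0 < c * c := mul_pos hc hc
  -- the constants
  set q : ℝ := 1 - c * c / C with hq
  have hq0 : 0 < q := by
    rw [hq, sub_pos, div_lt_one hC0]
    exact hcc
  have hq1 : q < 1 := by
    have : 0 < c * c / C := by positivity
    linarith
  have hqc : 1 - c / C ≤ q := by
    have : c * c / C ≤ c / C := by
      apply div_le_div_of_nonneg_right _ hC0.le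
      nlinarith
    linarith
  have hqc0 : 0 ≤ 1 - c / C := by
    rw [sub_nonneg, div_le_one hC0]
    exact hcC.le
  set R : ℝ := C / (c * c) with hR
  have hR0 : 0 < R := by positivity
  have hRc : C / c ≤ R := by
    rw [hR]
    apply div_le_div_of_nonneg_left hC0.le hcc0
    nlinarith
  have root : ∀ (k : ℕ) (y y₀ : ℝ), 0 ≤ y₀ → y ^ 2 ≤ R * q ^ k * y₀ ^ 2 →
      y ≤ Real.sqrt R * Real.sqrt q ^ k * y₀ := by
    intro k y y₀ hy₀ hy
    have h3 : (Real.sqrt R * Real.sqrt q ^ k * y₀) ^ 2 = R * q ^ k * y₀ ^ 2 := by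
      rw [mul_pow, mul_pow, Real.sq_sqrt hR0.le, ← pow_mul, mul_comm k 2, pow_mul,
        Real.sq_sqrt hq0.le]
    rw [← h3] at hy
    exact le_of_sq_le_sq hy (by positivity)
  refine ⟨d, e, fun x => Bd n e G x, fun x => Bd n e G.symm x, Real.sqrt R, Real.sqrt q, D.he,
    D.inj, Real.sqrt_pos.2 hR0, Real.sqrt_pos.2 hq0, ?_, fun x hx => ⟨⟨?_, ?_⟩, map_fwd hr G e x,
      map_bwd hr G e x, fun v hv k => ?_, fun v hv k => ?_⟩⟩
  · rw [Real.sqrt_lt' one_pos, one_pow]
    exact hq1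
  · rw [Submodule.disjoint_def]
    intro v hv hv'
    have a1 := (stable hr D hc hcC h1 h2 hx hv).1 1
    have a2 := (unstable hr D hc hc1 hC1 h1 h2 h0 hx hv').1
    have a3 := h1 x hx v
    have a4 : qform e B (G x) (DN n G x v) ≤ 0 := a1
    have a5 : c * ‖DE n e x v‖ ^ 2 ≤ 0 := by linarith
    have h6 : ‖DE n e x v‖ ^ 2 ≤ 0 := by
      by_contra hcon
      push Not at hcon
      have := mul_pos hc hcon
      linarith
    have h7 : ‖DE n e x v‖ = 0 := by
      have := sq_nonneg ‖DE n e x v‖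
      exact pow_eq_zero_iff (two_ne_zero) |>.1 (le_antisymm h6 this)
    exact D.inj x (by rw [norm_eq_zero.1 h7, map_zero])
  · rw [codisjoint_iff]
    exact sup_top hr D hc hC0 h1 h2 hx
  · refine root k _ _ (norm_nonneg _) (((stable hr D hc hcC h1 h2 hx hv).2 k).trans ?_)
    gcongr
  · exact root k _ _ (norm_nonneg _) ((unstable hr D hc hc1 hC1 h1 h2 h0 hx hv).2 k)

end Pool.Agent.H247.VE.KS
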