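import Pool.Agent.H247.VE.Stm2
import Pool.Agent.H247.VE.Main

/-!
# Project VE: the local parts of the class-wise version
-/

set_option autoImplicit false
set_option linter.unusedSectionVars false

open scoped Manifold ContDiff Topology
open Filter Set Metric

universe u

namespace Pool.Agent.H247.VE.Loc

open Pool.Agent.H718R2.G Pool.Agent.TH80.OMS Pool.Agent.Y504.CO Pool.Agent.H247.CB
open Pool.Agent.R774.OS Pool.Agent.K7.H85.KH Pool.Agent.H247.VE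
open Pool.Agent.Q182.MC (ChainTo cls)

section

variable {n : ℕ} {N : Type u} [MetricSpace N] [CompactSpace N]
  [ChartedSpace (V n) N] [IsManifold (𝓡 n) ∞ N]

theorem piece0 (hLOC : S_LOC.{u}) (hSEP : S_SEP.{u}) (hIT : S_IT.{u})
    (hCI : S_CI.{u}) {r : ℕ∞} (hr : 1 ≤ r) (F : DiffM n N r) {p : N}
    {m : ℕ} (hm : 1 ≤ m) (hpm : F^[m] p = p)
    (hψ : ∃ ψ ∈ IsManifold.maximalAtlas (𝓡 n) ∞ N, p ∈ ψ.source ∧
      AtMostOne (fderiv ℝ (fun v => ψ (F^[m] (ψ.symm v))) (ψ p))) :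
    ∃ O : Set N, IsOpen O ∧ p ∈ O ∧ ∀ W : Set N, W ⊆ CR (F : N → N) → IsClosed W →
      IsClosed (CR (F : N → N) \ W) → W ⊆ O → (∀ x ∈ W, F^[m] x ∈ W) →
      (∀ x ∈ CR (F : N → N) \ W, F^[m] x ∈ CR (F : N → N) \ W) →
      ∃ (O' : Set N) (U : Set (DiffM n N r)), IsOpen O' ∧ W ⊆ O' ∧ IsOpen[strongTop n N r] U ∧
      F ∈ U ∧ ∀ G ∈ U, ∀ z ∈ CR (G : N → N) ∩ O', G^[2 * m] z = z := by
  obtain ⟨O, c, U₁, hO, hpO, hc, hU₁, hFU₁, h1⟩ := hLOC n N r hr F p m hm hpm hψ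
  refine ⟨O, hO, hpO, fun W hWC hWc hCW hWO hWi hWi' => ?_⟩
  obtain ⟨O', hO', hWO', hO'O, ε, hε, h2⟩ := hSEP N F.toHomeomorph m hm W hWC hWc hCW
    hWi hWi' O hO hWO
  obtain ⟨U₂, hU₂, hFU₂, h3⟩ := Dif.close hCI hr F hε
  refine ⟨O', U₁ ∩ U₂, hO', hWO', @IsOpen.inter _ (strongTop n N r) _ _ hU₁ hU₂,
    ⟨hFU₁, hFU₂⟩, fun G hG z hz => ?_⟩
  obtain ⟨h4, h5, h6⟩ := h2 G.toHomeomorph (h3 G hG.2)
  have hKinv : ∀ x ∈ CR (G : N → N) ∩ O', G^[m] x ∈ CR (G : N → N) ∩ O' ∧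
      G.symm^[m] x ∈ CR (G : N → N) ∩ O' := h6
  have h7 := h1 G hG.1 (CR (G : N → N) ∩ O') (fun x hx => hO'O hx.2) hKinv
  have h8 : ∀ x ∈ CR (G : N → N) ∩ O', G^[2 * m] x ∈ CR (G : N → N) ∩ O' := by
    intro x hx
    rw [two_mul, Function.iterate_add_apply]
    exact (hKinv _ (hKinv x hx).1).1
  have h9 := hIT N (G : N → N) G.continuous (2 * m) (by omega) (CR (G : N → N) ∩ O')
    inter_subset_left h4 (by
      have e : CR (G : N → N) \ (CR (G : N → N) ∩ O') = CR (G : N → N) \ O' := by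
        ext x
        simp only [Set.mem_sdiff, mem_inter_iff]
        tauto
      rw [e]
      exact h5) h8 z hz
  exact CB.Top.mono h4 (hc.mono fun x hx => hO'O hx.2) h8 (fun x hx y hy => (h7 x hx y hy).1)
    (fun x hx y hy => (h7 x hx y hy).2) hz h9

/-- isolated parts from `S_SEP` -/
theorem sep_iso (hSEP : S_SEP.{u}) (hCI : S_CI.{u}) {r : ℕ∞} (hr : 1 ≤ r) (F : DiffM n N r)
    {P : Set N} (hPC : P ⊆ CR (F : N → N)) (hP : IsClosed P) (hP' : IsClosed (CR (F : N → N) \ P))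
    (hPF : ∀ y ∈ P, F y ∈ P) (hPF' : ∀ y ∈ CR (F : N → N) \ P, F y ∈ CR (F : N → N) \ P)
    {O : Set N} (hO : IsOpen O) (hPO : P ⊆ O) :
    ∃ (O' : Set N) (U : Set (DiffM n N r)), IsOpen O' ∧ P ⊆ O' ∧ O' ⊆ O ∧
      IsOpen[strongTop n N r] U ∧ F ∈ U ∧ ∀ G ∈ U, Iso G.toHomeomorph (CR (G : N → N) ∩ O') := by
  obtain ⟨O', hO', hPO', hO'O, ε, hε, h2⟩ := hSEP N F.toHomeomorph 1 le_rfl P hPC hP hP'
    hPF hPF' O hO hPO
  obtain ⟨U, hU, hFU, h3⟩ := Dif.close hCI hr F hε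
  refine ⟨O', U, hO', hPO', hO'O, hU, hFU, fun G hG => ?_⟩
  obtain ⟨h4, h5, h6⟩ := h2 G.toHomeomorph (h3 G hG)
  refine ⟨inter_subset_left, h4, ?_, fun x hx => (h6 x hx).1, fun x hx => (h6 x hx).2⟩
  have e : CR (G : N → N) \ (CR (G : N → N) ∩ O') = CR (G : N → N) \ O' := by
    ext x
    simp only [Set.mem_sdiff, mem_inter_iff]
    tauto
  exact e ▸ h5

theorem pieceE (hLOC : S_LOC.{u}) (hSEP : S_SEP.{u}) (hIT : S_IT.{u})
    (hCI : S_CI.{u}) (hEPS : S_EPS.{u}) (hORB : S_ORB.{u}) {r : ℕ∞} (hr : 1 ≤ r)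
    (F : DiffM n N r) {x : N} (hx : x ∈ CR (F : N → N)) {m : ℕ} (hm : 1 ≤ m) (hxm : F^[m] x = x)
    (hcls : ∀ y ∈ cls (F : N → N) univ x, ∃ i : ℕ, y = F^[i] x)
    (hA : ∀ i : ℕ, ∃ ψ ∈ IsManifold.maximalAtlas (𝓡 n) ∞ N, F^[i] x ∈ ψ.source ∧
      AtMostOne (fderiv ℝ (fun v => ψ (F^[m] (ψ.symm v))) (ψ (F^[i] x)))) :
    ∃ (O' : Set N) (U : Set (DiffM n N r)), IsOpen O' ∧ x ∈ O' ∧ IsOpen[strongTop n N r] U ∧
      F ∈ U ∧ ∀ G ∈ U, Iso G.toHomeomorph (CR (G : N → N) ∩ O') ∧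
        ∀ z ∈ CR (G : N → N) ∩ O', G^[2 * m] z = z := by
  classical
  obtain ⟨A, hAdef⟩ : ∃ A : Set N, A = {y | ∃ i : ℕ, y = F^[i] x} := ⟨_, rfl⟩
  have hper : ∀ y ∈ A, F^[m] y = y := by
    rw [hAdef]
    rintro y ⟨i, rfl⟩
    rw [← Function.iterate_add_apply, add_comm, Function.iterate_add_apply, hxm]
  have hAF : ∀ y ∈ A, F y ∈ A := by
    rw [hAdef]
    rintro y ⟨i, rfl⟩
    exact ⟨i + 1, (Function.iterate_succ_apply' F i x).symm⟩
  have hAx : x ∈ A := by rw [hAdef]; exact ⟨0, rfl⟩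
  have hAfin : A.Finite := by
    refine ((Finset.range m).image fun i => F^[i] x).finite_toSet.subset ?_
    rw [hAdef]
    rintro y ⟨i, rfl⟩
    rw [Finset.mem_coe, Finset.mem_image]
    refine ⟨i % m, Finset.mem_range.2 (Nat.mod_lt _ (by omega)), ?_⟩
    have h1 : F^[m * (i / m)] x = x :=
      Function.IsPeriodicPt.mul_const (show Function.IsPeriodicPt F m x from hxm) _
    conv_rhs => rw [← Nat.mod_add_div i m, Function.iterate_add_apply, h1]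
  have hloc : ∀ y : N, ∃ O : Set N, IsOpen O ∧ y ∈ O ∧ (y ∈ A → ∀ W : Set N,
      W ⊆ CR (F : N → N) → IsClosed W →
      IsClosed (CR (F : N → N) \ W) → W ⊆ O → (∀ x ∈ W, F^[m] x ∈ W) →
      (∀ x ∈ CR (F : N → N) \ W, F^[m] x ∈ CR (F : N → N) \ W) →
      ∃ (O' : Set N) (U : Set (DiffM n N r)), IsOpen O' ∧ W ⊆ O' ∧ IsOpen[strongTop n N r] U ∧
      F ∈ U ∧ ∀ G ∈ U, ∀ z ∈ CR (G : N → N) ∩ O', G^[2 * m] z = z) := by
    intro y
    by_cases hy : y ∈ A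
    · obtain ⟨O, h1, h2, h3⟩ := piece0 hLOC hSEP hIT hCI hr F hm (hper y hy) (by
        rw [hAdef] at hy
        obtain ⟨i, rfl⟩ := hy
        exact hA i)
      exact ⟨O, h1, h2, fun _ => h3⟩
    · exact ⟨univ, isOpen_univ, mem_univ _, fun h => absurd h hy⟩
  choose O hO hyO hW using hloc
  obtain ⟨O', hO', hdis, hstep⟩ := hORB N F.toHomeomorph A hAfin hAF O fun y _ => ⟨hO y, hyO y⟩
  have hstep' : ∀ y ∈ A, ∀ z ∈ A, ∀ w ∈ O' y, F w ∈ O' z → z = F y := hstep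
  have hopen : IsOpen (⋃ y ∈ A, O' y) := isOpen_biUnion fun y hy => (hO' y hy).1
  obtain ⟨P, hxP, hPO, hPC, hP, hP', hPF, hPF'⟩ := hEPS N F.toHomeomorph x hx (⋃ y ∈ A, O' y)
    hopen (by
      intro y hy
      have hyA : y ∈ A := by rw [hAdef]; exact hcls y hy
      exact mem_iUnion₂.2 ⟨y, hyA, (hO' y hyA).2.1⟩)
  have hPF1 : ∀ y ∈ P, F y ∈ P := hPF
  have hPF1' : ∀ y ∈ CR (F : N → N) \ P, F y ∈ CR (F : N → N) \ P := hPF'
  have hP1' : IsClosed (CR (F : N → N) \ P) := hP'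
  -- the parts of `P`
  have hmove : ∀ y ∈ A, ∀ w ∈ P ∩ O' y, F w ∈ P ∩ O' (F y) := by
    rintro y hy w ⟨hw1, hw2⟩
    have h1 := hPF1 w hw1
    obtain ⟨z, hz, hwz⟩ := mem_iUnion₂.1 (hPO h1)
    have h2 := hstep' y hy z hz w hw2 hwz
    rw [h2] at hwz
    exact ⟨h1, hwz⟩
  have hmoveA : ∀ k : ℕ, ∀ y ∈ A, F^[k] y ∈ A := by
    intro k
    induction k with
    | zero => exact fun y hy => hy
    | succ k ih =>
      intro y hy
      rw [Function.iterate_succ_apply]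
      exact ih _ (hAF y hy)
  have hmovek : ∀ k : ℕ, ∀ y ∈ A, ∀ w ∈ P ∩ O' y, F^[k] w ∈ P ∩ O' (F^[k] y) := by
    intro k
    induction k with
    | zero => exact fun y _ w hw => hw
    | succ k ih =>
      intro y hy w hw
      rw [Function.iterate_succ_apply, Function.iterate_succ_apply]
      exact ih _ (hAF y hy) _ (hmove y hy w hw)
  have hWc : ∀ y ∈ A, IsClosed (P ∩ O' y) := by
    intro y hy
    have e : P ∩ O' y = P \ ⋃ z ∈ A \ {y}, O' z := by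
      ext w
      constructor
      · rintro ⟨h1, h2⟩
        refine ⟨h1, fun h3 => ?_⟩
        obtain ⟨z, hz, hwz⟩ := mem_iUnion₂.1 h3
        exact Set.disjoint_left.1 (hdis y hy z hz.1 (fun h => hz.2 h.symm)) h2 hwz
      · rintro ⟨h1, h2⟩
        refine ⟨h1, ?_⟩
        obtain ⟨z, hz, hwz⟩ := mem_iUnion₂.1 (hPO h1)
        by_cases hzy : z = y
        · rw [← hzy]
          exact hwz
        · exact absurd (mem_iUnion₂.2 ⟨z, ⟨hz, hzy⟩, hwz⟩) h2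
    rw [e]
    exact hP.sdiff (isOpen_biUnion fun z hz => (hO' z hz.1).1)
  have hWc' : ∀ y ∈ A, IsClosed (CR (F : N → N) \ (P ∩ O' y)) := by
    intro y hy
    have e : CR (F : N → N) \ (P ∩ O' y) = (CR (F : N → N) \ P) ∪ (P \ O' y) := by
      ext w
      constructor
      · rintro ⟨h1, h2⟩
        by_cases hwP : w ∈ P
        · exact Or.inr ⟨hwP, fun h => h2 ⟨hwP, h⟩⟩
        · exact Or.inl ⟨h1, hwP⟩
      · rintro (⟨h1, h2⟩ | ⟨h1, h2⟩)
        · exact ⟨h1, fun h => h2 h.1⟩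
        · exact ⟨hPC h1, fun h => h2 h.2⟩
    rw [e]
    exact hP1'.union (hP.sdiff (hO' y hy).1)
  have hCk : ∀ k : ℕ, ∀ w ∈ CR (F : N → N), F^[k] w ∈ CR (F : N → N) := by
    intro k
    induction k with
    | zero => exact fun w hw => hw
    | succ k ih =>
      intro w hw
      rw [Function.iterate_succ_apply]
      exact ih _ (cr_fwd F.continuous hw)
  have hCPk : ∀ k : ℕ, ∀ w ∈ CR (F : N → N) \ P, F^[k] w ∈ CR (F : N → N) \ P := by
    intro k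
    induction k with
    | zero => exact fun w hw => hw
    | succ k ih =>
      intro w hw
      rw [Function.iterate_succ_apply]
      exact ih _ (hPF1' w hw)
  have hpc : ∀ y : N, ∃ (O'' : Set N) (U : Set (DiffM n N r)), IsOpen O'' ∧
      (y ∈ A → P ∩ O' y ⊆ O'') ∧ IsOpen[strongTop n N r] U ∧ F ∈ U ∧
      (y ∈ A → ∀ G ∈ U, ∀ z ∈ CR (G : N → N) ∩ O'', G^[2 * m] z = z) := by
    intro y
    by_cases hy : y ∈ A
    · obtain ⟨O'', U, h1, h2, h3, h4, h5⟩ := hW y hy (P ∩ O' y)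
        (inter_subset_left.trans hPC) (hWc y hy) (hWc' y hy)
        (inter_subset_right.trans (hO' y hy).2.2)
        (fun w hw => by
          have h6 := hmovek m y hy w hw
          rw [hper y hy] at h6
          exact h6)
        (fun w hw => by
          refine ⟨hCk m w hw.1, fun hcon => hw.2 ?_⟩
          have hwP : w ∈ P := by
            by_contra h
            exact (hCPk m w ⟨hw.1, h⟩).2 hcon.1
          obtain ⟨z, hz, hwz⟩ := mem_iUnion₂.1 (hPO hwP)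
          have h6 := (hmovek m z hz w ⟨hwP, hwz⟩).2
          rw [hper z hz] at h6
          by_cases hzy : z = y
          · rw [← hzy]
            exact ⟨hwP, hwz⟩
          · exact absurd hcon.2 (Set.disjoint_left.1 (hdis z hz y hy hzy) h6))
      exact ⟨O'', U, h1, fun _ => h2, h3, h4, fun _ => h5⟩
    · exact ⟨univ, univ, isOpen_univ, fun h => absurd h hy, @isOpen_univ _ (strongTop n N r),
        mem_univ _, fun h => absurd h hy⟩
  choose O'' U'' hO'' hPO'' hU'' hFU'' hfix using hpc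
  obtain ⟨O₁, U₁, hO₁, hPO₁, hO₁O, hU₁, hFU₁, hiso⟩ := sep_iso hSEP hCI hr F hPC hP hP1' hPF1
    hPF1' (O := ⋃ y ∈ A, O'' y) (isOpen_biUnion fun y _ => hO'' y) (by
      intro w hw
      obtain ⟨z, hz, hwz⟩ := mem_iUnion₂.1 (hPO hw)
      exact mem_iUnion₂.2 ⟨z, hz, hPO'' z hz ⟨hw, hwz⟩⟩)
  refine ⟨O₁, U₁ ∩ ⋂ y ∈ hAfin.toFinset, U'' y, hO₁, hPO₁ hxP,
    @IsOpen.inter _ (strongTop n N r) _ _ hU₁
      (@isOpen_biInter_finset _ _ (strongTop n N r) _ U'' fun y _ => hU'' y),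
    ⟨hFU₁, mem_iInter₂.2 fun y _ => hFU'' y⟩, fun G hG => ⟨hiso G hG.1, fun z hz => ?_⟩⟩
  obtain ⟨y, hy, hzy⟩ := mem_iUnion₂.1 (hO₁O hz.2)
  exact hfix y hy G (mem_iInter₂.1 hG.2 y (hAfin.mem_toFinset.2 hy)) z ⟨hz.1, hzy⟩

/-- chain classes are closed -/
theorem closed_cls (hEPS : S_EPS.{u}) (hCC2 : S_CC2.{u}) (F : N ≃ₜ N) {x : N}
    (hx : x ∈ CR (F : N → N)) : IsClosed (cls (F : N → N) univ x) := by
  have h1 : ∀ y : N, ∃ P : Set N, IsClosed P ∧ cls (F : N → N) univ x ⊆ P ∧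
      (y ∉ cls (F : N → N) univ x → y ∉ P) := by
    intro y
    by_cases hy : y ∈ cls (F : N → N) univ x
    · exact ⟨univ, isClosed_univ, subset_univ _, fun h => absurd hy h⟩
    · obtain ⟨P, hxP, hPO, hPC, hP, hP', hPF, hPF'⟩ := hEPS N F x hx {y}ᶜ
        isOpen_compl_singleton (fun z hz hzy => hy (hzy ▸ hz))
      have hiso : Iso F P := ⟨hPC, hP, hP', hPF, Main.back hPC hPF'⟩
      refine ⟨P, hP, fun z hz => ?_, fun _ h => hPO h rfl⟩
      obtain ⟨p, s, k, -, -, h3, -, -, h4⟩ := hCC2 N F P hiso x hxP z hz 1 one_pos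
      rw [← h4]
      exact h3 k
  choose P hP hxP hyP using h1
  have e : cls (F : N → N) univ x = ⋂ y, P y := by
    ext z
    refine ⟨fun hz => mem_iInter.2 fun y => hxP y hz, fun hz => ?_⟩
    by_contra h
    exact hyP z h (mem_iInter.1 hz z)
  rw [e]
  exact isClosed_iInter hP

end

end Pool.Agent.H247.VE.Loc
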