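import Pool.Agent.H247.VE.ClsFin

/-!
# Project VE: the relative version (off an open set)
-/

set_option autoImplicit false
set_option linter.unusedSectionVars false

open scoped Manifold ContDiff Topology
open Filter Set Metric MeasureTheory

universe u

namespace Pool.Agent.H247.VE

open Pool.Agent.H728R2.FA (omegaLim FiniteAttractors IsAttractor)

/-- finitely many classes give finitely many attractors -/
theorem attractors_of_classesOff {X : Type u} [TopologicalSpace X] [MeasurableSpace X]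
    {μ : Measure X} {g : X → X} {V : Set X} {S : Set (Set X)} (h : ClassesOff μ g V S) :
    FiniteAttractorsOff μ g V := by
  classical
  have := h.finite.fintype
  let I := {C : S // 0 < μ {p | omegaLim g p ⊆ C.1}}
  let e := Fintype.equivFin I
  refine ⟨Fintype.card I, fun i => (e.symm i).1.1, fun i => ⟨?_, ?_, (e.symm i).2⟩, ?_⟩
  · exact h.invariant _ (e.symm i).1.2
  · exact h.transitive _ (e.symm i).1.2
  · have hsub : {p | ¬ omegaLim g p ⊆ V ∧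
        ∀ i : Fin (Fintype.card I), ¬ omegaLim g p ⊆ (e.symm i).1.1} ⊆
        {p | ¬ omegaLim g p ⊆ V ∧ ∀ C ∈ S, ¬ omegaLim g p ⊆ C} ∪
        ⋃ C ∈ {C : S | μ {p | omegaLim g p ⊆ C.1} = 0}, {p | omegaLim g p ⊆ C.1} := by
      rintro p ⟨hpV, hp⟩
      by_cases hc : ∃ C ∈ S, omegaLim g p ⊆ C
      · obtain ⟨C, hC, hpC⟩ := hc
        right
        refine mem_iUnion₂.2 ⟨⟨C, hC⟩, ?_, hpC⟩
        by_contra hne
        have h1 : 0 < μ {p | omegaLim g p ⊆ C} := pos_iff_ne_zero.2 hne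
        refine hp (e ⟨⟨C, hC⟩, h1⟩) ?_
        rw [e.symm_apply_apply]
        exact hpC
      · exact Or.inl ⟨hpV, fun C hC hpC => hc ⟨C, hC, hpC⟩⟩
    refine measure_mono_null hsub ?_
    rw [measure_union_null_iff]
    refine ⟨h.ae, ?_⟩
    rw [measure_biUnion_null_iff (Set.to_countable _)]
    exact fun C hC => hC

end Pool.Agent.H247.VE

namespace Pool.Agent.H247.VE.Cls

open Pool.Agent.H718R2.G Pool.Agent.TH80.OMS Pool.Agent.Y504.CO Pool.Agent.H247.CB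
open Pool.Agent.R774.OS Pool.Agent.K7.H85.KH Pool.Agent.H247.VE Pool.Agent.H247.SD
open Pool.Agent.Q182.MC (ChainTo cls cls_inv)
open Pool.Agent.H728R2.FA (omegaLim FiniteAttractors)
open Pool.Agent.H974.VE.AT (mem_CR_of_chain)

section

variable {n : ℕ} {N : Type u} [MetricSpace N] [CompactSpace N]
  [ChartedSpace (V n) N] [IsManifold (𝓡 n) ∞ N]

/-- the covering statement -/
theorem cover_rel (hLOC : S_LOC.{u}) (hSEP : S_SEP.{u}) (hIT : S_IT.{u}) (hPI : S_PI.{u})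
    (hUSC : S_USC.{u}) (hFM : S_FM.{u}) (hNB : S_NB.{u}) (hHD : S_HD.{u})
    (hCI : S_CI.{u}) (hEPS : S_EPS.{u}) (hORB : S_ORB.{u}) (hCC2 : S_CC2.{u}) (hVL : S_VL.{u})
    [MeasurableSpace N] [BorelSpace N] (μ : Measure N) [IsFiniteMeasure μ]
    {r : ℕ∞} (hr : 1 ≤ r) (F : DiffM n N r) {d : ℕ} {e : N → V d}
    (he : ContMDiff (𝓡 n) (𝓡 d) ∞ e) (hinj : ∀ x, Function.Injective (DE n e x))
    {TyD : N → Prop}
    (hD : ∀ x, TyD x → ∃ m : ℕ, ∀ y ∈ cls (F : N → N) univ x, ExpandsAt n μ (F^[m]) y)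
    {V₀ : Set N} (hV₀ : IsOpen V₀)
    (hty : ∀ x ∈ CR (F : N → N), x ∉ V₀ → TyL F e x ∨ TyE F x ∨ TyD x) :
    ∃ (t : Finset N) (O' : N → Set N) (U W : Set (DiffM n N r)), IsOpen[strongTop n N r] U ∧
      F ∈ U ∧ IsOpen[strongTop n N r] W ∧ W ⊆ U ∧
      (∀ U' ⊆ U, IsOpen[strongTop n N r] U' → U'.Nonempty → (U' ∩ W).Nonempty) ∧
      ((∀ x ∈ CR (F : N → N), x ∉ V₀ → TyL F e x ∨ TyD x) → W = U) ∧
      (∀ x ∈ t, x ∈ CR (F : N → N)) ∧
      (∀ x, IsOpen (O' x)) ∧ ∀ G ∈ W, CR (G : N → N) ⊆ V₀ ∪ ⋃ x ∈ t, O' x ∧ ∀ x ∈ t,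
        Iso G.toHomeomorph (CR (G : N → N) ∩ O' x) ∧
        (Incr G e (CR (G : N → N) ∩ O' x) ∨ ((¬ TyL F e x ∧ TyD x) ∧ Expn μ G (O' x))) := by
  classical
  have hloc : ∀ x : N, ∃ (O' : Set N) (U : Set (DiffM n N r)) (q : ℕ), IsOpen O' ∧ x ∈ O' ∧
      IsOpen[strongTop n N r] U ∧ F ∈ U ∧ 1 ≤ q ∧ (x ∈ CR (F : N → N) \ V₀ →
      ∀ G ∈ U, Iso G.toHomeomorph (CR (G : N → N) ∩ O') ∧
        (Incr G e (CR (G : N → N) ∩ O') ∨
          ((¬ TyL F e x ∧ ¬ TyD x) ∧ ∀ z ∈ CR (G : N → N) ∩ O', G^[q] z = z) ∨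
          ((¬ TyL F e x ∧ TyD x) ∧ Expn μ G O'))) := by
    intro x
    by_cases hx : x ∈ CR (F : N → N) \ V₀
    · obtain ⟨O', U, q, h1, h2, h3, h4, h5, h6⟩ := local_piece hLOC hSEP hIT hPI hCI hEPS hORB
        hCC2 hVL μ hr F he hD hx.1 (hty x hx.1 hx.2)
      exact ⟨O', U, q, h1, h2, h3, h4, h5, fun _ => h6⟩
    · exact ⟨univ, univ, 1, isOpen_univ, mem_univ _, @isOpen_univ _ (strongTop n N r),
        mem_univ _, le_rfl, fun h => absurd h hx⟩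
  choose O' U' q' hO' hxO' hU' hFU' hq' hG using hloc
  have hKc : IsClosed (CR (F : N → N) \ V₀) := (isClosed_CR F.continuous).inter hV₀.isClosed_compl
  obtain ⟨t, htC, ht⟩ := hKc.isCompact.elim_nhds_subcover O' fun x _ =>
    (hO' x).mem_nhds (hxO' x)
  have ht' : CR (F : N → N) ⊆ V₀ ∪ ⋃ x ∈ t, O' x := fun y hy => by
    by_cases hyV : y ∈ V₀
    · exact Or.inl hyV
    · exact Or.inr (ht ⟨hy, hyV⟩)
  obtain ⟨ε, hε, h3⟩ := hUSC N F.toHomeomorph (V₀ ∪ ⋃ x ∈ t, O' x)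
    (hV₀.union (isOpen_biUnion fun x _ => hO' x)) ht'
  obtain ⟨U₂, hU₂, hFU₂, h4⟩ := Dif.close hCI hr F hε
  set q : ℕ := t.prod q' with hq
  have hq1 : 1 ≤ q := by
    rw [hq]
    exact Nat.one_le_iff_ne_zero.2 (Finset.prod_ne_zero_iff.2 fun x _ => by
      have := hq' x
      omega)
  set U : Set (DiffM n N r) := U₂ ∩ ⋂ x ∈ t, U' x with hUdef
  have hUo : IsOpen[strongTop n N r] U := @IsOpen.inter _ (strongTop n N r) _ _ hU₂
    (@isOpen_biInter_finset _ _ (strongTop n N r) t U' fun x _ => hU' x)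
  obtain ⟨Fl, hFl⟩ : ∃ Fl : Prop, Fl = ∃ x ∈ CR (F : N → N) \ V₀,
    ¬ TyL F e x ∧ ¬ TyD x := ⟨_, rfl⟩
  set W : Set (DiffM n N r) := U ∩ {G | Fl → HypK n q G} with hWdef
  have hWo : IsOpen[strongTop n N r] W := by
    by_cases hne : Fl
    · have : W = U ∩ {G | HypK n q G} := by
        rw [hWdef]
        ext G
        exact ⟨fun h => ⟨h.1, h.2 hne⟩, fun h => ⟨h.1, fun _ => h.2⟩⟩
      rw [this]
      exact @IsOpen.inter _ (strongTop n N r) _ _ hUo (KSG.isOpen_hypK hCI hNB hr q)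
    · have : W = U := by
        rw [hWdef]
        ext G
        exact ⟨fun h => h.1, fun h => ⟨h, fun h' => absurd h' hne⟩⟩
      rw [this]
      exact hUo
  refine ⟨t, O', U, W, hUo, ⟨hFU₂, mem_iInter₂.2 fun x _ => hFU' x⟩, hWo, inter_subset_left,
    ?_, ?_, fun x hx => (htC x hx).1, hO', ?_⟩
  · rintro V₁ hVU hV₁ ⟨G₀, hG₀⟩
    obtain ⟨G, hG, hGK⟩ := hHD n N r hr q hq1 G₀ V₁ hV₁ hG₀
    exact ⟨G, hG, hVU hG, fun _ => hGK⟩
  · intro hall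
    rw [hWdef]
    ext G
    refine ⟨fun h => h.1, fun h => ⟨h, fun h' => ?_⟩⟩
    rw [hFl] at h'
    obtain ⟨x, hx, h1, h2⟩ := h'
    exact absurd (hall x hx.1 hx.2) (fun h => h.elim h1 h2)
  rintro G ⟨⟨hG2, hG3⟩, hGK⟩
  refine ⟨h3 G.toHomeomorph (h4 G hG2), fun x hx => ?_⟩
  obtain ⟨k1, k2⟩ := hG x (htC x hx) G (mem_iInter₂.1 hG3 x hx)
  refine ⟨k1, ?_⟩
  rcases k2 with k2 | ⟨k2, k3⟩ | k2
  · exact Or.inl k2
  · left
    have hK : HypK n q G := hGK (by rw [hFl]; exact ⟨x, htC x hx, k2⟩)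
    have hfix : ∀ z ∈ CR (G : N → N) ∩ O' x, G^[q] z = z := by
      intro z hz
      obtain ⟨l, hl⟩ : q' x ∣ q := Finset.dvd_prod_of_mem q' hx
      rw [hl, Function.iterate_mul]
      exact Function.iterate_fixed (k3 z hz) l
    obtain ⟨B', hB', hinc⟩ := hFM n N r hr G d e he hinj (fun _ => 0) continuous_const ∅
      isClosed_empty (fun x hx => absurd hx (notMem_empty x))
      (fun x hx => absurd hx (notMem_empty x)) (CR (G : N → N) ∩ O' x)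
      ((Dif.finite_fix hr G hK).subset fun z hz => hfix z hz) (disjoint_bot_left)
      (fun z hz => k1.fwd z hz) (fun z hz => ⟨⟨q, hq1, hfix z hz⟩,
        Dif.hypAt_of_hypK hr G hq1 hK (hfix z hz)⟩)
    exact ⟨B', hB', fun z hz v hv => hinc z (Or.inr hz) v hv⟩
  · exact Or.inr k2

/-- the conclusion on the classes -/
theorem classesOff (hCC2 : S_CC2.{u}) (hPD2 : S_PD2.{u}) (hPO2 : S_PO2.{u})
    (hFC2 : S_FC2.{u}) (hTR2 : S_TR2.{u}) (hNP : S_NP.{u}) [MeasurableSpace N] [BorelSpace N]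
    (μ : Measure N) [IsFiniteMeasure μ] (hμ : SmoothMeasure n μ) {r : ℕ∞} (hr : 1 ≤ r)
    (G : DiffM n N r) {d : ℕ} {e : N → V d}
    (he : ContMDiff (𝓡 n) (𝓡 d) ∞ e) (hei : Function.Injective e)
    {t : Finset N} {O' : N → Set N} (hO' : ∀ x, IsOpen (O' x))
    {V₀ : Set N} (hcov : CR (G : N → N) ⊆ V₀ ∪ ⋃ x ∈ t, O' x)
    (hiso : ∀ x ∈ t, Iso G.toHomeomorph (CR (G : N → N) ∩ O' x))
    (hkind : ∀ x ∈ t, Incr G e (CR (G : N → N) ∩ O' x) ∨ Expn μ G (O' x)) :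
    ∃ S : Set (Set N), ClassesOff μ (G : N → N) V₀ S ∧
      ((∀ x ∈ t, Incr G e (CR (G : N → N) ∩ O' x)) →
        ∀ p, omegaLim (G : N → N) p ⊆ V₀ ∨ ∃ C ∈ S, omegaLim (G : N → N) p ⊆ C) := by
  classical
  have hsp := fun x (hx : x ∈ t) (h : Incr G e (CR (G : N → N) ∩ O' x)) =>
    spectral_piece hCC2 hPD2 hPO2 hFC2 hTR2 hr G he hei (hiso x hx) h
  have hsub : ∀ x ∈ t, ∀ a ∈ CR (G : N → N) ∩ O' x,
      cls (G : N → N) univ a ⊆ CR (G : N → N) ∩ O' x := by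
    intro x hx a ha c hc
    obtain ⟨p, s, k, -, -, h3, -, -, h4⟩ :=
      hCC2 N G.toHomeomorph _ (hiso x hx) a ha c hc 1 one_pos
    rw [← h4]
    exact h3 k
  have hZ : ∀ x : N, ∃ Z : Set N, μ Z = 0 ∧ (x ∈ t → Expn μ G (O' x) →
      ∀ p, omegaLim (G : N → N) p ⊆ O' x → p ∈ Z) := by
    intro x
    by_cases hx : x ∈ t ∧ Expn μ G (O' x)
    · obtain ⟨m, lam, hlam, hex⟩ := hx.2
      obtain ⟨Z, h1, h2⟩ := null_of_expand μ G.toHomeomorph (hO' x) hlam hex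
        (fun B hB h0 => hNP n N μ r hr hμ G B hB h0)
      exact ⟨Z, h1, fun _ _ => h2⟩
    · exact ⟨∅, measure_empty, fun h1 h2 => absurd ⟨h1, h2⟩ hx⟩
  choose Z hZ0 hZp using hZ
  have key : ∀ p : N, omegaLim (G : N → N) p ⊆ V₀ ∨
      (∃ x ∈ t, Incr G e (CR (G : N → N) ∩ O' x) ∧ ∃ a ∈ CR (G : N → N) ∩ O' x,
      omegaLim (G : N → N) p ⊆ cls (G : N → N) univ a) ∨
      (∃ x ∈ t, ¬ Incr G e (CR (G : N → N) ∩ O' x) ∧ p ∈ Z x) := by
    intro p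
    by_cases hpV : omegaLim (G : N → N) p ⊆ V₀
    · exact Or.inl hpV
    right
    obtain ⟨a, ha, haV⟩ := not_subset.1 hpV
    have hch : ∀ b ∈ omegaLim (G : N → N) p, ∀ c ∈ omegaLim (G : N → N) p,
        ChainTo (G : N → N) univ b c := fun b hb c hc =>
      Pool.Agent.Q182.MC.omega_chain G.toHomeomorph p (subset_univ _) hb hc
    have haC : a ∈ CR (G : N → N) := mem_CR_of_chain (hch a ha a ha)
    have hacls : omegaLim (G : N → N) p ⊆ cls (G : N → N) univ a := fun b hb =>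
      ⟨hch a ha b hb, hch b hb a ha⟩
    obtain ⟨x, hx, hax⟩ := mem_iUnion₂.1 ((hcov haC).resolve_left haV)
    by_cases hI : Incr G e (CR (G : N → N) ∩ O' x)
    · exact Or.inl ⟨x, hx, hI, a, ⟨haC, hax⟩, hacls⟩
    · refine Or.inr ⟨x, hx, hI, hZp x hx ((hkind x hx).resolve_left hI) p ?_⟩
      exact hacls.trans ((hsub x hx a ⟨haC, hax⟩).trans inter_subset_right)
  refine ⟨{C | ∃ x ∈ t, Incr G e (CR (G : N → N) ∩ O' x) ∧ ∃ a ∈ CR (G : N → N) ∩ O' x,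
    C = cls (G : N → N) univ a}, ⟨?_, ?_, ?_, ?_, ?_, ?_⟩, ?_⟩
  · have e1 : {C | ∃ x ∈ t, Incr G e (CR (G : N → N) ∩ O' x) ∧ ∃ a ∈ CR (G : N → N) ∩ O' x,
        C = cls (G : N → N) univ a} ⊆ ⋃ x ∈ t.filter (fun x => Incr G e (CR (G : N → N) ∩ O' x)),
        {C | ∃ a ∈ CR (G : N → N) ∩ O' x, C = cls (G : N → N) univ a} := by
      rintro C ⟨x, hx, hI, hC⟩
      exact mem_iUnion₂.2 ⟨x, Finset.mem_filter.2 ⟨hx, hI⟩, hC⟩
    refine Set.Finite.subset ?_ e1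
    refine Set.Finite.biUnion (Finset.finite_toSet _) fun x hx => ?_
    obtain ⟨h1, h2⟩ := Finset.mem_filter.1 hx
    exact (hsp x h1 h2).1
  · rintro C ⟨-, -, -, a, -, rfl⟩ C' ⟨-, -, -, a', -, rfl⟩ hne
    rw [Set.disjoint_left]
    intro x hx hx'
    apply hne
    ext y
    exact ⟨fun hy => ⟨hx'.1.trans (hx.2.trans hy.1), hy.2.trans (hx.1.trans hx'.2)⟩,
      fun hy => ⟨hx.1.trans (hx'.2.trans hy.1), hy.2.trans (hx'.1.trans hx.2)⟩⟩
  · rintro C ⟨x, hx, hI, a, ha, rfl⟩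
    exact (hsp x hx hI).2.2.1 a ha
  · rintro C ⟨x, hx, hI, a, ha, rfl⟩
    exact Pool.Agent.Q182.MC.cls_inv (K := univ) G.toHomeomorph (fun _ _ => mem_univ _)
      (fun _ _ => mem_univ _) a
  · rintro C ⟨x, hx, hI, a, ha, rfl⟩
    exact (hsp x hx hI).2.2.2 a ha
  · refine measure_mono_null (t := ⋃ x ∈ t, Z x) (fun p hp => ?_) ?_
    · rcases key p with h | ⟨x, hx, hI, a, ha, h⟩ | ⟨x, hx, -, h⟩
      · exact absurd h hp.1
      · exact absurd h (hp.2 _ ⟨x, hx, hI, a, ha, rfl⟩)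
      · exact mem_iUnion₂.2 ⟨x, hx, h⟩
    · exact (measure_biUnion_null_iff (I := (t : Set N)) t.countable_toSet).2 fun x _ => hZ0 x
  · intro hall p
    rcases key p with h | ⟨x, hx, hI, a, ha, h⟩ | ⟨x, hx, h, -⟩
    · exact Or.inl h
    · exact Or.inr ⟨_, ⟨x, hx, hI, a, ha, rfl⟩, h⟩
    · exact absurd (hall x hx) h


end

end Pool.Agent.H247.VE.Cls
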