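import Pool.Agent.H247.VE.RelFin
import Pool.Agent.H247.VE.KS

/-!
# Project VE: hyperbolicity off an open set
-/

set_option autoImplicit false
set_option linter.unusedSectionVars false

open scoped Manifold ContDiff Topology
open Filter Set Metric MeasureTheory

universe u

namespace Pool.Agent.H247.VE.Cls

open Pool.Agent.H718R2.G Pool.Agent.TH80.OMS Pool.Agent.Y504.CO Pool.Agent.H247.CB
open Pool.Agent.R774.OS Pool.Agent.K7.H85.KH Pool.Agent.H247.VE Pool.Agent.H247.SD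
open Pool.Agent.Q182.MC (ChainTo cls cls_inv)

section

variable {n : ℕ} {N : Type u} [MetricSpace N] [CompactSpace N]
  [ChartedSpace (V n) N] [IsManifold (𝓡 n) ∞ N]

theorem incr_union {r : ℕ∞} (G : DiffM n N r) {d : ℕ} {e : N → V d}
    {t : Finset N} {O' : N → Set N}
    (hiso : ∀ x ∈ t, Iso G.toHomeomorph (CR (G : N → N) ∩ O' x))
    (hI : ∀ x ∈ t, Incr G e (CR (G : N → N) ∩ O' x)) :
    Iso G.toHomeomorph (⋃ x ∈ t, CR (G : N → N) ∩ O' x) ∧
      Incr G e (⋃ x ∈ t, CR (G : N → N) ∩ O' x) := by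
  classical
  have key : ∀ s : Finset N, s ⊆ t → IsClosed (⋃ x ∈ s, CR (G : N → N) ∩ O' x) ∧
      IsClosed (CR (G : N → N) \ ⋃ x ∈ s, CR (G : N → N) ∩ O' x) ∧
      (∀ y ∈ ⋃ x ∈ s, CR (G : N → N) ∩ O' x, G y ∈ ⋃ x ∈ s, CR (G : N → N) ∩ O' x) ∧
      (∀ y ∈ ⋃ x ∈ s, CR (G : N → N) ∩ O' x, G.symm y ∈ ⋃ x ∈ s, CR (G : N → N) ∩ O' x) ∧
      Incr G e (⋃ x ∈ s, CR (G : N → N) ∩ O' x) := by
    intro s
    induction s using Finset.induction_on with
    | empty =>
      intro _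
      simp only [Finset.notMem_empty, iUnion_of_empty, iUnion_empty, sdiff_empty]
      exact ⟨isClosed_empty, isClosed_CR G.continuous, fun y hy => absurd hy (notMem_empty y),
        fun y hy => absurd hy (notMem_empty y), fun _ => 0, continuous_const,
        fun y hy => absurd hy (notMem_empty y)⟩
    | insert x s hxs ih =>
      intro hst
      obtain ⟨i1, i2, i3, i4, i5⟩ := ih ((Finset.subset_insert x s).trans hst)
      have hxt : x ∈ t := hst (Finset.mem_insert_self x s)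
      have k := hiso x hxt
      rw [Finset.set_biUnion_insert]
      set A : Set N := ⋃ x ∈ s, CR (G : N → N) ∩ O' x with hA
      have kf : ∀ y ∈ CR (G : N → N) ∩ O' x, G y ∈ CR (G : N → N) ∩ O' x := k.fwd
      have kb : ∀ y ∈ CR (G : N → N) ∩ O' x, G.symm y ∈ CR (G : N → N) ∩ O' x := k.bwd
      have kc : IsClosed (CR (G : N → N) \ (CR (G : N → N) ∩ O' x)) := k.cl'
      have c1 : IsClosed ((CR (G : N → N) ∩ O' x) ∩ (CR (G : N → N) \ A)) := k.cl.inter i2
      have c2 : Disjoint A ((CR (G : N → N) ∩ O' x) ∩ (CR (G : N → N) \ A)) := by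
        rw [Set.disjoint_left]
        exact fun y hy hy' => hy'.2.2 hy
      have c3 : ∀ y ∈ (CR (G : N → N) ∩ O' x) ∩ (CR (G : N → N) \ A),
          G y ∈ (CR (G : N → N) ∩ O' x) ∩ (CR (G : N → N) \ A) := by
        rintro y ⟨hy1, hy2⟩
        refine ⟨kf y hy1, (kf y hy1).1, fun hcon => hy2.2 ?_⟩
        have := i4 _ hcon
        rwa [G.symm_apply_apply] at this
      have c4 : Incr G e ((CR (G : N → N) ∩ O' x) ∩ (CR (G : N → N) \ A)) := by
        obtain ⟨B, hB, hinc⟩ := hI x hxt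
        exact ⟨B, hB, fun y hy v hv => hinc y hy.1 v hv⟩
      have c5 := glue2 G i1 c1 c2 i3 c3 i5 c4
      have e1 : A ∪ ((CR (G : N → N) ∩ O' x) ∩ (CR (G : N → N) \ A)) =
          (CR (G : N → N) ∩ O' x) ∪ A := by
        ext y
        constructor
        · rintro (h | h)
          · exact Or.inr h
          · exact Or.inl h.1
        · rintro (h | h)
          · by_cases hyA : y ∈ A
            · exact Or.inl hyA
            · exact Or.inr ⟨h, h.1, hyA⟩
          · exact Or.inl h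
      rw [e1] at c5
      refine ⟨k.cl.union i1, ?_, ?_, ?_, c5⟩
      · have e2 : CR (G : N → N) \ ((CR (G : N → N) ∩ O' x) ∪ A) =
            (CR (G : N → N) \ (CR (G : N → N) ∩ O' x)) ∩ (CR (G : N → N) \ A) := by
          ext y
          simp only [Set.mem_sdiff, mem_union, mem_inter_iff]
          tauto
        rw [e2]
        exact kc.inter i2
      · rintro y (h | h)
        · exact Or.inl (kf y h)
        · exact Or.inr (i3 y h)
      · rintro y (h | h)
        · exact Or.inl (kb y h)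
        · exact Or.inr (i4 y h)
  obtain ⟨j1, j2, j3, j4, j5⟩ := key t le_rfl
  exact ⟨⟨iUnion₂_subset fun x _ => inter_subset_left, j1, j2, j3, j4⟩, j5⟩


theorem hyp_of_incr (hPD2 : S_PD2.{u}) {r : ℕ∞} (hr : 1 ≤ r) (G : DiffM n N r) {d : ℕ}
    {e : N → V d} (he : ContMDiff (𝓡 n) (𝓡 d) ∞ e) (hinj : ∀ x, Function.Injective (DE n e x))
    {K : Set N} (hK : Iso G.toHomeomorph K) (hI : Incr G e K) :
    K ⊆ closure (Prd (G : N → N) ∩ K) ∧ HyperbolicOn G K := by
  obtain ⟨B, hB, hT⟩ := hI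
  have he1 : ContMDiff (𝓡 n) (𝓡 d) 1 e := he.of_le (by exact_mod_cast le_top)
  have hSh : Sh (G : N → N) K :=
    Pool.Agent.H342.SD.main n N r hr G d e B _ (Pool.Agent.H247.VE.hypSet he1 hB hK.cl hK.fwd hT)
  have h1 : K ⊆ closure {p | p ∈ K ∧ ∃ k : ℕ, 1 ≤ k ∧ (G.toHomeomorph : N → N)^[k] p = p} :=
    hPD2 N G.toHomeomorph K hK hSh
  have h2 : K ⊆ closure (Prd (G : N → N) ∩ K) :=
    h1.trans (closure_mono fun p hp => ⟨hp.2, hp.1⟩)
  refine ⟨h2, Pool.Agent.H247.VE.KS.hyperbolic hr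
    (d := d) (e := e) (B := B) (K := K)
    { he := he
      inj := hinj
      hB := hB
      cl := hK.cl
      fwd := hK.fwd
      bwd := hK.bwd
      incr := hT
      dense := h2 }⟩

end

end Pool.Agent.H247.VE.Cls

namespace Pool.Agent.H247.VE

open Pool.Agent.H718R2.G Pool.Agent.K7.H85.KHS Pool.Agent.H247.CB
open Pool.Agent.R774.OS (CR)
open Pool.Agent.K7.H85.KH (DE DN qform rep_form diff_md HyperbolicOn dn_symm)
open Pool.Agent.Q182.MC (ChainTo cls cls_inv chainTo_iff)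

section

variable {n : ℕ} {N : Type u} [TopologicalSpace N] [ChartedSpace (V n) N]

/-- adapted from `axiomA_of` (`K7/H85/KH/Trans.lean` of the library) -/
theorem hyperbolic_of [T2Space N] [CompactSpace N] [IsManifold (𝓡 n) ∞ N] {r : ℕ∞} (hr : 1 ≤ r)
    {G : DiffM n N r} {K : Set N} (H : HyperbolicOn G K) : Hyperbolic n G G.symm K := by
  obtain ⟨m, e, Es, Eu, C, lam, h1, h2, h3, h4, h5, h6⟩ := H
  have he1 : ContMDiff (𝓡 n) (𝓡 m) 1 e := h1.of_le (by exact_mod_cast le_top)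
  refine ⟨fun x v => ‖DE n e x v‖ ^ 2, C ^ 2, lam ^ 2, Es, Eu, ?_, fun x v hv => ?_,
    by positivity, by positivity, by nlinarith, fun x hx => ?_⟩
  · refine (form_iff _).2 ⟨m, e, fun _ => innerSL ℝ, he1, continuous_const, fun x v => ?_⟩
    exact (real_inner_self_eq_norm_sq (DE n e x v)).symm
  · have : DE n e x v ≠ 0 := fun h0 => hv (h2 x (by rw [h0, map_zero]))
    have := norm_pos_iff.2 this
    positivity
  · obtain ⟨k1, k2, k3, k4, k5⟩ := h6 x hx
    have sq : ∀ (y z : ℝ) (k : ℕ), 0 ≤ y → y ≤ C * lam ^ k * z →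
        y ^ 2 ≤ C ^ 2 * (lam ^ 2) ^ k * z ^ 2 := by
      intro y z k hy hyz
      calc y ^ 2 ≤ (C * lam ^ k * z) ^ 2 := pow_le_pow_left₀ hy hyz 2
        _ = C ^ 2 * (lam ^ 2) ^ k * z ^ 2 := by ring
    have inj : ∀ v w, DN n G x v = DN n G x w → v = w := by
      intro v w hvw
      rw [← dn_symm hr G x v, hvw, dn_symm hr G x w]
    refine ⟨k1, fun v => ?_, fun v hv k => ?_, fun v hv k => ?_⟩
    · rw [dN_eq (diff_md hr G x), ← k2, ← k3]
      refine ⟨⟨?_, fun hv => ⟨v, hv, rfl⟩⟩, ⟨?_, fun hv => ⟨v, hv, rfl⟩⟩⟩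
      · rintro ⟨w, hw, hwv⟩
        rw [← inj w v hwv]
        exact hw
      · rintro ⟨w, hw, hwv⟩
        rw [← inj w v hwv]
        exact hw
    · rw [dN_eq (Pool.Agent.K7.H85.KH.it_md hr G k x)]
      exact sq _ _ k (norm_nonneg _) (k4 v hv k)
    · rw [dN_eq (Pool.Agent.K7.H85.KH.it_md hr G.symm k x)]
      exact sq _ _ k (norm_nonneg _) (k5 v hv k)

theorem final_hypOff
    [T2Space N] [CompactSpace N] [IsManifold (𝓡 n) ∞ N] {r : ℕ∞} (hr : 1 ≤ r)
    (F : DiffM n N r) (O : Set N) (hO : IsOpen O) (H : ∀ x, ChainRecurrent F Set.univ x → x ∉ O →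
      FormIncreases F (chainClass F x) ∨ OneNeutralOrbit F (chainClass F x)) :
    ∃ U W : Set (DiffM n N r), IsOpen[strongTop n N r] U ∧ F ∈ U ∧ IsOpen[strongTop n N r] W ∧
      W ⊆ U ∧ (∀ U' ⊆ U, IsOpen[strongTop n N r] U' → U'.Nonempty → (U' ∩ W).Nonempty) ∧
      ((∀ x, ChainRecurrent F Set.univ x → x ∉ O → FormIncreases F (chainClass F x)) → W = U) ∧
      ∀ G ∈ W, (∃ Λ : Set N, HyperbolicPart G Λ ∧
        ∀ x, ChainRecurrent G Set.univ x → x ∉ O → x ∈ Λ) ∧ (O = ∅ → AxiomA G) := by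
  have : SecondCountableTopology N := ChartedSpace.secondCountable_of_sigmaCompact (V n) N
  let _ : MetricSpace N := TopologicalSpace.metrizableSpaceMetric N
  let _ : MeasurableSpace N := borel N
  have _ : BorelSpace N := ⟨rfl⟩
  obtain ⟨d, e, he, he', hinj'⟩ := exists_embedding_euclidean_of_compact (I := 𝓡 n) (M := N)
  have hinj : ∀ x, Function.Injective (DE n e x) := fun x => hinj' x
  obtain ⟨t, O', U, W, h1, h2, h3, h4, h5, h6, -, h8, h9⟩ := Cls.cover_rel
    (Pool.Agent.H484.CB.LOC.main Pool.Agent.H407.CB.LA.main Pool.Agent.H457.CB.CN.main)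
    (Pool.Agent.H984.CB.SEP.main CB.Top.usc) Pool.Agent.H105.CBIT.main
    Pool.Agent.H747.CBPI.main CB.Top.usc
    (Pool.Agent.H353.CB.main Pool.Agent.H179.CB.QF.main)
    Pool.Agent.Y504.CO.DicF.hNB Pool.Agent.Y504.CO.DicF.hHD Pool.Agent.Y504.CO.DicF.hCI
    Pool.Agent.H399.VE.main Pool.Agent.H14.VE.ORB.main cc2 Pool.Agent.H260.VE.main
    (0 : Measure N) hr F he hinj
    (TyD := fun _ => False) (fun x hx => hx.elim) hO (fun x hx hxO => by
      rcases H x hx hxO with h | h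
      · exact Or.inl (tyL hr he hinj h)
      · exact Or.inr (Or.inl (tyE hx h)))
  refine ⟨U, W, h1, h2, h3, h4, h5,
    fun h => h6 fun x hx hxO => Or.inl (tyL hr he hinj (h x hx hxO)), fun G hG => ?_⟩
  obtain ⟨k1, k2⟩ := h9 G hG
  have kI : ∀ x ∈ t, Cls.Incr G e (CR (G : N → N) ∩ O' x) := by
    intro x hx
    rcases (k2 x hx).2 with h | ⟨⟨-, h⟩, -⟩
    · exact h
    · exact h.elim
  obtain ⟨j1, j2⟩ := Cls.incr_union G (fun x hx => (k2 x hx).1) kI
  obtain ⟨j3, j4⟩ := Cls.hyp_of_incr (Pool.Agent.H887.VEPD2.main cc2) hr G he hinj j1 j2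
  refine ⟨⟨⋃ x ∈ t, CR (G : N → N) ∩ O' x, ⟨fun x hx => j1.sub hx, j1.cl, j1.cl', ?_,
    hyperbolic_of hr j4, j3⟩, fun x hx hxO => ?_⟩, fun hO0 => ?_⟩
  · apply subset_antisymm
    · rintro _ ⟨x, hx, rfl⟩
      exact j1.fwd x hx
    · intro x hx
      exact ⟨G.symm x, j1.bwd x hx, G.apply_symm_apply x⟩
  · have hx' : x ∈ CR (G : N → N) := hx
    obtain ⟨y, hy, hxy⟩ := mem_iUnion₂.1 ((k1 hx').resolve_left hxO)
    exact mem_iUnion₂.2 ⟨y, hy, hx', hxy⟩
  · rw [hO0, empty_union] at k1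
    exact axiomA_of hr (Cls.axiomA_of_incr hr G he hinj
      (Cls.incr_all G k1 (fun x hx => (k2 x hx).1) kI))

end

end Pool.Agent.H247.VE
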