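import Pool.Agent.H247.VE.Stm
import Pool.Agent.H247.CB.Fin

/-!
# Project VE: the definitions used in the final statements
-/

set_option autoImplicit false

open scoped Manifold ContDiff Topology
open Filter Set MeasureTheory

universe u

namespace Pool.Agent.H247.VE

open Pool.Agent.H718R2.G Pool.Agent.K7.H85.KHS Pool.Agent.H247.CB
open Pool.Agent.Q182.MC (cls)
open Pool.Agent.H728R2.FA (omegaLim FiniteAttractors IsAttractor)

section defs

variable {n : ℕ} {N : Type u} [TopologicalSpace N] [ChartedSpace (V n) N]

/-- The chain recurrence class of `x`: the points which can be joined with `x` and to which `x` can be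
joined by pseudo-orbits with arbitrarily small jumps (empty if `x` is not chain recurrent). -/
def chainClass {r : ℕ∞} (F : DiffM n N r) (x : N) : Set N := cls (F : N → N) univ x

/-- Some continuous quadratic form (of any signature) on the tangent spaces increases strictly under
`DF` at the points of `C`. -/
def FormIncreases {r : ℕ∞} (F : DiffM n N r) (C : Set N) : Prop :=
  ∃ Q : N → V n → ℝ, IsForm Q ∧ ∀ y ∈ C, ∀ v : V n, v ≠ 0 → Q y v < Q (F y) (dN F y v)

/-- `C` is (empty or) one periodic orbit, and the return derivative at its points has at most one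
eigenvalue of modulus one (counted with multiplicity). -/
def OneNeutralOrbit {r : ℕ∞} (F : DiffM n N r) (C : Set N) : Prop :=
  ∃ m : ℕ, 1 ≤ m ∧ (∀ y ∈ C, F^[m] y = y ∧ AtMostOne (lin (n := n) F^[m] y)) ∧
    ∀ x ∈ C, ∀ y ∈ C, ∃ i : ℕ, y = F^[i] x

/-- Some iterate of `F` expands the volume `μ` at the points of `C`. -/
def VolumeExpands [MeasurableSpace N] (μ : Measure N) {r : ℕ∞} (F : DiffM n N r) (C : Set N) :
    Prop :=
  ∃ m : ℕ, ∀ y ∈ C, ExpandsAt n μ F^[m] y

/-- Every chain recurrent point lies in one of the sets `L`, `E`, `D`; the chain classes of the points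
of `L`, `E` and `D` satisfy `FormIncreases`, `OneNeutralOrbit` and `VolumeExpands`. -/
structure ClasswiseCR [MeasurableSpace N] (μ : Measure N) {r : ℕ∞} (F : DiffM n N r)
    (L E D : Set N) : Prop where
  union : ∀ x, ChainRecurrent F Set.univ x → x ∈ L ∪ E ∪ D
  form : ∀ x ∈ L, FormIncreases F (chainClass F x)
  neutral : ∀ x ∈ E, OneNeutralOrbit F (chainClass F x)
  expanding : ∀ x ∈ D, VolumeExpands μ F (chainClass F x)


/-- Every chain recurrent point which is not in `O` lies in one of the sets `L`, `E`, `D`; the chain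
classes of the points of `L`, `E` and `D` satisfy `FormIncreases`, `OneNeutralOrbit` and
`VolumeExpands`. -/
structure ClasswiseOff [MeasurableSpace N] (μ : Measure N) {r : ℕ∞} (F : DiffM n N r)
    (L E D O : Set N) : Prop where
  union : ∀ x, ChainRecurrent F Set.univ x → x ∉ O → x ∈ L ∪ E ∪ D
  form : ∀ x ∈ L, FormIncreases F (chainClass F x)
  neutral : ∀ x ∈ E, OneNeutralOrbit F (chainClass F x)
  expanding : ∀ x ∈ D, VolumeExpands μ F (chainClass F x)

/-- `Λ` is a hyperbolic part of the chain recurrent set of `G`: it is open and closed in the chain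
recurrent set, invariant and hyperbolic, and the periodic points are dense in it. -/
structure HyperbolicPart {r : ℕ∞} (G : DiffM n N r) (Λ : Set N) : Prop where
  subset : ∀ x ∈ Λ, ChainRecurrent G Set.univ x
  closed : IsClosed Λ
  isolated : IsClosed ({x | ChainRecurrent G Set.univ x} \ Λ)
  invariant : (G : N → N) '' Λ = Λ
  hyperbolic : Hyperbolic n G G.symm Λ
  dense : Λ ⊆ closure (Periodic (G : N → N) ∩ Λ)

end defs

/-- `S` is a finite set of pairwise disjoint closed invariant sets, each with a dense forward orbit,
and the points whose `ω`-limit set is contained neither in `V` nor in one of them form a set of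
measure zero. -/
structure ClassesOff {X : Type u} [TopologicalSpace X] [MeasurableSpace X] (μ : Measure X)
    (g : X → X) (V : Set X) (S : Set (Set X)) : Prop where
  finite : S.Finite
  disjoint : ∀ C ∈ S, ∀ C' ∈ S, C ≠ C' → Disjoint C C'
  closed : ∀ C ∈ S, IsClosed C
  invariant : ∀ C ∈ S, g '' C = C
  transitive : ∀ C ∈ S, ∃ x ∈ C, C ⊆ closure (range fun k : ℕ => g^[k] x)
  ae : μ {p | ¬ omegaLim g p ⊆ V ∧ ∀ C ∈ S, ¬ omegaLim g p ⊆ C} = 0

/-- `g` has finitely many attractors whose basins cover, up to measure zero, the set of the points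
whose `ω`-limit set is not contained in `V`. -/
def FiniteAttractorsOff {X : Type u} [TopologicalSpace X] [MeasurableSpace X] (μ : Measure X)
    (g : X → X) (V : Set X) : Prop :=
  ∃ (k : ℕ) (Λ : Fin k → Set X), (∀ i, IsAttractor μ g (Λ i)) ∧
    μ {p | ¬ omegaLim g p ⊆ V ∧ ∀ i, ¬ omegaLim g p ⊆ Λ i} = 0


end Pool.Agent.H247.VE
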