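import Pool.Agent.H247.VE.Rel

/-!
# Project VE: the relative version, final form
-/

set_option autoImplicit false
set_option linter.unusedSectionVars false

open scoped Manifold ContDiff Topology
open Filter Set Metric MeasureTheory

universe u

namespace Pool.Agent.H247.VE

open Pool.Agent.H718R2.G Pool.Agent.K7.H85.KHS Pool.Agent.H247.CB
open Pool.Agent.R774.OS (CR)
open Pool.Agent.K7.H85.KH (DE DN qform rep_form diff_md)
open Pool.Agent.Q182.MC (ChainTo cls cls_inv chainTo_iff)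
open Pool.Agent.H728R2.FA (omegaLim FiniteAttractors)

section final

variable {n : ℕ} {N : Type u} [TopologicalSpace N] [ChartedSpace (V n) N]

/-- if `O` is empty then the basins cover the manifold -/
theorem finiteAttractors_of_off {X : Type u} [MetricSpace X] [CompactSpace X] [MeasurableSpace X]
    {μ : Measure X} (g : X ≃ₜ X) (h : FiniteAttractorsOff μ (g : X → X) ∅) :
    FiniteAttractors μ (g : X → X) := by
  obtain ⟨k, Λ, h1, h2⟩ := h
  refine ⟨k, Λ, h1, measure_mono_null ?_ h2⟩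
  intro p hp
  refine ⟨fun hsub => ?_, hp⟩
  obtain ⟨a, -, ha⟩ := Pool.Agent.Y318.MH.exists_omegaLim g p univ isClosed_univ
    (fun N => ⟨N, le_rfl, trivial⟩)
  exact hsub ha

theorem final_off
    [T2Space N] [CompactSpace N] [IsManifold (𝓡 n) ∞ N] [MeasurableSpace N] [BorelSpace N]
    (μ : Measure N) [IsFiniteMeasure μ] (hμ : SmoothMeasure n μ) {r : ℕ∞} (hr : 1 ≤ r)
    (F : DiffM n N r) (L E D O : Set N) (hO : IsOpen O) (H : ClasswiseOff μ F L E D O) :
    ∃ U W : Set (DiffM n N r), IsOpen[strongTop n N r] U ∧ F ∈ U ∧ IsOpen[strongTop n N r] W ∧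
      W ⊆ U ∧ (∀ U' ⊆ U, IsOpen[strongTop n N r] U' → U'.Nonempty → (U' ∩ W).Nonempty) ∧
      (E = ∅ → W = U) ∧ ∀ G ∈ W, FiniteAttractorsOff μ (G : N → N) O ∧
        (O = ∅ → FiniteAttractors μ (G : N → N)) ∧
        ∃ S : Set (Set N), ClassesOff μ (G : N → N) O S ∧
          (D = ∅ → ∀ p, omegaLim (G : N → N) p ⊆ O ∨ ∃ C ∈ S, omegaLim (G : N → N) p ⊆ C) := by
  have : SecondCountableTopology N := ChartedSpace.secondCountable_of_sigmaCompact (V n) N
  let _ : MetricSpace N := TopologicalSpace.metrizableSpaceMetric N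
  obtain ⟨d, e, he, he', hinj'⟩ := exists_embedding_euclidean_of_compact (I := 𝓡 n) (M := N)
  have hinj : ∀ x, Function.Injective (DE n e x) := fun x => hinj' x
  have htyL : ∀ x ∈ L, Cls.TyL F e x := fun x hx => tyL hr he hinj (H.form x hx)
  have hun : ∀ x ∈ CR (F : N → N), x ∉ O → (x ∈ L ∨ x ∈ E) ∨ x ∈ D :=
    fun x hx hxO => H.union x hx hxO
  obtain ⟨t, O', U, W, h1, h2, h3, h4, h5, h6, -, h8, h9⟩ := Cls.cover_rel
    (Pool.Agent.H484.CB.LOC.main Pool.Agent.H407.CB.LA.main Pool.Agent.H457.CB.CN.main)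
    (Pool.Agent.H984.CB.SEP.main CB.Top.usc) Pool.Agent.H105.CBIT.main
    Pool.Agent.H747.CBPI.main CB.Top.usc
    (Pool.Agent.H353.CB.main Pool.Agent.H179.CB.QF.main)
    Pool.Agent.Y504.CO.DicF.hNB Pool.Agent.Y504.CO.DicF.hHD Pool.Agent.Y504.CO.DicF.hCI
    Pool.Agent.H399.VE.main Pool.Agent.H14.VE.ORB.main cc2 Pool.Agent.H260.VE.main μ hr F he hinj
    (TyD := fun x => x ∈ D) (fun x hx => H.expanding x hx) hO (fun x hx hxO => by
      rcases hun x hx hxO with (h | h) | h
      · exact Or.inl (htyL x h)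
      · exact Or.inr (Or.inl (tyE hx (H.neutral x h)))
      · exact Or.inr (Or.inr h))
  refine ⟨U, W, h1, h2, h3, h4, h5, fun hE => h6 fun x hx hxO => ?_, fun G hG => ?_⟩
  · rcases hun x hx hxO with (h | h) | h
    · exact Or.inl (htyL x h)
    · rw [hE] at h
      exact absurd h (notMem_empty x)
    · exact Or.inr h
  · obtain ⟨k1, k2⟩ := h9 G hG
    obtain ⟨S, hS, hS'⟩ := Cls.classesOff cc2 (Pool.Agent.H887.VEPD2.main cc2)
      Pool.Agent.H363.VE.main Pool.Agent.H130.VE.main (Pool.Agent.H825.VETR2.main cc2)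
      Pool.Agent.H638.VE.NP.main μ hμ hr G he he'.injective h8 k1 (fun x hx => (k2 x hx).1)
      (fun x hx => (k2 x hx).2.imp_right fun h => h.2)
    have hA := attractors_of_classesOff hS
    refine ⟨hA, fun hO0 => ?_, S, hS, fun hD => hS' fun x hx => ?_⟩
    · rw [hO0] at hA
      exact finiteAttractors_of_off G.toHomeomorph hA
    · rcases (k2 x hx).2 with h | ⟨⟨-, h⟩, -⟩
      · exact h
      · rw [hD] at h
        exact absurd h (notMem_empty x)

end final

end Pool.Agent.H247.VE
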