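import Pool.Agent.H247.SD.Stm
import Pool.Graph.R_seed8.Y504.CO.Stm7

/-!
# Finitely many attractors with a volume expanding part: statements of the parts
-/

set_option autoImplicit false

open scoped Manifold ContDiff Topology
open Filter Set Metric MeasureTheory

universe u

namespace Pool.Agent.H247.VE

open Pool.Agent.H718R2.G Pool.Agent.TH80.OMS Pool.Agent.H247.SD
open Pool.Agent.R774.OS (CR)
open Pool.Agent.Q182.MC (ChainTo cls)
open Pool.Agent.H728R2.FA (omegaLim FiniteAttractors)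

/-- In the preferred chart at `x` the measure `μ` has the continuous positive density `ρ`. -/
def Dens (n : ℕ) {N : Type u} [TopologicalSpace N] [ChartedSpace (V n) N] [MeasurableSpace N]
    (μ : Measure N) (x : N) (ρ : V n → ℝ) : Prop :=
  ContinuousOn ρ (chartAt (V n) x).target ∧ (∀ y ∈ (chartAt (V n) x).target, 0 < ρ y) ∧
    ∀ B ⊆ (chartAt (V n) x).source, MeasurableSet B →
      μ B = ∫⁻ y in (chartAt (V n) x) '' B, ENNReal.ofReal (ρ y)

/-- `μ` is a measure with continuous positive densities in the charts. -/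
def SmoothMeasure (n : ℕ) {N : Type u} [TopologicalSpace N] [ChartedSpace (V n) N]
    [MeasurableSpace N] (μ : Measure N) : Prop :=
  ∀ x : N, ∃ ρ : V n → ℝ, Dens n μ x ρ

/-- The Jacobian of `f` at `x` with respect to `μ` is larger than one. -/
def ExpandsAt (n : ℕ) {N : Type u} [TopologicalSpace N] [ChartedSpace (V n) N]
    [MeasurableSpace N] (μ : Measure N) (f : N → N) (x : N) : Prop :=
  ∃ ρ ρ' : V n → ℝ, Dens n μ x ρ ∧ Dens n μ (f x) ρ' ∧
    ρ (chartAt (V n) x x) < ρ' (chartAt (V n) (f x) (f x)) *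
      |(fderiv ℝ (fun v => chartAt (V n) (f x) (f ((chartAt (V n) x).symm v)))
        (chartAt (V n) x x)).det|

/-- VL: volume expansion near a point, for nearby maps. -/
def S_VL : Prop :=
  ∀ (n : ℕ) (N : Type u) [TopologicalSpace N] [T2Space N] [CompactSpace N] [ChartedSpace (V n) N]
    [IsManifold (𝓡 n) ∞ N] [MeasurableSpace N] [BorelSpace N] (μ : Measure N)
    [IsFiniteMeasure μ] (r : ℕ∞), 1 ≤ r → ∀ (F : DiffM n N r) (m : ℕ) (x : N),
    ExpandsAt n μ (F^[m]) x → ∃ W ∈ 𝓝 x, ∃ lam : ℝ, 1 < lam ∧ ∃ U : Set (DiffM n N r),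
      IsOpen[strongTop n N r] U ∧ F ∈ U ∧ ∀ G ∈ U, ∀ B ⊆ W, MeasurableSet B →
        ENNReal.ofReal lam * μ B ≤ μ (G^[m] '' B)

/-- NP: diffeomorphisms preserve the null sets. -/
def S_NP : Prop :=
  ∀ (n : ℕ) (N : Type u) [TopologicalSpace N] [T2Space N] [CompactSpace N] [ChartedSpace (V n) N]
    [IsManifold (𝓡 n) ∞ N] [MeasurableSpace N] [BorelSpace N] (μ : Measure N)
    [IsFiniteMeasure μ] (r : ℕ∞), 1 ≤ r → SmoothMeasure n μ → ∀ (G : DiffM n N r) (B : Set N),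
    MeasurableSet B → μ B = 0 → μ (G ⁻¹' B) = 0

/-- `K` is an isolated invariant part of the chain recurrent set. -/
structure Iso {X : Type u} [MetricSpace X] (G : X ≃ₜ X) (K : Set X) : Prop where
  sub : K ⊆ CR (G : X → X)
  cl : IsClosed K
  cl' : IsClosed (CR (G : X → X) \ K)
  fwd : ∀ x ∈ K, G x ∈ K
  bwd : ∀ x ∈ K, G.symm x ∈ K

/-- CC2: chains in an isolated part. -/
def S_CC2 : Prop :=
  ∀ (X : Type u) [MetricSpace X] [CompactSpace X] (G : X ≃ₜ X) (K : Set X), Iso G K →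
    ∀ a ∈ K, ∀ b ∈ cls (G : X → X) univ a, ∀ δ : ℝ, 0 < δ → ∃ (p : ℕ) (x : ℕ → X) (k : ℕ),
      1 ≤ p ∧ (∀ j, x (j + p) = x j) ∧ (∀ j, x j ∈ K) ∧
      (∀ j, dist (G (x j)) (x (j + 1)) < δ) ∧ x 0 = a ∧ x k = b

/-- PD2: density of periodic points. -/
def S_PD2 : Prop :=
  ∀ (X : Type u) [MetricSpace X] [CompactSpace X] (G : X ≃ₜ X) (K : Set X), Iso G K →
    Sh (G : X → X) K → K ⊆ closure {p | p ∈ K ∧ ∃ k : ℕ, 1 ≤ k ∧ G^[k] p = p}

/-- PO2: close periodic points are chain equivalent. -/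
def S_PO2 : Prop :=
  ∀ (X : Type u) [MetricSpace X] [CompactSpace X] (G : X ≃ₜ X) (K : Set X), Iso G K →
    Sh (G : X → X) K → Ex G K → ∃ δ : ℝ, 0 < δ ∧ ∀ p ∈ K, ∀ q ∈ K,
      (∃ k : ℕ, 1 ≤ k ∧ G^[k] p = p) → (∃ k : ℕ, 1 ≤ k ∧ G^[k] q = q) → dist p q < δ →
      q ∈ cls (G : X → X) univ p

/-- FC2: the chain classes in `K` are open in `K`, and there are finitely many. -/
def S_FC2 : Prop :=
  ∀ (X : Type u) [MetricSpace X] [CompactSpace X] (G : X ≃ₜ X) (K : Set X), Iso G K →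
    (∃ δ : ℝ, 0 < δ ∧ ∀ p ∈ K, ∀ q ∈ K,
      (∃ k : ℕ, 1 ≤ k ∧ G^[k] p = p) → (∃ k : ℕ, 1 ≤ k ∧ G^[k] q = q) → dist p q < δ →
      q ∈ cls (G : X → X) univ p) →
    K ⊆ closure {p | p ∈ K ∧ ∃ k : ℕ, 1 ≤ k ∧ G^[k] p = p} →
    (∃ η : ℝ, 0 < η ∧ ∀ a ∈ K, ∀ c ∈ K, dist a c < η → c ∈ cls (G : X → X) univ a) ∧
    {C | ∃ a ∈ K, C = cls (G : X → X) univ a}.Finite

/-- TR2: orbits from near `a` to near `b` in the chain class of `a` and `b`. -/
def S_TR2 : Prop :=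
  ∀ (X : Type u) [MetricSpace X] [CompactSpace X] (G : X ≃ₜ X) (K : Set X), Iso G K →
    Sh (G : X → X) K →
    (∃ η : ℝ, 0 < η ∧ ∀ a ∈ K, ∀ c ∈ K, dist a c < η → c ∈ cls (G : X → X) univ a) →
    ∀ a ∈ K, ∀ b ∈ cls (G : X → X) univ a, ∀ ε : ℝ, 0 < ε →
    ∃ z ∈ cls (G : X → X) univ a, ∃ k : ℕ, dist z a < ε ∧ dist (G^[k] z) b < ε

/-- AT: finitely many attractors, if the other part of the chain recurrent set is volume
expanding. -/
def S_AT : Prop :=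
  ∀ (X : Type u) [MetricSpace X] [CompactSpace X] [MeasurableSpace X] [BorelSpace X]
    (μ : Measure X) [IsFiniteMeasure μ] (G : X ≃ₜ X) (K : Set X), Iso G K →
    ∀ V : Set X, IsOpen V → CR (G : X → X) \ K ⊆ V → ∀ (m : ℕ) (lam : ℝ), 1 < lam →
    (∀ B ⊆ V, MeasurableSet B → ENNReal.ofReal lam * μ B ≤ μ (G^[m] '' B)) →
    (∀ B, MeasurableSet B → μ B = 0 → μ (G ⁻¹' B) = 0) →
    {C | ∃ a ∈ K, C = cls (G : X → X) univ a}.Finite →
    (∀ a ∈ K, cls (G : X → X) univ a ⊆ K) →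
    (∀ a ∈ K, ∃ x ∈ cls (G : X → X) univ a,
      cls (G : X → X) univ a ⊆ closure (range fun k : ℕ => G^[k] x)) →
    FiniteAttractors μ (G : X → X)

end Pool.Agent.H247.VE
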