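import Pool.Agent.H247.VE.Stm

/-!
# Class-wise version: statements of the parts
-/

set_option autoImplicit false

open scoped Topology
open Filter Set Metric

universe u

namespace Pool.Agent.H247.VE

open Pool.Agent.R774.OS (CR)
open Pool.Agent.Q182.MC (ChainTo cls)

/-- EPS: chain classes have arbitrarily small isolated invariant neighbourhoods in the chain
recurrent set. -/
def S_EPS : Prop :=
  ∀ (X : Type u) [MetricSpace X] [CompactSpace X] (F : X ≃ₜ X) (x : X), x ∈ CR (F : X → X) →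
    ∀ O : Set X, IsOpen O → cls (F : X → X) univ x ⊆ O → ∃ P : Set X, x ∈ P ∧ P ⊆ O ∧
      P ⊆ CR (F : X → X) ∧ IsClosed P ∧ IsClosed (CR (F : X → X) \ P) ∧ (∀ y ∈ P, F y ∈ P) ∧
      (∀ y ∈ CR (F : X → X) \ P, F y ∈ CR (F : X → X) \ P)

/-- ORB: small disjoint neighbourhoods of the points of a finite invariant set. -/
def S_ORB : Prop :=
  ∀ (X : Type u) [MetricSpace X] (F : X ≃ₜ X) (A : Set X), A.Finite → (∀ y ∈ A, F y ∈ A) →
    ∀ O : X → Set X, (∀ y ∈ A, IsOpen (O y) ∧ y ∈ O y) → ∃ O' : X → Set X,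
      (∀ y ∈ A, IsOpen (O' y) ∧ y ∈ O' y ∧ O' y ⊆ O y) ∧
      (∀ y ∈ A, ∀ z ∈ A, y ≠ z → Disjoint (O' y) (O' z)) ∧
      ∀ y ∈ A, ∀ z ∈ A, ∀ w ∈ O' y, F w ∈ O' z → z = F y

/-- GLUE: continuous maps on disjoint closed sets can be glued. -/
def S_GLUE : Prop :=
  ∀ (X : Type u) [MetricSpace X] (E : Type) [NormedAddCommGroup E] [NormedSpace ℝ E]
    (ι : Type u) (t : Finset ι) (K : ι → Set X) (B : ι → X → E), (∀ i ∈ t, IsClosed (K i)) →
    (∀ i ∈ t, ∀ j ∈ t, i ≠ j → Disjoint (K i) (K j)) → (∀ i ∈ t, Continuous (B i)) →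
    ∃ b : X → E, Continuous b ∧ ∀ i ∈ t, ∀ x ∈ K i, b x = B i x

end Pool.Agent.H247.VE
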