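import Pool.Agent.H247.VE.Stm
import Pool.Agent.H247.SD.Top

/-!
# Project VE: the relative spectral decomposition
-/

set_option autoImplicit false

open Filter Set Metric Topology MeasureTheory

universe u

namespace Pool.Agent.H247.VE.Top

open Pool.Agent.H247.SD Pool.Agent.H247.VE
open Pool.Agent.R774.OS (CR isClosed_CR mem_CR)
open Pool.Agent.Q182.MC (ChainTo cls chainTo_iff cls_inv finite_of_classes)
open Pool.Agent.H728R2.FA (omegaLim FiniteAttractors)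

variable {X : Type u} [MetricSpace X] [CompactSpace X]

theorem spectral (hCC2 : S_CC2.{u}) (hPD2 : S_PD2.{u}) (hPO2 : S_PO2.{u}) (hFC2 : S_FC2.{u})
    (hTR2 : S_TR2.{u}) (hBA : S_BA.{u}) (G : X ≃ₜ X) {K : Set X} (hK : Iso G K)
    (hSh : Sh (G : X → X) K) (hEx : Ex G K) :
    {C | ∃ a ∈ K, C = cls (G : X → X) univ a}.Finite ∧
      (∀ a ∈ K, cls (G : X → X) univ a ⊆ K) ∧
      (∀ a ∈ K, IsClosed (cls (G : X → X) univ a)) ∧
      ∀ a ∈ K, ∃ x ∈ cls (G : X → X) univ a,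
        cls (G : X → X) univ a ⊆ closure (range fun k : ℕ => G^[k] x) := by
  obtain ⟨⟨η, hη, h1⟩, h2⟩ := hFC2 X G K hK (hPO2 X G K hK hSh hEx) (hPD2 X G K hK hSh)
  have hsub : ∀ a ∈ K, cls (G : X → X) univ a ⊆ K := by
    intro a ha c hc
    obtain ⟨p, x, k, -, -, h3, -, -, h4⟩ := hCC2 X G K hK a ha c hc 1 one_pos
    rw [← h4]
    exact h3 k
  have haa : ∀ a ∈ K, a ∈ cls (G : X → X) univ a := fun a ha =>
    h1 a ha a ha (by rw [dist_self]; exact hη)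
  have hcl' : ∀ a ∈ K, IsClosed (cls (G : X → X) univ a) := by
    intro a ha
    refine isClosed_of_closure_subset fun c hc => ?_
    have hcC : c ∈ K := hK.cl.closure_subset_iff.2 (hsub a ha) hc
    obtain ⟨b, hb, hcb⟩ := Metric.mem_closure_iff.1 hc η hη
    have h3 := h1 b (hsub a ha hb) c hcC (by rwa [dist_comm])
    exact ⟨hb.1.trans h3.1, h3.2.trans hb.2⟩
  refine ⟨h2, hsub, hcl', fun a ha => ?_⟩
  refine hBA X (G : X → X) G.continuous (cls (G : X → X) univ a) (hcl' a ha) ⟨a, haa a ha⟩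
    (fun x hx => Pool.Agent.H247.SD.Top.cls_fwd G hx) fun b hb c hc ε hε => ?_
  obtain ⟨z, hz, k, h3, h4⟩ := hTR2 X G K hK hSh ⟨η, hη, h1⟩ b (hsub a ha hb) c
    ⟨hb.2.trans hc.1, hc.2.trans hb.1⟩ ε hε
  exact ⟨z, ⟨hb.1.trans hz.1, hz.2.trans hb.2⟩, k, h3, h4⟩

end Pool.Agent.H247.VE.Top
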